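import Pool.Agent.Helper23_Refl.StmtC1
import Pool.Agent.Helper51_Refl.Nn
import Pool.Agent.Helper84_Refl.Base

/-!
# NUMS: relations between the numbers `nn`
-/

set_option autoImplicit false

namespace Pool.Agent.Refl.H46

open Matrix Pool.Agent.Refl

variable {G : M4}

theorem nnm (hG : Lat G) {a b : Z4} (ha : IsRoot G a) (hb : IsRoot G b) :
    (nn G a b : ℤ) * (bz G a a * bz G b b) = 4 * bz G a b ^ 2 :=
  Pool.Agent.Refl.H51.nn_mul hG ha hb

theorem nn_comm (hG : Lat G) {a b : Z4} (ha : IsRoot G a) (hb : IsRoot G b) :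
    nn G a b = nn G b a := by
  have h1 := nnm hG ha hb
  have h2 := nnm hG hb ha
  have h3 := hG.zcomm b a
  rw [h3, mul_comm (bz G b b)] at h2
  have h4 : (nn G a b : ℤ) * (bz G a a * bz G b b) = (nn G b a : ℤ) * (bz G a a * bz G b b) := by
    rw [h1, h2]
  have h5 := mul_right_cancel₀ (mul_pos ha.pos hb.pos).ne' h4
  exact_mod_cast h5

theorem isSquare_of_mul {n : ℕ} {k m : ℤ} (hk : k ≠ 0) (h : (n : ℤ) * k ^ 2 = m ^ 2) :
    IsSquare n := by
  have h1 : k ^ 2 ∣ m ^ 2 := ⟨n, by rw [← h]; ring⟩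
  have h2 : k ∣ m := (Int.pow_dvd_pow_iff two_ne_zero).1 h1
  obtain ⟨l, rfl⟩ := h2
  have h3 : (n : ℤ) = l ^ 2 := by
    have h4 : (n : ℤ) * k ^ 2 = l ^ 2 * k ^ 2 := by rw [h]; ring
    exact mul_right_cancel₀ (pow_ne_zero 2 hk) h4
  refine ⟨l.natAbs, ?_⟩
  zify
  rw [h3, abs_mul_abs_self]
  ring

theorem cyc : CycStmt := by
  intro G a b c d hG ha hb hc hd
  have h1 := nnm hG ha hb
  have h2 := nnm hG hb hc
  have h3 := nnm hG hc hd
  have h4 := nnm hG hd ha
  refine isSquare_of_mul (k := bz G a a * bz G b b * bz G c c * bz G d d)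
    (m := 16 * (bz G a b * bz G b c * bz G c d * bz G d a)) ?_ ?_
  · exact (mul_pos (mul_pos (mul_pos ha.pos hb.pos) hc.pos) hd.pos).ne'
  · push_cast
    calc (nn G a b : ℤ) * nn G b c * nn G c d * nn G d a *
          (bz G a a * bz G b b * bz G c c * bz G d d) ^ 2 =
        ((nn G a b : ℤ) * (bz G a a * bz G b b)) * ((nn G b c : ℤ) * (bz G b b * bz G c c)) *
          ((nn G c d : ℤ) * (bz G c c * bz G d d)) * ((nn G d a : ℤ) * (bz G d d * bz G a a)) := by
          ring
      _ = _ := by rw [h1, h2, h3, h4]; ring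

/-- square root of a square in terms of a known nonnegative number -/
theorem sqrt_mul {n : ℕ} (hn : IsSquare n) {k m : ℤ} (hk : 0 ≤ k) (hm : 0 ≤ m)
    (h : (n : ℤ) * k ^ 2 = m ^ 2) : (Nat.sqrt n : ℤ) * k = m := by
  obtain ⟨r, rfl⟩ := hn
  rw [Nat.sqrt_eq]
  push_cast at h
  have h1 : ((r : ℤ) * k) ^ 2 = m ^ 2 := by rw [← h]; ring
  exact (pow_left_inj₀ (by positivity) hm two_ne_zero).1 h1

theorem tri_isSquare (hG : Lat G) {a b c : Z4} (ha : IsRoot G a) (hb : IsRoot G b)
    (hc : IsRoot G c) : IsSquare (nn G a b * nn G b c * nn G a c) :=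
  (Pool.Agent.Refl.H51.nn_stmt G a b hG ha hb).2.2.2 c hc

/-- `t (a,a)(b,b)(c,c) = -8 (a,b)(b,c)(a,c)` -/
theorem tri_eq (hG : Lat G) {a b c : Z4} (ha : IsRoot G a) (hb : IsRoot G b)
    (hc : IsRoot G c) (hab : bz G a b ≤ 0) (hbc : bz G b c ≤ 0) (hac : bz G a c ≤ 0) :
    (Nat.sqrt (nn G a b * nn G b c * nn G a c) : ℤ) * (bz G a a * bz G b b * bz G c c) =
      -8 * (bz G a b * bz G b c * bz G a c) := by
  have h1 := nnm hG ha hb
  have h2 := nnm hG hb hc
  have h3 := nnm hG ha hc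
  refine sqrt_mul (tri_isSquare hG ha hb hc) ?_ ?_ ?_
  · exact (mul_pos (mul_pos ha.pos hb.pos) hc.pos).le
  · have h4 : 0 ≤ bz G a b * bz G b c := mul_nonneg_of_nonpos_of_nonpos hab hbc
    have h5 : bz G a b * bz G b c * bz G a c ≤ 0 := mul_nonpos_of_nonneg_of_nonpos h4 hac
    linarith
  · push_cast
    calc (nn G a b : ℤ) * nn G b c * nn G a c * (bz G a a * bz G b b * bz G c c) ^ 2 =
        ((nn G a b : ℤ) * (bz G a a * bz G b b)) * ((nn G b c : ℤ) * (bz G b b * bz G c c)) *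
          ((nn G a c : ℤ) * (bz G a a * bz G c c)) := by ring
      _ = _ := by rw [h1, h2, h3]; ring

/-- `u (a,a)(b,b)(c,c)(d,d) = 16 (a,b)(b,c)(c,d)(d,a)` -/
theorem quad_eq (hG : Lat G) {a b c d : Z4} (ha : IsRoot G a) (hb : IsRoot G b)
    (hc : IsRoot G c) (hd : IsRoot G d) (hab : bz G a b ≤ 0) (hbc : bz G b c ≤ 0)
    (hcd : bz G c d ≤ 0) (hda : bz G d a ≤ 0) :
    (Nat.sqrt (nn G a b * nn G b c * nn G c d * nn G d a) : ℤ) *
      (bz G a a * bz G b b * bz G c c * bz G d d) =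
      16 * (bz G a b * bz G b c * bz G c d * bz G d a) := by
  have h1 := nnm hG ha hb
  have h2 := nnm hG hb hc
  have h3 := nnm hG hc hd
  have h4 := nnm hG hd ha
  refine sqrt_mul (cyc G a b c d hG ha hb hc hd) ?_ ?_ ?_
  · exact (mul_pos (mul_pos (mul_pos ha.pos hb.pos) hc.pos) hd.pos).le
  · have h4 : 0 ≤ bz G a b * bz G b c := mul_nonneg_of_nonpos_of_nonpos hab hbc
    have h5 : bz G a b * bz G b c * bz G c d ≤ 0 := mul_nonpos_of_nonneg_of_nonpos h4 hcd
    have h6 : 0 ≤ bz G a b * bz G b c * bz G c d * bz G d a :=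
      mul_nonneg_of_nonpos_of_nonpos h5 hda
    linarith
  · push_cast
    calc (nn G a b : ℤ) * nn G b c * nn G c d * nn G d a *
          (bz G a a * bz G b b * bz G c c * bz G d d) ^ 2 =
        ((nn G a b : ℤ) * (bz G a a * bz G b b)) * ((nn G b c : ℤ) * (bz G b b * bz G c c)) *
          ((nn G c d : ℤ) * (bz G c c * bz G d d)) * ((nn G d a : ℤ) * (bz G d d * bz G a a)) := by
          ring
      _ = _ := by rw [h1, h2, h3, h4]; ring

theorem posN : PosNStmt := by
  intro G a b c hG hO _h2 h3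
  have ha := hO.root a (by simp)
  have hb := hO.root b (by simp)
  have hc := hO.root c (by simp)
  have hp := hO.obt
  simp only [List.pairwise_cons, List.mem_cons, List.not_mem_nil, or_false, forall_eq_or_imp,
    forall_eq, IsEmpty.forall_iff, implies_true, List.Pairwise.nil, and_true] at hp
  obtain ⟨⟨hab, hac⟩, hbc⟩ := hp
  have e1 := nnm hG ha hb
  have e2 := nnm hG hb hc
  have e3 := nnm hG ha hc
  have e4 := tri_eq hG ha hb hc hab hbc hac
  have hpos : 0 < bz G a a * bz G b b * bz G c c := mul_pos (mul_pos ha.pos hb.pos) hc.pos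
  unfold g3 at h3
  rw [Matrix.det_fin_three] at h3
  simp only [Matrix.of_apply, Matrix.cons_val', Matrix.cons_val_zero, Matrix.cons_val_one,
    Matrix.cons_val_two, Matrix.empty_val', Matrix.cons_val_fin_one, Matrix.head_cons,
    Matrix.tail_cons, Matrix.head_fin_const] at h3
  set t : ℤ := (Nat.sqrt (nn G a b * nn G b c * nn G a c) : ℤ) with ht
  have h4 : 0 < (4 - (nn G a b : ℤ) - nn G b c - nn G a c - t) *
      (bz G a a * bz G b b * bz G c c) := by
    have h5 : (4 - (nn G a b : ℤ) - nn G b c - nn G a c - t) *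
        (bz G a a * bz G b b * bz G c c) = 4 * (bz G a a * bz G b b * bz G c c) -
        ((nn G a b : ℤ) * (bz G a a * bz G b b)) * bz G c c -
        ((nn G b c : ℤ) * (bz G b b * bz G c c)) * bz G a a -
        ((nn G a c : ℤ) * (bz G a a * bz G c c)) * bz G b b -
        t * (bz G a a * bz G b b * bz G c c) := by ring
    rw [h5, e1, e2, e3, e4]
    nlinarith [h3]
  have h5 : 0 < 4 - (nn G a b : ℤ) - nn G b c - nn G a c - t :=
    by
    by_contra hcon
    push Not at hcon
    exact absurd h4 (not_lt.2 (mul_nonpos_of_nonpos_of_nonneg hcon hpos.le))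
  have h6 : ((nn G a b + nn G b c + nn G a c +
      Nat.sqrt (nn G a b * nn G b c * nn G a c) : ℕ) : ℤ) < 4 := by
    push_cast
    rw [← ht]
    linarith
  exact_mod_cast h6

theorem gram_det (G : M4) (v : Fin 4 → Z4) :
    (Matrix.of fun i j => bz G (v i) (v j)).det = (Matrix.of v).det ^ 2 * G.det := by
  have h1 : (Matrix.of fun i j => bz G (v i) (v j)) =
      (Matrix.of v) * G * (Matrix.of v).transpose := by
    ext i j
    simp only [of_apply, mul_apply, transpose_apply, bz, Finset.sum_mul]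
    rw [Finset.sum_comm]
  rw [h1, det_mul, det_mul, det_transpose]
  ring

theorem det4 (M : Matrix (Fin 4) (Fin 4) ℤ) : M.det =
    M 0 0 * (M 1 1 * (M 2 2 * M 3 3 - M 2 3 * M 3 2) - M 1 2 * (M 2 1 * M 3 3 - M 2 3 * M 3 1)
      + M 1 3 * (M 2 1 * M 3 2 - M 2 2 * M 3 1))
    - M 0 1 * (M 1 0 * (M 2 2 * M 3 3 - M 2 3 * M 3 2) - M 1 2 * (M 2 0 * M 3 3 - M 2 3 * M 3 0)
      + M 1 3 * (M 2 0 * M 3 2 - M 2 2 * M 3 0))
    + M 0 2 * (M 1 0 * (M 2 1 * M 3 3 - M 2 3 * M 3 1) - M 1 1 * (M 2 0 * M 3 3 - M 2 3 * M 3 0)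
      + M 1 3 * (M 2 0 * M 3 1 - M 2 1 * M 3 0))
    - M 0 3 * (M 1 0 * (M 2 1 * M 3 2 - M 2 2 * M 3 1) - M 1 1 * (M 2 0 * M 3 2 - M 2 2 * M 3 0)
      + M 1 2 * (M 2 0 * M 3 1 - M 2 1 * M 3 0)) := by
  rw [det_succ_row_zero, Fin.sum_univ_four]
  simp only [det_fin_three, submatrix_apply, Fin.succAbove]
  simp
  ring_nf

theorem negN : NegNStmt := by
  intro G a b c d hG hO hd4
  have ha := hO.root a (by simp)
  have hb := hO.root b (by simp)
  have hc := hO.root c (by simp)
  have hd := hO.root d (by simp)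
  have hp := hO.obt
  simp only [List.pairwise_cons, List.mem_cons, List.not_mem_nil, or_false, forall_eq_or_imp,
    forall_eq, IsEmpty.forall_iff, implies_true, List.Pairwise.nil, and_true] at hp
  obtain ⟨⟨hab, hac, had⟩, ⟨hbc, hbd⟩, hcd⟩ := hp
  have hba : bz G b a ≤ 0 := by rw [hG.zcomm b a]; exact hab
  have hca : bz G c a ≤ 0 := by rw [hG.zcomm c a]; exact hac
  have hda : bz G d a ≤ 0 := by rw [hG.zcomm d a]; exact had
  have hcb : bz G c b ≤ 0 := by rw [hG.zcomm c b]; exact hbc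
  have hdb : bz G d b ≤ 0 := by rw [hG.zcomm d b]; exact hbd
  have hdc : bz G d c ≤ 0 := by rw [hG.zcomm d c]; exact hcd
  intro N t u
  have nab := nnm hG ha hb
  have nac := nnm hG ha hc
  have nad := nnm hG ha hd
  have nbc := nnm hG hb hc
  have nbd := nnm hG hb hd
  have ncd := nnm hG hc hd
  have tabc := tri_eq hG ha hb hc hab hbc hac
  have tabd := tri_eq hG ha hb hd hab hbd had
  have tacd := tri_eq hG ha hc hd hac hcd had
  have tbcd := tri_eq hG hb hc hd hbc hcd hbd
  have u1 := quad_eq hG ha hb hc hd hab hbc hcd hda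
  have u2 := quad_eq hG ha hb hd hc hab hbd hdc hca
  have u3 := quad_eq hG ha hc hb hd hac hcb hbd hda
  have gd := gram_det G ![a, b, c, d]
  have hneg : (Matrix.of ![a, b, c, d]).det ^ 2 * G.det < 0 := by
    have h1 : (0 : ℤ) < (Matrix.of ![a, b, c, d]).det ^ 2 := by
      have : (Matrix.of ![a, b, c, d]).det ≠ 0 := hd4
      positivity
    exact mul_neg_of_pos_of_neg h1 hG.det_neg
  rw [← gd, det4] at hneg
  simp only [Matrix.of_apply, Matrix.cons_val_zero, Matrix.cons_val_one,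
    Matrix.cons_val_two, Matrix.head_cons, Matrix.tail_cons, Matrix.cons_val_three,
    ] at hneg
  rw [hG.zcomm b a, hG.zcomm c a, hG.zcomm d a, hG.zcomm c b, hG.zcomm d b, hG.zcomm d c] at hneg
  rw [hG.zcomm d a] at u1 u3
  rw [hG.zcomm c a, hG.zcomm d c] at u2
  rw [hG.zcomm c b] at u3
  have hpos : 0 < bz G a a * bz G b b * bz G c c * bz G d d :=
    mul_pos (mul_pos (mul_pos ha.pos hb.pos) hc.pos) hd.pos
  set A := bz G a a
  set B := bz G b b
  set C := bz G c c
  set D := bz G d d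
  have key : (16 - 4 * (N a b + N a c + N a d + N b c + N b d + N c d) -
    4 * (t a b c + t a b d + t a c d + t b c d) +
    (N a b * N c d + N a c * N b d + N a d * N b c) -
    2 * (u a b c d + u a b d c + u a c b d)) * (A * B * C * D) < 0 := by
    have e1 : (16 - 4 * (N a b + N a c + N a d + N b c + N b d + N c d) -
        4 * (t a b c + t a b d + t a c d + t b c d) +
        (N a b * N c d + N a c * N b d + N a d * N b c) -
        2 * (u a b c d + u a b d c + u a c b d)) * (A * B * C * D) =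
        16 * (A * B * C * D) - 4 * ((N a b * (A * B)) * (C * D) + (N a c * (A * C)) * (B * D) +
          (N a d * (A * D)) * (B * C) + (N b c * (B * C)) * (A * D) +
          (N b d * (B * D)) * (A * C) + (N c d * (C * D)) * (A * B)) -
        4 * ((t a b c * (A * B * C)) * D + (t a b d * (A * B * D)) * C +
          (t a c d * (A * C * D)) * B + (t b c d * (B * C * D)) * A) +
        ((N a b * (A * B)) * (N c d * (C * D)) + (N a c * (A * C)) * (N b d * (B * D)) +
          (N a d * (A * D)) * (N b c * (B * C))) -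
        2 * (u a b c d * (A * B * C * D) + u a b d c * (A * B * D * C) +
          u a c b d * (A * C * B * D)) := by ring
    rw [e1]
    simp only [N, t, u]
    rw [nab, nac, nad, nbc, nbd, ncd, tabc, tabd, tacd, tbcd, u1, u2, u3]
    nlinarith [hneg]
  by_contra hcon
  push Not at hcon
  exact absurd key (not_lt.2 (mul_nonneg hcon hpos.le))

end Pool.Agent.Refl.H46
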