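import Pool.Agent.Helper23_Refl.StmtC2
import Pool.Agent.Helper46_Refl.Nums

/-!
# DETID: Gram determinant of four roots
-/

set_option autoImplicit false

namespace Pool.Agent.Refl.H46

open Matrix Pool.Agent.Refl

theorem detId : DetIdStmt := by
  intro G e hG hr ho
  have ha := hr 0
  have hb := hr 1
  have hc := hr 2
  have hd := hr 3
  have hab := ho 0 1 (by decide)
  have hac := ho 0 2 (by decide)
  have had := ho 0 3 (by decide)
  have hbc := ho 1 2 (by decide)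
  have hbd := ho 1 3 (by decide)
  have hcd := ho 2 3 (by decide)
  have hca := ho 2 0 (by decide)
  have hda := ho 3 0 (by decide)
  have hcb := ho 2 1 (by decide)
  have hdc := ho 3 2 (by decide)
  have nab := nnm hG ha hb
  have nac := nnm hG ha hc
  have nad := nnm hG ha hd
  have nbc := nnm hG hb hc
  have nbd := nnm hG hb hd
  have ncd := nnm hG hc hd
  have tabc := tri_eq hG ha hb hc hab hbc hac
  have tabd := tri_eq hG ha hb hd hab hbd had
  have tacd := tri_eq hG ha hc hd hac hcd had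
  have tbcd := tri_eq hG hb hc hd hbc hcd hbd
  have u1 := quad_eq hG ha hb hc hd hab hbc hcd hda
  have u2 := quad_eq hG ha hb hd hc hab hbd hdc hca
  have u3 := quad_eq hG ha hc hb hd hac hcb hbd hda
  have gd := gram_det G ![e 0, e 1, e 2, e 3]
  rw [det4] at gd
  simp only [Matrix.of_apply, Matrix.cons_val_zero, Matrix.cons_val_one,
    Matrix.cons_val_two, Matrix.head_cons, Matrix.tail_cons, Matrix.cons_val_three,
    ] at gd
  rw [hG.zcomm (e 1) (e 0), hG.zcomm (e 2) (e 0), hG.zcomm (e 3) (e 0), hG.zcomm (e 2) (e 1),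
    hG.zcomm (e 3) (e 1), hG.zcomm (e 3) (e 2)] at gd
  rw [nn_comm hG hd ha, hG.zcomm (e 3) (e 0)] at u1 u3
  rw [nn_comm hG hc ha, nn_comm hG hd hc, hG.zcomm (e 2) (e 0), hG.zcomm (e 3) (e 2)] at u2
  rw [nn_comm hG hc hb, hG.zcomm (e 2) (e 1)] at u3
  have s1 : nn G (e 0) (e 1) * nn G (e 0) (e 2) * nn G (e 1) (e 2) =
    nn G (e 0) (e 1) * nn G (e 1) (e 2) * nn G (e 0) (e 2) := by ring
  have s2 : nn G (e 0) (e 1) * nn G (e 0) (e 3) * nn G (e 1) (e 3) =
    nn G (e 0) (e 1) * nn G (e 1) (e 3) * nn G (e 0) (e 3) := by ring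
  have s3 : nn G (e 0) (e 2) * nn G (e 0) (e 3) * nn G (e 2) (e 3) =
    nn G (e 0) (e 2) * nn G (e 2) (e 3) * nn G (e 0) (e 3) := by ring
  have s4 : nn G (e 1) (e 2) * nn G (e 1) (e 3) * nn G (e 2) (e 3) =
    nn G (e 1) (e 2) * nn G (e 2) (e 3) * nn G (e 1) (e 3) := by ring
  have s5 : nn G (e 0) (e 1) * nn G (e 1) (e 2) * (nn G (e 2) (e 3) * nn G (e 0) (e 3)) =
    nn G (e 0) (e 1) * nn G (e 1) (e 2) * nn G (e 2) (e 3) * nn G (e 0) (e 3) := by ring
  have s6 : nn G (e 0) (e 1) * nn G (e 1) (e 3) * (nn G (e 2) (e 3) * nn G (e 0) (e 2)) =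
    nn G (e 0) (e 1) * nn G (e 1) (e 3) * nn G (e 2) (e 3) * nn G (e 0) (e 2) := by ring
  have s7 : nn G (e 0) (e 2) * nn G (e 1) (e 2) * (nn G (e 1) (e 3) * nn G (e 0) (e 3)) =
    nn G (e 0) (e 2) * nn G (e 1) (e 2) * nn G (e 1) (e 3) * nn G (e 0) (e 3) := by ring
  have hd4 : G.det * d4 (e 0) (e 1) (e 2) (e 3) ^ 2 =
      (Matrix.of ![e 0, e 1, e 2, e 3]).det ^ 2 * G.det := by
    unfold d4
    ring
  rw [hd4, ← gd]
  unfold dd0
  rw [s1, s2, s3, s4, s5, s6, s7]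
  set A := bz G (e 0) (e 0)
  set B := bz G (e 1) (e 1)
  set C := bz G (e 2) (e 2)
  set D := bz G (e 3) (e 3)
  generalize (nn G (e 0) (e 1)).sqrt = zz at *
  generalize Nat.sqrt (nn G (e 0) (e 1) * nn G (e 1) (e 2) * nn G (e 0) (e 2)) = t012 at *
  generalize Nat.sqrt (nn G (e 0) (e 1) * nn G (e 1) (e 3) * nn G (e 0) (e 3)) = t013 at *
  generalize Nat.sqrt (nn G (e 0) (e 2) * nn G (e 2) (e 3) * nn G (e 0) (e 3)) = t023 at *
  generalize Nat.sqrt (nn G (e 1) (e 2) * nn G (e 2) (e 3) * nn G (e 1) (e 3)) = t123 at *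
  generalize Nat.sqrt (nn G (e 0) (e 1) * nn G (e 1) (e 2) * nn G (e 2) (e 3) *
    nn G (e 0) (e 3)) = u0123 at *
  generalize Nat.sqrt (nn G (e 0) (e 1) * nn G (e 1) (e 3) * nn G (e 2) (e 3) *
    nn G (e 0) (e 2)) = u0132 at *
  generalize Nat.sqrt (nn G (e 0) (e 2) * nn G (e 1) (e 2) * nn G (e 1) (e 3) *
    nn G (e 0) (e 3)) = u0213 at *
  have e1 : A * B * C * D *
      (4 * ((nn G (e 0) (e 1) : ℤ) + nn G (e 0) (e 2) + nn G (e 1) (e 2) + nn G (e 0) (e 3) +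
        nn G (e 1) (e 3) + nn G (e 2) (e 3)) +
      4 * ((t012 : ℤ) + t013 + t023 + t123) + 2 * ((u0123 : ℤ) + u0132 + u0213) - 16 -
      ((nn G (e 0) (e 1) : ℤ) * nn G (e 2) (e 3) + nn G (e 0) (e 2) * nn G (e 1) (e 3) +
        nn G (e 0) (e 3) * nn G (e 1) (e 2))) =
      -(16 * (A * B * C * D)) + 4 * ((nn G (e 0) (e 1) * (A * B)) * (C * D) +
          (nn G (e 0) (e 2) * (A * C)) * (B * D) +
          (nn G (e 0) (e 3) * (A * D)) * (B * C) + (nn G (e 1) (e 2) * (B * C)) * (A * D) +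
          (nn G (e 1) (e 3) * (B * D)) * (A * C) + (nn G (e 2) (e 3) * (C * D)) * (A * B)) +
        4 * ((t012 * (A * B * C)) * D + (t013 * (A * B * D)) * C +
          (t023 * (A * C * D)) * B + (t123 * (B * C * D)) * A) -
        ((nn G (e 0) (e 1) * (A * B)) * (nn G (e 2) (e 3) * (C * D)) +
          (nn G (e 0) (e 2) * (A * C)) * (nn G (e 1) (e 3) * (B * D)) +
          (nn G (e 0) (e 3) * (A * D)) * (nn G (e 1) (e 2) * (B * C))) +
        2 * (u0123 * (A * B * C * D) + u0132 * (A * B * D * C) +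
          u0213 * (A * C * B * D)) := by ring
  rw [e1, nab, nac, nad, nbc, nbd, ncd, tabc, tabd, tacd, tbcd, u1, u2, u3]
  ring

end Pool.Agent.Refl.H46
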