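import Pool.Agent.Helper46_Refl.LeafEnv

/-!
# LEAF
-/

set_option autoImplicit false

namespace Pool.Agent.Refl.H46

open Matrix Pool.Agent.Refl

theorem leaf_ (hTree : TreeStmt) : LeafStmt := by
  intro T G e k0 k1 k2 k3 s t hT hs ht hk0 hk1 hk2 hk3 hb0 hb1 hb2 hb3 c01 c10 c02 c20 c12 c21
    c03 c30 c13 c31 c23 c32 hc tb tn cb cn FR FF st h
  unfold K.leaf at h
  obtain ⟨P01, hP01, h⟩ := fc_ne h
  obtain ⟨P02, hP02, h⟩ := fc_ne h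
  obtain ⟨P03, hP03, h⟩ := fc_ne h
  obtain ⟨P12, hP12, h⟩ := fc_ne h
  obtain ⟨P13, hP13, h⟩ := fc_ne h
  obtain ⟨P23, hP23, h⟩ := fc_ne h
  obtain ⟨r0, hr0, h⟩ := fc_ne h
  obtain ⟨r1, hr1, h⟩ := fc_ne h
  obtain ⟨r2, hr2, h⟩ := fc_ne h
  obtain ⟨r3, hr3, h⟩ := fc_ne h
  obtain ⟨x0, hx0, h⟩ := fc_ne h
  obtain ⟨x1, hx1, h⟩ := fc_ne h
  obtain ⟨x2, hx2, h⟩ := fc_ne h
  obtain ⟨x3, hx3, h⟩ := fc_ne h
  obtain ⟨P, F, a, b, hF, hE⟩ := leaf_env T G e k0 k1 k2 k3 s t hT hs ht hk0 hk1 hk2 hk3 hb0 hb1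
    hb2 hb3 c01 c10 c02 c20 c12 c21 c03 c30 c13 c31 c23 c32 hc P01 P02 P03 P12 P13 P23 r0 r1 r2
    r3 x0 x1 x2 x3 hP01 hP02 hP03 hP12 hP13 hP23 hr0 hr1 hr2 hr3 hx0 hx1 hx2 hx3
  have hG := hT.lat
  have hk' : ∀ i : Fin 4, s * bz G (e (ci i)) (e (ci i)) = t * (![k0, k1, k2, k3] i : ℕ) := by
    intro i
    fin_cases i
    · exact hk0
    · exact hk1
    · exact hk2
    · exact hk3
  have key5 : 1 ≤ T.nd → ∀ (f : ℕ → ℕ → ℕ) (st : ℕ),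
      K.rdw T k0 k1 k2 k3 T.a0 T.a1 T.a2 T.a3 st f ≠ 0 →
      ∃ W s' : ℕ, f W s' ≠ 0 ∧ ∀ c : K.Ctx, c.B = T.B → Der c F W (e 4) := by
    intro hnd f st h
    refine rdw_der (k := ![k0, k1, k2, k3]) (N := ![T.a0, T.a1, T.a2, T.a3])
      (e := fun i => e (ci i)) hT.B2 hT.B3 hG (fun i => hT.root _) (hT.root 4) ?_ ht hs hk' ?_
      hF h
    · intro i
      refine hT.obt (ci i) 4 i.2 ?_ ?_
      · change 4 < 4 + T.nd
        omega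
      · fin_cases i <;> decide
    · intro i
      have h1 := hT.a hnd
      fin_cases i
      · exact h1.1
      · exact h1.2.1
      · exact h1.2.2.1
      · exact h1.2.2.2
  have key6 : 2 ≤ T.nd → ∀ (f : ℕ → ℕ → ℕ) (st : ℕ),
      K.rdw T k0 k1 k2 k3 T.b0 T.b1 T.b2 T.b3 st f ≠ 0 →
      ∃ W s' : ℕ, f W s' ≠ 0 ∧ ∀ c : K.Ctx, c.B = T.B → Der c F W (e 5) := by
    intro hnd f st h
    refine rdw_der (k := ![k0, k1, k2, k3]) (N := ![T.b0, T.b1, T.b2, T.b3])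
      (e := fun i => e (ci i)) hT.B2 hT.B3 hG (fun i => hT.root _) (hT.root 5) ?_ ht hs hk' ?_
      hF h
    · intro i
      refine hT.obt (ci i) 5 i.2 ?_ ?_
      · change 5 < 4 + T.nd
        omega
      · fin_cases i <;> decide
    · intro i
      have h1 := hT.b hnd
      fin_cases i
      · exact h1.1
      · exact h1.2.1
      · exact h1.2.2.1
      · exact h1.2.2.2
  have fin : ∀ (w5 w6 st : ℕ),
      (if 1 ≤ T.nd then ∀ c : K.Ctx, c.B = T.B → Der c F w5 (e 4) else w5 = 0) →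
      (if 2 ≤ T.nd then ∀ c : K.Ctx, c.B = T.B → Der c F w6 (e 5) else w6 = 0) →
      K.tree (K.Ctx.mk T.Q T.B T.B2 T.B3 T.Om x0 x1 x2 x3 r0 r1 r2 r3 w5 w6) tb tn cb cn
        (FR T (K.Ctx.mk T.Q T.B T.B2 T.B3 T.Om x0 x1 x2 x3 r0 r1 r2 r3 w5 w6) k0 k1 k2 k3)
        (FF T (K.Ctx.mk T.Q T.B T.B2 T.B3 T.Om x0 x1 x2 x3 r0 r1 r2 r3 w5 w6) k0 k1 k2 k3) 200
        x0 x1 x2 x3 T.D0 1 List.nil st ≠ 0 →
      ∃ (C : K.Ctx) (P F : M4) (a b : ℤ), Env C T.D0 P F G a b T.nd e ∧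
        Out C F G tb tn cb cn (FR T C k0 k1 k2 k3) (FF T C k0 k1 k2 k3) := by
    intro w5 w6 st h5 h6 htree
    obtain ⟨h1, h2⟩ := hE w5 w6 h5 h6
    exact ⟨_, P, F, a, b, h1, hTree _ _ _ _ _ _ _ _ _ _ _ _ _ _ _ _ _ _ _ _ _ _ _ _ h1 h2
      htree⟩
  rcases hnd : T.nd with _ | n
  · rw [hnd] at h
    rw [← hnd]
    refine fin 0 0 st ?_ ?_ h
    · rw [if_neg (by omega)]
    · rw [if_neg (by omega)]
  · rw [hnd] at h
    rw [← hnd]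
    obtain ⟨w5, s5, h, hw5⟩ := key5 (by omega) _ _ h
    rcases n with _ | n
    · refine fin w5 0 s5 ?_ ?_ h
      · rw [if_pos (by omega)]
        exact hw5
      · rw [if_neg (by omega)]
    · obtain ⟨w6, s6, h, hw6⟩ := key6 (by omega) _ _ h
      refine fin w5 w6 s6 ?_ ?_ h
      · rw [if_pos (by omega)]
        exact hw5
      · rw [if_pos (by omega)]
        exact hw6

end Pool.Agent.Refl.H46
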