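import Pool.Agent.Helper46_Refl.Leaves

/-!
# LEAVES: all the norms
-/

set_option autoImplicit false

namespace Pool.Agent.Refl.H46

open Matrix Pool.Agent.Refl

theorem tri_true {M g k : ℕ} : K.tri M g k = true ↔ Nat.gcd (Nat.gcd g k) M = 1 := beq_true

theorem once_true {p k : ℕ} (h : K.once p k = true) : p ∣ k ∧ ¬ p ^ 2 ∣ k := by
  unfold K.once at h
  rw [ands_true, beq_true, notb_beq] at h
  obtain ⟨h1, h2⟩ := h
  have h1' : p ∣ k := Nat.dvd_of_mod_eq_zero h1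
  refine ⟨h1', ?_⟩
  rintro ⟨m, hm⟩
  apply h2
  change k / p % p = 0
  rcases Nat.eq_zero_or_pos p with hp | hp
  · rw [hp] at h1' hm
    subst hp
    have : k = 0 := by simpa using hm
    rw [this]
  · have h3 : k / p = p * m := by
      rw [hm, pow_two, Nat.mul_assoc]
      exact Nat.mul_div_cancel_left _ hp
    rw [h3]
    exact Nat.mul_mod_right _ _

theorem unit3_true {p D0 k0 k1 k2 k3 : ℕ} (hP : PrimeStmt)
    (h : K.unit3 p D0 k0 k1 k2 k3 = true) : p.Prime ∧ 7 < p ∧ ¬ p ∣ D0 ∧ ¬ p ∣ k0 ∧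
      (p ∣ k1 ∧ ¬ p ^ 2 ∣ k1) ∧ (p ∣ k2 ∧ ¬ p ^ 2 ∣ k2) ∧ (p ∣ k3 ∧ ¬ p ^ 2 ∣ k3) := by
  unfold K.unit3 at h
  simp only [ands_true, ble_true, notb_beq] at h
  obtain ⟨⟨h1, h2, h3⟩, h4, h5, h6, h7⟩ := h
  refine ⟨(hP p h2).1, by omega, ?_, ?_, once_true h5, once_true h6, once_true h7⟩
  · intro h8
    exact h3 (Nat.mod_eq_zero_of_dvd h8)
  · intro h8
    exact h4 (Nat.mod_eq_zero_of_dvd h8)

theorem leaf0_ne (hLeaf : LeafStmt) (hLoc : LocStmt) (hP : PrimeStmt) {T : K.TCtx} {G : M4}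
    {e : Fin 6 → Z4} (hT : TOK T G e) {c : Fin 4 → Fin 4 → ℕ}
    (hc : ∀ i j : Fin 4, i ≠ j → (c i j : ℤ) * bz G (e (ci i)) (e (ci i)) =
      -(2 * bz G (e (ci i)) (e (ci j))))
    {tb tn cb cn : ℕ} {FR FF : K.FH} {q2 q3 A1 A2 A3 : ℕ} {k' : Fin 4 → ℕ} {st : ℕ}
    (hA1 : A1 = c 0 1) (hA1p : 0 < c 0 1)
    (hA20 : q2 = 0 → A2 = c 0 2 ∧ 0 < c 0 2) (hA21 : q2 = 1 → A2 = c 1 2 ∧ 0 < c 1 2)
    (hA30 : q3 = 0 → A3 = c 0 3 ∧ 0 < c 0 3) (hA31 : q3 = 1 → A3 = c 1 3 ∧ 0 < c 1 3)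
    (hA32 : q3 = 2 → A3 = c 2 3 ∧ 0 < c 2 3)
    (hkp : ∀ i, 0 < k' i)
    (hk' : ∀ i, bz G (e (ci 0)) (e (ci 0)) * k' i = bz G (e (ci i)) (e (ci i)) * k' 0)
    (h : K.leaf0 T tb tn cb cn FR FF q2 q3 A1 A2 A3 (k' 0) (k' 1) (k' 2) (k' 3) st ≠ 0) :
    ∃ (C : K.Ctx) (P F : M4) (a b : ℤ) (k0 k1 k2 k3 : ℕ), Env C T.D0 P F G a b T.nd e ∧
      Out C F G tb tn cb cn (FR T C k0 k1 k2 k3) (FF T C k0 k1 k2 k3) := by
  have hG := hT.lat
  unfold K.leaf0 at h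
  obtain ⟨g, hg, h⟩ := fc_ne h
  obtain ⟨k0, hk0, h⟩ := fc_ne h
  obtain ⟨k1, hk1, h⟩ := fc_ne h
  obtain ⟨k2, hk2, h⟩ := fc_ne h
  obtain ⟨k3, hk3, h⟩ := fc_ne h
  have hg' : g = Nat.gcd (Nat.gcd (k' 0) (k' 1)) (Nat.gcd (k' 2) (k' 3)) := hg
  have hgp : 0 < g := by
    rw [hg']
    exact Nat.gcd_pos_of_pos_left _ (Nat.gcd_pos_of_pos_left _ (hkp 0))
  have hgd : ∀ i, g ∣ k' i := by
    intro i
    rw [hg']
    fin_cases i
    · exact (Nat.gcd_dvd_left _ _).trans (Nat.gcd_dvd_left _ _)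
    · exact (Nat.gcd_dvd_left _ _).trans (Nat.gcd_dvd_right _ _)
    · exact (Nat.gcd_dvd_right _ _).trans (Nat.gcd_dvd_left _ _)
    · exact (Nat.gcd_dvd_right _ _).trans (Nat.gcd_dvd_right _ _)
  set k : Fin 4 → ℕ := ![k0, k1, k2, k3] with hk
  have hkk : ∀ i, k' i = g * k i := by
    intro i
    have h1 : k i = k' i / g := by
      fin_cases i
      · exact hk0
      · exact hk1
      · exact hk2
      · exact hk3
    rw [h1, Nat.mul_div_cancel' (hgd i)]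
  have hkpos : ∀ i, 0 < k i := by
    intro i
    have := hkp i
    rw [hkk i] at this
    exact Nat.pos_of_mul_pos_left this
  have hK : ∀ i, 0 < bz G (e (ci i)) (e (ci i)) := fun i => (hT.root (ci i)).pos
  -- scaling
  have hsc : ∀ i : Fin 4, (k 0 : ℤ) * bz G (e (ci i)) (e (ci i)) =
      bz G (e (ci 0)) (e (ci 0)) * k i := by
    intro i
    have h1 := hk' i
    rw [hkk i, hkk 0] at h1
    push_cast at h1
    have h2 : (g : ℤ) ≠ 0 := by exact_mod_cast hgp.ne'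
    refine mul_left_cancel₀ h2 ?_
    linarith
  have hs : (0 : ℤ) < k 0 := by exact_mod_cast hkpos 0
  have hgcd : Nat.gcd (Nat.gcd (k 0) (k 1)) (Nat.gcd (k 2) (k 3)) = 1 := by
    have h1 : g = g * Nat.gcd (Nat.gcd (k 0) (k 1)) (Nat.gcd (k 2) (k 3)) := by
      conv_lhs => rw [hg', hkk 0, hkk 1, hkk 2, hkk 3]
      rw [Nat.gcd_mul_left, Nat.gcd_mul_left, Nat.gcd_mul_left]
    exact (Nat.eq_of_mul_eq_mul_left hgp (by rw [Nat.mul_one]; exact h1)).symm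
  obtain ⟨L1, L2, L3⟩ := hLoc T G e k (k 0) (bz G (e (ci 0)) (e (ci 0))) hT hs (hK 0) hsc hgcd
  -- the filters
  have htri : ∀ i j l : Fin 4, i ≠ j → j ≠ l → i ≠ l →
      Nat.gcd (Nat.gcd (Nat.gcd (k i) (k j)) (k l)) T.M0 = 1 := by
    intro i j l hij hjl hil
    by_contra hne
    obtain ⟨p, hp, hd⟩ := Nat.exists_prime_and_dvd hne
    have h1 : p ∣ T.M0 := hd.trans (Nat.gcd_dvd_right _ _)
    have h2 := hd.trans (Nat.gcd_dvd_left _ _)
    have h3 : p ∣ k l := h2.trans (Nat.gcd_dvd_right _ _)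
    have h4 := h2.trans (Nat.gcd_dvd_left _ _)
    obtain ⟨h5, h6⟩ := hT.M0.2 p hp h1
    exact L2 p hp h5 h6 i j l hij hjl hil
      ⟨h4.trans (Nat.gcd_dvd_left _ _), h4.trans (Nat.gcd_dvd_right _ _), h3⟩
  have hfil : K.ands (K.ands (K.ands (K.okk k0) (K.okk k1)) (K.ands (K.okk k2) (K.okk k3)))
      (K.ands (K.ands (K.ands (K.notb (Nat.beq (Nat.mod k0 T.M4) 0))
        (K.notb (Nat.beq (Nat.mod k1 T.M4) 0)))
        (K.ands (K.notb (Nat.beq (Nat.mod k2 T.M4) 0)) (K.notb (Nat.beq (Nat.mod k3 T.M4) 0))))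
      (K.fc (Nat.gcd k0 k1) fun g => K.ands (K.ands (K.tri T.M0 g k2) (K.tri T.M0 g k3))
        (K.fc (Nat.gcd k2 k3) fun g => K.ands (K.tri T.M0 g k0) (K.tri T.M0 g k1)))) = true := by
    rw [fc_eq, fc_eq]
    simp only [ands_true, notb_beq, tri_true]
    refine ⟨⟨⟨(L1 0).1, (L1 1).1⟩, (L1 2).1, (L1 3).1⟩, ⟨⟨?_, ?_⟩, ?_, ?_⟩, ⟨?_, ?_⟩, ?_, ?_⟩
    · exact fun h1 => (L1 0).2 (Nat.dvd_of_mod_eq_zero h1)
    · exact fun h1 => (L1 1).2 (Nat.dvd_of_mod_eq_zero h1)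
    · exact fun h1 => (L1 2).2 (Nat.dvd_of_mod_eq_zero h1)
    · exact fun h1 => (L1 3).2 (Nat.dvd_of_mod_eq_zero h1)
    · exact htri 0 1 2 (by decide) (by decide) (by decide)
    · exact htri 0 1 3 (by decide) (by decide) (by decide)
    · exact htri 2 3 0 (by decide) (by decide) (by decide)
    · exact htri 2 3 1 (by decide) (by decide) (by decide)
  rw [hfil] at h
  -- the coefficients
  have hNc : ∀ i j, i ≠ j → nn G (e (ci i)) (e (ci j)) = c i j * c j i := fun i j hij =>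
    nn_c hG (hT.root _) (hT.root _) (hc i j hij) (hc j i hij.symm)
  have hc0 : ∀ i j, i ≠ j → c i j * c j i = 0 → c i j = 0 ∧ c j i = 0 := by
    intro i j hij h0
    have h1 := c_le hG (hT.root _) (hT.root _) (hc i j hij) (hc j i hij.symm)
    have h2 := c_le hG (hT.root _) (hT.root _) (hc j i hij.symm) (hc i j hij)
    rw [hNc i j hij] at h1
    rw [hNc j i hij.symm] at h2
    rw [h0] at h1
    rw [Nat.mul_comm, h0] at h2
    exact ⟨Nat.le_zero.1 h1, Nat.le_zero.1 h2⟩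
  have hck : ∀ i j, i ≠ j → c i j * k i = c j i * k j := by
    intro i j hij
    have h1 := hc i j hij
    have h2 := hc j i hij.symm
    rw [hG.zcomm (e (ci j)) (e (ci i))] at h2
    have h3 : (c i j : ℤ) * bz G (e (ci i)) (e (ci i)) =
        c j i * bz G (e (ci j)) (e (ci j)) := by rw [h1, h2]
    have h4 := hsc i
    have h5 := hsc j
    have h6 : bz G (e (ci 0)) (e (ci 0)) * ((c i j : ℤ) * k i) =
        bz G (e (ci 0)) (e (ci 0)) * ((c j i : ℤ) * k j) := by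
      calc bz G (e (ci 0)) (e (ci 0)) * ((c i j : ℤ) * k i) =
          c i j * (bz G (e (ci 0)) (e (ci 0)) * k i) := by ring
        _ = k 0 * (c i j * bz G (e (ci i)) (e (ci i))) := by rw [← h4]; ring
        _ = k 0 * (c j i * bz G (e (ci j)) (e (ci j))) := by rw [h3]
        _ = c j i * (k 0 * bz G (e (ci j)) (e (ci j))) := by ring
        _ = _ := by rw [h5]; ring
    have h7 := mul_left_cancel₀ (hK 0).ne' h6
    exact_mod_cast h7
  have n02 : T.N02 = c 0 2 * c 2 0 := hT.n02.trans (hNc 0 2 (by decide))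
  have n12 : T.N12 = c 1 2 * c 2 1 := hT.n12.trans (hNc 1 2 (by decide))
  have n03 : T.N03 = c 0 3 * c 3 0 := hT.n03.trans (hNc 0 3 (by decide))
  have n13 : T.N13 = c 1 3 * c 3 1 := hT.n13.trans (hNc 1 3 (by decide))
  have n23 : T.N23 = c 2 3 * c 3 2 := hT.n23.trans (hNc 2 3 (by decide))
  have n01 : T.N01 = c 0 1 * c 1 0 := hT.n01.trans (hNc 0 1 (by decide))
  have h02 := oth_ne n02 (fun h0 => hc0 0 2 (by decide) (n02 ▸ h0)) (hck 0 2 (by decide))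
    (hkpos 0) (fun h0 => hA20 (eqf_ne h0)) h
  have h12 := oth_ne n12 (fun h0 => hc0 1 2 (by decide) (n12 ▸ h0)) (hck 1 2 (by decide))
    (hkpos 1) (fun h0 => hA21 (eqf_ne h0)) h02
  have h03 := oth_ne n03 (fun h0 => hc0 0 3 (by decide) (n03 ▸ h0)) (hck 0 3 (by decide))
    (hkpos 0) (fun h0 => hA30 (eqf_ne h0)) h12
  have h13 := oth_ne n13 (fun h0 => hc0 1 3 (by decide) (n13 ▸ h0)) (hck 1 3 (by decide))
    (hkpos 1) (fun h0 => hA31 (eqf_ne h0)) h03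
  have h23 := oth_ne n23 (fun h0 => hc0 2 3 (by decide) (n23 ▸ h0)) (hck 2 3 (by decide))
    (hkpos 2) (fun h0 => hA32 (eqf_ne h0)) h13
  obtain ⟨hbd, hmain⟩ := rec0_ne h23
  simp only [ands_true, blt_true] at hbd
  obtain ⟨⟨hb0, hb1⟩, hb2, hb3⟩ := hbd
  rcases hm : Nat.mod st 2 with _ | m
  · rw [hm] at hmain
    have hdiv : Nat.div T.N01 A1 = c 1 0 := by
      rw [hA1, n01]
      exact Nat.mul_div_cancel_left _ hA1p
    rw [hdiv, hA1] at hmain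
    have hc' : ∀ i j : Fin 4, i ≠ j → ((![![0, c 0 1, c 0 2, c 0 3], ![c 1 0, 0, c 1 2, c 1 3],
        ![c 2 0, c 2 1, 0, c 2 3], ![c 3 0, c 3 1, c 3 2, 0]] i j : ℕ) : ℤ) *
        bz G (e (ci i)) (e (ci i)) = -(2 * bz G (e (ci i)) (e (ci j))) := by
      intro i j hij
      have h1 := hc i j hij
      fin_cases i <;> fin_cases j <;> first | exact absurd rfl hij | exact h1
    obtain ⟨C, P, F, a, b, hE, hO⟩ := hLeaf T G e k0 k1 k2 k3 (k 0)
      (bz G (e (ci 0)) (e (ci 0))) hT hs (hK 0) (hsc 0) (hsc 1) (hsc 2) (hsc 3) hb0 hb1 hb2 hb3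
      _ _ _ _ _ _ _ _ _ _ _ _ hc' tb tn cb cn FR FF _ hmain
    exact ⟨C, P, F, a, b, k0, k1, k2, k3, hE, hO⟩
  · exfalso
    rw [hm] at hmain
    obtain ⟨p, hp, hmain⟩ := fc_ne hmain
    have hu := okb_ne hmain
    have hL : ∀ i : Fin 4, p.Prime → 7 < p → ¬ p ∣ T.D0 → ¬ p ∣ k i →
        (∀ j, j ≠ i → p ∣ k j ∧ ¬ p ^ 2 ∣ k j) → False := fun i h1 h2 h3 h4 h5 =>
      L3 p h1 h2 h3 i ⟨h4, h5⟩
    rcases hi : Nat.mod (Nat.div st 8192) 4 with _ | _ | _ | n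
    · rw [hi] at hu
      obtain ⟨a1, a2, a3, a4, a5, a6, a7⟩ := unit3_true hP hu
      refine hL 0 a1 a2 a3 a4 ?_
      intro j hj
      fin_cases j
      · exact absurd rfl hj
      · exact a5
      · exact a6
      · exact a7
    · rw [hi] at hu
      obtain ⟨a1, a2, a3, a4, a5, a6, a7⟩ := unit3_true hP hu
      refine hL 1 a1 a2 a3 a4 ?_
      intro j hj
      fin_cases j
      · exact a5
      · exact absurd rfl hj
      · exact a6
      · exact a7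
    · rw [hi] at hu
      obtain ⟨a1, a2, a3, a4, a5, a6, a7⟩ := unit3_true hP hu
      refine hL 2 a1 a2 a3 a4 ?_
      intro j hj
      fin_cases j
      · exact a5
      · exact a6
      · exact absurd rfl hj
      · exact a7
    · rw [hi] at hu
      obtain ⟨a1, a2, a3, a4, a5, a6, a7⟩ := unit3_true hP hu
      refine hL 3 a1 a2 a3 a4 ?_
      intro j hj
      fin_cases j
      · exact a5
      · exact a6
      · exact a7
      · exact absurd rfl hj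

theorem leaves3 (hLeaf : LeafStmt) (hLoc : LocStmt) (hP : PrimeStmt) {T : K.TCtx} {G : M4}
    {e : Fin 6 → Z4} (hT : TOK T G e) {c : Fin 4 → Fin 4 → ℕ}
    (hc : ∀ i j : Fin 4, i ≠ j → (c i j : ℤ) * bz G (e (ci i)) (e (ci i)) =
      -(2 * bz G (e (ci i)) (e (ci j))))
    {tb tn cb cn : ℕ} {FR FF : K.FH} {q2 q3 A2 k0 k1 k2 st : ℕ}
    (hA1p : 0 < c 0 1)
    (hA20 : q2 = 0 → A2 = c 0 2 ∧ 0 < c 0 2) (hA21 : q2 = 1 → A2 = c 1 2 ∧ 0 < c 1 2)
    (h3 : 1 ≤ K.sel q3 T.N03 T.N13 T.N23 0)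
    (p0 : 0 < k0) (p1 : 0 < k1) (p2 : 0 < k2)
    (hk1 : bz G (e (ci 0)) (e (ci 0)) * k1 = bz G (e (ci 1)) (e (ci 1)) * k0)
    (hk2 : bz G (e (ci 0)) (e (ci 0)) * k2 = bz G (e (ci 2)) (e (ci 2)) * k0)
    (h : K.forL (fun A3 => K.fc (Nat.div (K.sel q3 T.N03 T.N13 T.N23 0) A3) fun B3 s =>
        K.fc (Nat.mul k0 B3) fun k0' => K.fc (Nat.mul k1 B3) fun k1' =>
        K.fc (Nat.mul k2 B3) fun k2' => K.fc (Nat.mul (K.sel q3 k0 k1 k2 0) A3) fun k3' =>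
        K.leaf0 T tb tn cb cn FR FF q2 q3 (c 0 1) A2 A3 k0' k1' k2' k3' s)
        (K.divs (K.sel q3 T.N03 T.N13 T.N23 0)) st ≠ 0) :
    ∃ (C : K.Ctx) (P F : M4) (a b : ℤ) (k0 k1 k2 k3 : ℕ), Env C T.D0 P F G a b T.nd e ∧
      Out C F G tb tn cb cn (FR T C k0 k1 k2 k3) (FF T C k0 k1 k2 k3) := by
  have hG := hT.lat
  have hNc : ∀ i j, i ≠ j → nn G (e (ci i)) (e (ci j)) = c i j * c j i := fun i j hij =>
    nn_c hG (hT.root _) (hT.root _) (hc i j hij) (hc j i hij.symm)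
  have n03 : T.N03 = c 0 3 * c 3 0 := hT.n03.trans (hNc 0 3 (by decide))
  have n13 : T.N13 = c 1 3 * c 3 1 := hT.n13.trans (hNc 1 3 (by decide))
  have n23 : T.N23 = c 2 3 * c 3 2 := hT.n23.trans (hNc 2 3 (by decide))
  -- the index `b`
  obtain ⟨b, hb3, hsel, hq0, hq1, hq2, hsk⟩ : ∃ b : Fin 4, b ≠ 3 ∧
      K.sel q3 T.N03 T.N13 T.N23 0 = c b 3 * c 3 b ∧ (q3 = 0 → b = 0) ∧ (q3 = 1 → b = 1) ∧
      (q3 = 2 → b = 2) ∧ K.sel q3 k0 k1 k2 0 = ![k0, k1, k2, 0] b := by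
    rcases q3 with _ | _ | _ | q
    · exact ⟨0, by decide, n03, fun _ => rfl, fun h => absurd h (by omega),
        fun h => absurd h (by omega), rfl⟩
    · exact ⟨1, by decide, n13, fun h => absurd h (by omega), fun _ => rfl,
        fun h => absurd h (by omega), rfl⟩
    · exact ⟨2, by decide, n23, fun h => absurd h (by omega), fun h => absurd h (by omega),
        fun _ => rfl, rfl⟩
    · exfalso
      change 1 ≤ 0 at h3
      omega
  rw [hsel] at h3 h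
  have pb : 0 < c b 3 := Nat.pos_of_ne_zero fun h0 => by rw [h0, Nat.zero_mul] at h3; omega
  have pb' : 0 < c 3 b := Nat.pos_of_ne_zero fun h0 => by rw [h0, Nat.mul_zero] at h3; omega
  obtain ⟨s1, h⟩ := forL_ne h (c b 3) (mem_divs rfl pb pb')
  obtain ⟨B3, hB3, h⟩ := fc_ne' h
  obtain ⟨k0', hk0', h⟩ := fc_ne h
  obtain ⟨k1', hk1', h⟩ := fc_ne h
  obtain ⟨k2', hk2', h⟩ := fc_ne h
  obtain ⟨k3', hk3', h⟩ := fc_ne h
  have hB3' : B3 = c 3 b := by
    rw [hB3]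
    exact Nat.mul_div_cancel_left _ pb
  have e0 : k0' = k0 * c 3 b := by rw [hk0', hB3']; rfl
  have e1 : k1' = k1 * c 3 b := by rw [hk1', hB3']; rfl
  have e2 : k2' = k2 * c 3 b := by rw [hk2', hB3']; rfl
  have e3 : k3' = ![k0, k1, k2, 0] b * c b 3 := by rw [hk3', hsk]; rfl
  have hkb : bz G (e (ci 0)) (e (ci 0)) * (![k0, k1, k2, 0] b : ℕ) =
      bz G (e (ci b)) (e (ci b)) * k0 := by
    fin_cases b
    · rfl
    · exact hk1
    · exact hk2
    · exact absurd rfl hb3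
  have hpb : 0 < ![k0, k1, k2, 0] b := by
    fin_cases b
    · exact p0
    · exact p1
    · exact p2
    · exact absurd rfl hb3
  have hcb : (c b 3 : ℤ) * bz G (e (ci b)) (e (ci b)) =
      c 3 b * bz G (e (ci 3)) (e (ci 3)) := by
    rw [hc b 3 hb3, hc 3 b hb3.symm, hG.zcomm (e (ci 3)) (e (ci b))]
  refine leaf0_ne hLeaf hLoc hP hT hc (k' := ![k0', k1', k2', k3']) rfl hA1p hA20 hA21
    (fun hq => ?_) (fun hq => ?_) (fun hq => ?_) ?_ ?_ h
  · have := hq0 hq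
    subst this
    exact ⟨rfl, pb⟩
  · have := hq1 hq
    subst this
    exact ⟨rfl, pb⟩
  · have := hq2 hq
    subst this
    exact ⟨rfl, pb⟩
  · intro i
    fin_cases i
    · change 0 < k0'
      rw [e0]
      positivity
    · change 0 < k1'
      rw [e1]
      positivity
    · change 0 < k2'
      rw [e2]
      positivity
    · change 0 < k3'
      rw [e3]
      positivity
  · intro i
    fin_cases i
    · rfl
    · change bz G (e (ci 0)) (e (ci 0)) * (k1' : ℤ) = bz G (e (ci 1)) (e (ci 1)) * (k0' : ℤ)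
      rw [e1, e0]
      push_cast
      rw [← mul_assoc, ← mul_assoc, hk1]
    · change bz G (e (ci 0)) (e (ci 0)) * (k2' : ℤ) = bz G (e (ci 2)) (e (ci 2)) * (k0' : ℤ)
      rw [e2, e0]
      push_cast
      rw [← mul_assoc, ← mul_assoc, hk2]
    · change bz G (e (ci 0)) (e (ci 0)) * (k3' : ℤ) = bz G (e (ci 3)) (e (ci 3)) * (k0' : ℤ)
      rw [e3, e0, Nat.cast_mul, Nat.cast_mul, ← mul_assoc, hkb]
      calc bz G (e (ci b)) (e (ci b)) * (k0 : ℤ) * (c b 3 : ℤ) =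
          ((c b 3 : ℤ) * bz G (e (ci b)) (e (ci b))) * k0 := by ring
        _ = _ := by rw [hcb]; ring

theorem leaves_ (hLeaf : LeafStmt) (hLoc : LocStmt) (hP : PrimeStmt) : LeavesStmt := by
  intro T G e tb tn cb cn q2 q3 st FR FF hT h01 h2 h3 h
  have hG := hT.lat
  have hcex : ∀ i j : Fin 4, ∃ n : ℕ, i ≠ j →
      (n : ℤ) * bz G (e (ci i)) (e (ci i)) = -(2 * bz G (e (ci i)) (e (ci j))) := by
    intro i j
    by_cases hij : i = j
    · exact ⟨0, fun h => absurd hij h⟩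
    · obtain ⟨z, hz⟩ := (hT.root (ci i)).dvd (e (ci j))
      have h1 : bz G (e (ci i)) (e (ci j)) ≤ 0 := by
        refine hT.obt (ci i) (ci j) i.2 (lt_of_lt_of_le j.2 (Nat.le_add_right 4 _)) ?_
        intro h
        exact hij (Fin.castLE_injective (by norm_num) h)
      rw [hG.zcomm (e (ci j)) (e (ci i))] at hz
      have h2 : z ≤ 0 := by
        by_contra hcon
        push Not at hcon
        have := mul_pos (hT.root (ci i)).pos hcon
        linarith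
      refine ⟨(-z).toNat, fun _ => ?_⟩
      rw [Int.toNat_of_nonneg (by linarith), hz]
      ring
  choose c hc using hcex
  have hNc : ∀ i j, i ≠ j → nn G (e (ci i)) (e (ci j)) = c i j * c j i := fun i j hij =>
    nn_c hG (hT.root _) (hT.root _) (hc i j hij) (hc j i hij.symm)
  have n01 : T.N01 = c 0 1 * c 1 0 := hT.n01.trans (hNc 0 1 (by decide))
  have n02 : T.N02 = c 0 2 * c 2 0 := hT.n02.trans (hNc 0 2 (by decide))
  have n12 : T.N12 = c 1 2 * c 2 1 := hT.n12.trans (hNc 1 2 (by decide))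
  have hcc : ∀ i j, i ≠ j → (c i j : ℤ) * bz G (e (ci i)) (e (ci i)) =
      c j i * bz G (e (ci j)) (e (ci j)) := by
    intro i j hij
    rw [hc i j hij, hc j i hij.symm, hG.zcomm (e (ci j)) (e (ci i))]
  have hpos : ∀ {N x y : ℕ}, N = x * y → 1 ≤ N → 0 < x ∧ 0 < y := by
    intro N x y h1 h2
    rw [h1] at h2
    exact ⟨Nat.pos_of_ne_zero fun h0 => by rw [h0, Nat.zero_mul] at h2; omega,
      Nat.pos_of_ne_zero fun h0 => by rw [h0, Nat.mul_zero] at h2; omega⟩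
  obtain ⟨p01, p10⟩ := hpos n01 h01
  unfold K.leaves at h
  obtain ⟨s1, h⟩ := forL_ne h (c 0 1) (mem_divs n01 p01 p10)
  obtain ⟨B1, hB1, h⟩ := fc_ne' h
  have hB1' : B1 = c 1 0 := by
    rw [hB1, n01]
    exact Nat.mul_div_cancel_left _ p01
  have h10 := hcc 0 1 (by decide)
  rcases q2 with _ | _ | q
  · obtain ⟨p, p'⟩ := hpos n02 h2
    obtain ⟨s2, h⟩ := forL_ne h (c 0 2) (mem_divs n02 p p')
    obtain ⟨B2, hB2, h⟩ := fc_ne' h
    obtain ⟨k0, hk0, h⟩ := fc_ne' h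
    obtain ⟨k1, hk1, h⟩ := fc_ne' h
    obtain ⟨k2, hk2, h⟩ := fc_ne' h
    have hB2' : B2 = c 2 0 := by
      rw [hB2]
      change T.N02 / c 0 2 = _
      rw [n02]
      exact Nat.mul_div_cancel_left _ p
    have e0 : k0 = c 1 0 * c 2 0 := by rw [hk0, hB1', hB2']; rfl
    have e1 : k1 = c 0 1 * c 2 0 := by rw [hk1, hB2']; rfl
    have e2 : k2 = c 1 0 * c 0 2 := by rw [hk2, hB1']; rfl
    have h20 := hcc 0 2 (by decide)
    refine leaves3 hLeaf hLoc hP hT hc p01 (fun _ => ⟨rfl, p⟩) (fun h => absurd h (by omega)) h3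
      ?_ ?_ ?_ ?_ ?_ h
    · rw [e0]; positivity
    · rw [e1]; positivity
    · rw [e2]; positivity
    · rw [e0, e1]
      push_cast
      calc bz G (e (ci 0)) (e (ci 0)) * ((c 0 1 : ℤ) * c 2 0) =
          ((c 0 1 : ℤ) * bz G (e (ci 0)) (e (ci 0))) * c 2 0 := by ring
        _ = _ := by rw [h10]; ring
    · rw [e0, e2]
      push_cast
      calc bz G (e (ci 0)) (e (ci 0)) * ((c 1 0 : ℤ) * c 0 2) =
          ((c 0 2 : ℤ) * bz G (e (ci 0)) (e (ci 0))) * c 1 0 := by ring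
        _ = _ := by rw [h20]; ring
  · obtain ⟨p, p'⟩ := hpos n12 h2
    obtain ⟨s2, h⟩ := forL_ne h (c 1 2) (mem_divs n12 p p')
    obtain ⟨B2, hB2, h⟩ := fc_ne' h
    obtain ⟨k0, hk0, h⟩ := fc_ne' h
    obtain ⟨k1, hk1, h⟩ := fc_ne' h
    obtain ⟨k2, hk2, h⟩ := fc_ne' h
    have hB2' : B2 = c 2 1 := by
      rw [hB2]
      change T.N12 / c 1 2 = _
      rw [n12]
      exact Nat.mul_div_cancel_left _ p
    have e0 : k0 = c 1 0 * c 2 1 := by rw [hk0, hB1', hB2']; rfl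
    have e1 : k1 = c 0 1 * c 2 1 := by rw [hk1, hB2']; rfl
    have e2 : k2 = c 0 1 * c 1 2 := by rw [hk2]; rfl
    have h21 := hcc 1 2 (by decide)
    refine leaves3 hLeaf hLoc hP hT hc p01 (fun h => absurd h (by omega)) (fun _ => ⟨rfl, p⟩) h3
      ?_ ?_ ?_ ?_ ?_ h
    · rw [e0]; positivity
    · rw [e1]; positivity
    · rw [e2]; positivity
    · rw [e0, e1]
      push_cast
      calc bz G (e (ci 0)) (e (ci 0)) * ((c 0 1 : ℤ) * c 2 1) =
          ((c 0 1 : ℤ) * bz G (e (ci 0)) (e (ci 0))) * c 2 1 := by ring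
        _ = _ := by rw [h10]; ring
    · rw [e0, e2]
      push_cast
      calc bz G (e (ci 0)) (e (ci 0)) * ((c 0 1 : ℤ) * c 1 2) =
          ((c 0 1 : ℤ) * bz G (e (ci 0)) (e (ci 0))) * c 1 2 := by ring
        _ = ((c 1 2 : ℤ) * bz G (e (ci 1)) (e (ci 1))) * c 1 0 := by rw [h10]; ring
        _ = _ := by rw [h21]; ring
  · exfalso
    rcases q with _ | q
    · exact absurd (show (1 : ℕ) ≤ 0 from h2) (by omega)
    · exact absurd (show (1 : ℕ) ≤ 0 from h2) (by omega)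

end Pool.Agent.Refl.H46
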