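import Pool.Agent.Helper46_Refl.RedBase

/-!
# REDI: a lattice with a vector of type `p²` has a parent of type I
-/

namespace Pool.Agent.Refl.H46

open Matrix

theorem dot_dvd {m : ℤ} {v : Z4} (x : Z4) (h : ∀ i, m ∣ v i) : m ∣ x ⬝ᵥ v := by
  unfold dotProduct
  exact Finset.dvd_sum fun j _ => Dvd.dvd.mul_left (h j) _

/-- the subgroup `pZ⁴ + {x : L x = 0 mod p²}` -/
def upI (L : M4) (p : ℤ) : Submodule ℤ Z4 where
  carrier := {v | ∃ x y : Z4, v = p • y + x ∧ ∀ i, p ^ 2 ∣ L.mulVec x i}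
  add_mem' := by
    rintro a b ⟨x, y, rfl, hx⟩ ⟨x', y', rfl, hx'⟩
    refine ⟨x + x', y + y', by simp only [smul_add]; abel, fun i => ?_⟩
    rw [Matrix.mulVec_add]
    exact dvd_add (hx i) (hx' i)
  zero_mem' := ⟨0, 0, by simp, fun i => by simp⟩
  smul_mem' := by
    rintro c a ⟨x, y, rfl, hx⟩
    refine ⟨c • x, c • y, by rw [smul_add, smul_comm], fun i => ?_⟩
    rw [Matrix.mulVec_smul]
    exact Dvd.dvd.mul_left (hx i) _

theorem mem_upI {L : M4} {p : ℤ} {v : Z4} :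
    v ∈ upI L p ↔ ∃ x y : Z4, v = p • y + x ∧ ∀ i, p ^ 2 ∣ L.mulVec x i := Iff.rfl

theorem det_conj_lt {L R W : M4} (hL : L.det ≠ 0) (h : L = W.transpose * R * W)
    (hW : ¬ IsUnit W.det) : R.det.natAbs < L.det.natAbs := by
  have h1 : L.det = W.det * R.det * W.det := by
    conv_lhs => rw [h]
    rw [Matrix.det_mul, Matrix.det_mul, Matrix.det_transpose]
  have hW0 : W.det ≠ 0 := by
    intro h0
    rw [h1, h0, mul_zero] at hL
    exact hL rfl
  have hR0 : R.det ≠ 0 := by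
    intro h0
    rw [h1, h0, mul_zero, zero_mul] at hL
    exact hL rfl
  rw [h1, Int.natAbs_mul, Int.natAbs_mul]
  have h2 : 2 ≤ W.det.natAbs := by
    have h3 : W.det.natAbs ≠ 0 := Int.natAbs_ne_zero.2 hW0
    have h4 : W.det.natAbs ≠ 1 := fun h5 => hW (Int.isUnit_iff_natAbs_eq.2 h5)
    omega
  have h3 : 0 < R.det.natAbs := Int.natAbs_pos.2 hR0
  nlinarith [Nat.mul_le_mul h2 h2, Nat.mul_le_mul (Nat.mul_le_mul h2 h2) (le_refl R.det.natAbs)]

theorem redI (hT : TransStmt) (hS : StabIStmt) : RedIStmt := by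
  intro L p hp hL hprim hssf
  have hpi : Prime (p : ℤ) := Nat.prime_iff_prime_int.1 hp
  have hp0 : (p : ℤ) ≠ 0 := hpi.ne_zero
  have hppos : 0 < p := hp.pos
  obtain ⟨B, hB, hB'⟩ := exists_basis_matrix (upI L p) hp0
    (fun x => mem_upI.2 ⟨0, x, by simp, fun i => by simp⟩)
  -- the matrix W
  have hW : ∃ W : M4, B * W = (p : ℤ) • (1 : M4) := by
    have h1 : ∀ x : Z4, ∃ z, (p : ℤ) • x = B.mulVec z := fun x =>
      hB' _ (mem_upI.2 ⟨0, x, by simp, fun i => by simp⟩)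
    choose z hz using h1
    refine ⟨Matrix.of fun i j => z (Pi.single j 1) i, ?_⟩
    ext i j
    have h2 := congrFun (hz (Pi.single j 1)) i
    have h3 : (B * Matrix.of fun i j => z (Pi.single j 1) i) i j =
        B.mulVec (z (Pi.single j 1)) i := rfl
    rw [h3, ← h2]
    simp only [Pi.smul_apply, smul_eq_mul, Matrix.smul_apply, Matrix.one_apply, Pi.single_apply]
  obtain ⟨W, hBW⟩ := hW
  have hWB : W * B = (p : ℤ) • (1 : M4) := comm_of_mul hp0 hBW
  -- the form on the big lattice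
  have hint : ∀ i j, (p : ℤ) ^ 2 ∣ (B.transpose * L * B) i j := by
    intro i j
    have h1 : ∀ v w : Z4, v ∈ upI L p → w ∈ upI L p → (p : ℤ) ^ 2 ∣ bz L v w := by
      rintro v w ⟨x, y, rfl, hx⟩ ⟨x', y', rfl, hx'⟩
      rw [bz_add_left, bz_add_right, bz_add_right, bz_smul_left, bz_smul_right, bz_smul_left,
        bz_smul_right]
      have e1 : (p : ℤ) ^ 2 ∣ bz L y x' := by rw [bz_eq_dot]; exact dot_dvd _ hx'
      have e2 : (p : ℤ) ^ 2 ∣ bz L x x' := by rw [bz_eq_dot]; exact dot_dvd _ hx'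
      have e3 : (p : ℤ) ^ 2 ∣ bz L x y' := by rw [hL.zcomm, bz_eq_dot]; exact dot_dvd _ hx
      have e4 : (p : ℤ) ^ 2 ∣ p * (p * bz L y y') := ⟨bz L y y', by ring⟩
      exact dvd_add (dvd_add e4 (Dvd.dvd.mul_left e1 _)) (dvd_add (Dvd.dvd.mul_left e3 _) e2)
    rw [← bz_single (B.transpose * L * B) i j, bz_conj]
    exact h1 _ _ (hB _) (hB _)
  choose Rf hRf using hint
  let R : M4 := Matrix.of Rf
  have hR : B.transpose * L * B = ((p : ℤ) * p) • R := by
    ext i j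
    rw [hRf i j]
    simp only [R, Matrix.smul_apply, Matrix.of_apply, smul_eq_mul]
    ring
  have hpp : (p : ℤ) * p ≠ 0 := mul_ne_zero hp0 hp0
  have hLR : L = W.transpose * R * W := by
    have h1 := conj_conj (X := L) hBW
    rw [hR, Matrix.mul_smul, Matrix.smul_mul] at h1
    exact (smul_right_injective _ hpp h1).symm
  have hone : (((1 : ℕ) : ℤ)) • L = ((1 : ℕ) : ℤ) • (W.transpose * R * W) := by
    rw [← hLR]
  have hLat : Lat R := lat_up (c := 1) (d := 1) hp0 one_pos one_pos hWB (by simpa using hone) hL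
  have hRW : ∀ w : Z4, (p : ℤ) • R.mulVec (W.mulVec w) = B.transpose.mulVec (L.mulVec w) := by
    intro w
    have h1 : B.transpose * L * (B * W) = ((p : ℤ) * p) • (R * W) := by
      rw [← Matrix.mul_assoc, hR, Matrix.smul_mul]
    rw [hBW, Matrix.mul_smul, Matrix.mul_one, ← smul_smul] at h1
    have h2 : B.transpose * L = (p : ℤ) • (R * W) := smul_right_injective _ hp0 h1
    rw [Matrix.mulVec_mulVec, Matrix.mulVec_mulVec, h2, Matrix.smul_mulVec]
  have hnu : ¬ IsUnit W.det := by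
    intro hu
    apply hssf
    intro x hx i
    obtain ⟨z, hz⟩ := hB' x (mem_upI.2 ⟨x, 0, by simp, hx⟩)
    obtain ⟨Wi, hWi⟩ : ∃ Wi : M4, Wi * W = 1 := by
      have h2 := (Matrix.isUnit_iff_isUnit_det W).2 hu
      obtain ⟨u, hu⟩ := h2
      exact ⟨(u⁻¹ : M4ˣ), by rw [← hu]; simp⟩
    have h3 : B = (p : ℤ) • Wi := by
      have h4 : Wi * (W * B) = B := by rw [← Matrix.mul_assoc, hWi, Matrix.one_mul]
      rw [← h4, hWB, Matrix.mul_smul, Matrix.mul_one]
    rw [hz, h3, Matrix.smul_mulVec]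
    exact ⟨_, rfl⟩
  have hcanon : Canon p R L W := by
    constructor
    · intro w hw i
      have h1 : (p : ℤ) ^ 2 ∣ ((p : ℤ) • R.mulVec (W.mulVec w)) i := by
        rw [hRW]
        have h2 : B.transpose.mulVec (L.mulVec w) i = bz L (B.mulVec (Pi.single i 1)) w := by
          rw [bz_eq_dot, Matrix.mulVec_single_one, Matrix.mulVec]
          rfl
        rw [h2]
        obtain ⟨x, y, h3, hx⟩ := hB (Pi.single i 1)
        rw [h3, bz_add_left, bz_smul_left]
        refine dvd_add ?_ ?_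
        · rw [pow_two]
          refine mul_dvd_mul_left _ ?_
          rw [bz_eq_dot]
          exact dot_dvd _ hw
        · rw [hL.zcomm, bz_eq_dot]
          exact dot_dvd _ hx
      rw [Pi.smul_apply, smul_eq_mul, pow_two] at h1
      exact (mul_dvd_mul_iff_left hp0).1 h1
    · intro x hx i
      obtain ⟨z, hz⟩ := hB' x (mem_upI.2 ⟨x, 0, by simp, hx⟩)
      rw [hz, Matrix.mulVec_mulVec, hWB, Matrix.smul_mulVec, Matrix.one_mulVec]
      exact ⟨_, rfl⟩
  have hprimR : PrimG R := by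
    intro d hd
    apply hprim
    intro i j
    rw [hLR, Matrix.mul_apply]
    refine Finset.dvd_sum fun a _ => Dvd.dvd.mul_right ?_ _
    rw [Matrix.mul_apply]
    exact Finset.dvd_sum fun b _ => Dvd.dvd.mul_left (hd _ _) _
  have hstab := hS p R L W B hp hLat hL hWB hLR hcanon
  have htr := hT L R W B p 1 1 hppos one_pos one_pos hWB hone hL hstab
  refine ⟨R, ⟨W, B, hWB, hLR, hnu, hprim, hcanon⟩, hLat, hprimR,
    det_conj_lt hL.det_ne hLR hnu, htr.2, fun q hq hqp => ?_⟩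
  have hq1 : ¬ (q : ℤ) ∣ 1 := fun h => hq.one_lt.ne' (by
    have := Int.natAbs_dvd_natAbs.2 h
    simpa using this)
  have hqp' : ¬ (q : ℤ) ∣ p := fun h => hqp ((Nat.prime_dvd_prime_iff_eq hq hp).1 (by exact_mod_cast h))
  exact ⟨ssf_iff hq hqp' hq1 hq1 hWB hBW (by simpa using hone),
    rk2_iff hq hqp' hq1 hq1 hWB (by simpa using hone)⟩

end Pool.Agent.Refl.H46
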