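import Pool.Agent.Helper46_Refl.RedBase

/-!
# REDII: a lattice of rank one modulo `p` has a parent of type II
-/

namespace Pool.Agent.Refl.H46

open Matrix

theorem dot_dvd' {m : ℤ} {v : Z4} (x : Z4) (h : ∀ i, m ∣ v i) : m ∣ x ⬝ᵥ v := by
  unfold dotProduct
  exact Finset.dvd_sum fun j _ => Dvd.dvd.mul_left (h j) _

/-- basis of the kernel of a linear form modulo `p` -/
def kerB (i : Fin 4) (r : Z4) (p : ℤ) : M4 :=
  fun j k => if j = i then (if k = i then p else - r k) else (if j = k then 1 else 0)

/-- the complementary matrix -/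
def kerW (i : Fin 4) (r : Z4) (p : ℤ) : M4 :=
  fun j k => if j = i then (if k = i then 1 else r k) else (if j = k then p else 0)

theorem kerW_mul_kerB (i : Fin 4) (r : Z4) (p : ℤ) : kerW i r p * kerB i r p = p • (1 : M4) := by
  ext j k
  rw [Matrix.mul_apply, Matrix.smul_apply, smul_eq_mul, Matrix.one_apply]
  by_cases hj : j = i
  · subst hj
    rw [← Finset.add_sum_erase _ _ (Finset.mem_univ j)]
    have h1 : ∀ l ∈ Finset.univ.erase j, kerW j r p j l * kerB j r p l k =
        if l = k then r l else 0 := by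
      intro l hl
      have hlj : l ≠ j := Finset.ne_of_mem_erase hl
      simp [kerW, kerB, hlj]
    rw [Finset.sum_congr rfl h1]
    by_cases hk : k = j
    · subst hk
      have h2 : ∑ l ∈ Finset.univ.erase k, (if l = k then r l else 0) = 0 :=
        Finset.sum_eq_zero fun l hl => if_neg (Finset.ne_of_mem_erase hl)
      rw [h2]
      simp [kerW, kerB]
    · have h2 : ∑ l ∈ Finset.univ.erase j, (if l = k then r l else 0) = r k := by
        rw [Finset.sum_eq_single k]
        · simp
        · intro b _ hb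
          simp [hb]
        · intro h
          exact absurd (Finset.mem_erase.2 ⟨hk, Finset.mem_univ k⟩) h
      rw [h2]
      have hkj : ¬ j = k := fun h => hk h.symm
      simp [kerW, kerB, hk, hkj]
  · rw [Finset.sum_eq_single j]
    · by_cases hjk : j = k
      · subst hjk
        simp [kerW, kerB, hj]
      · simp [kerW, kerB, hj, hjk]
    · intro b _ hb
      simp [kerW, hj, Ne.symm hb]
    · intro h
      exact absurd (Finset.mem_univ j) h

theorem det_kerW (i : Fin 4) (r : Z4) (p : ℤ) : (kerW i r p).det = p ^ 3 := by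
  rw [Matrix.det_succ_column (kerW i r p) i, Finset.sum_eq_single i]
  · have h1 : (kerW i r p).submatrix i.succAbove i.succAbove =
        p • (1 : Matrix (Fin 3) (Fin 3) ℤ) := by
      ext j k
      simp only [kerW, Matrix.submatrix_apply, Fin.succAbove_ne, if_false, Matrix.smul_apply,
        Matrix.one_apply, smul_eq_mul, Fin.succAbove_right_injective.eq_iff]
      by_cases h : j = k
      · simp [h]
      · simp [h]
    rw [h1, Matrix.det_smul, Matrix.det_one]
    have h2 : (-1 : ℤ) ^ ((i : ℕ) + (i : ℕ)) = 1 := Even.neg_one_pow ⟨_, rfl⟩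
    rw [h2]
    simp [kerW]
  · intro b _ hb
    simp [kerW, hb]
  · intro h
    exact absurd (Finset.mem_univ i) h

theorem redII (hT : TransStmt) (hS : StabIIStmt) : RedIIStmt := by
  intro L p hp hL hprim hssf hrk
  have hpi : Prime (p : ℤ) := Nat.prime_iff_prime_int.1 hp
  have hp0 : (p : ℤ) ≠ 0 := hpi.ne_zero
  have hppos : 0 < p := hp.pos
  have hz : Z2 p L := not_rk2.1 hrk
  have hsymm : ∀ i j, L i j = L j i := G_symm hL.symm
  -- a diagonal entry prime to p
  obtain ⟨i, hi⟩ : ∃ i, ¬ (p : ℤ) ∣ L i i := by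
    by_contra hcon
    push Not at hcon
    apply hpi.not_isUnit
    apply hprim
    intro i j
    have h1 := hz i j i j
    rw [hsymm j i, dvd_sub_right (Dvd.dvd.mul_right (hcon i) _)] at h1
    exact (hpi.dvd_or_dvd h1).elim id id
  have hcop : IsCoprime (L i i) (p : ℤ) := ((Prime.coprime_iff_not_dvd hpi).2 hi).symm
  obtain ⟨u, v, huv⟩ := hcop
  have hLx : ∀ (x : Z4) (j : Fin 4), L.mulVec x j = ∑ k, L j k * x k := fun x j => rfl
  -- membership in the kernel
  have hX : ∀ x : Z4, (p : ℤ) ∣ L.mulVec x i → ∀ j, (p : ℤ) ∣ L.mulVec x j := by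
    intro x hx j
    have h1 : L i i * L.mulVec x j - L j i * L.mulVec x i =
        ∑ k, (L i i * L j k - L i k * L j i) * x k := by
      rw [hLx, hLx, Finset.mul_sum, Finset.mul_sum, ← Finset.sum_sub_distrib]
      exact Finset.sum_congr rfl fun k _ => by ring
    have h2 : (p : ℤ) ∣ L i i * L.mulVec x j - L j i * L.mulVec x i := by
      rw [h1]
      exact Finset.dvd_sum fun k _ => Dvd.dvd.mul_right (hz i j i k) _
    have h3 : (p : ℤ) ∣ L i i * L.mulVec x j := (dvd_sub_left (Dvd.dvd.mul_left hx _)).1 h2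
    exact (hpi.dvd_or_dvd h3).resolve_left hi
  set r : Z4 := fun k => u * L i k with hr
  set B : M4 := kerB i r p with hBdef
  set W : M4 := kerW i r p with hWdef
  have hWB : W * B = (p : ℤ) • (1 : M4) := kerW_mul_kerB i r p
  have hBW : B * W = (p : ℤ) • (1 : M4) := comm_of_mul hp0 hWB
  have hdetW : W.det = (p : ℤ) ^ 3 := det_kerW i r p
  -- images of B lie in the kernel
  have hLB : ∀ k, (p : ℤ) ∣ (L * B) i k := by
    intro k
    rw [Matrix.mul_apply, ← Finset.add_sum_erase _ _ (Finset.mem_univ i)]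
    have h1 : ∀ l ∈ Finset.univ.erase i, L i l * B l k = if l = k then L i l else 0 := by
      intro l hl
      have hlj : l ≠ i := Finset.ne_of_mem_erase hl
      simp [hBdef, kerB, hlj]
    rw [Finset.sum_congr rfl h1]
    by_cases hk : k = i
    · subst hk
      have h2 : ∑ l ∈ Finset.univ.erase k, (if l = k then L k l else 0) = 0 :=
        Finset.sum_eq_zero fun l hl => if_neg (Finset.ne_of_mem_erase hl)
      rw [h2]
      simp [hBdef, kerB]
    · have h2 : ∑ l ∈ Finset.univ.erase i, (if l = k then L i l else 0) = L i k := by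
        rw [Finset.sum_eq_single k]
        · simp
        · intro b _ hb
          simp [hb]
        · intro h
          exact absurd (Finset.mem_erase.2 ⟨hk, Finset.mem_univ k⟩) h
      rw [h2]
      have h3 : B i k = - (u * L i k) := by simp [hBdef, kerB, hk, hr]
      rw [h3]
      refine ⟨v * L i k, ?_⟩
      linear_combination (-L i k) * huv
  have hBX : ∀ z : Z4, ∀ j, (p : ℤ) ∣ L.mulVec (B.mulVec z) j := by
    intro z
    apply hX
    rw [Matrix.mulVec_mulVec]
    have h1 : (L * B).mulVec z i = ∑ k, (L * B) i k * z k := rfl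
    rw [h1]
    exact Finset.dvd_sum fun k _ => Dvd.dvd.mul_right (hLB k) _
  -- the kernel is the image of B
  have hXB : ∀ x : Z4, (p : ℤ) ∣ L.mulVec x i → ∃ z, x = B.mulVec z := by
    intro x hx
    have h1 : ∀ j, (p : ℤ) ∣ W.mulVec x j := by
      intro j
      by_cases hj : j = i
      · subst hj
        have h2 : L j j * W.mulVec x j - L.mulVec x j =
            ∑ k, (if k = j then 0 else - (v * p) * L j k * x k) := by
          have h3 : W.mulVec x j = ∑ k, W j k * x k := rfl
          rw [h3, hLx, Finset.mul_sum, ← Finset.sum_sub_distrib]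
          refine Finset.sum_congr rfl fun k _ => ?_
          by_cases hk : k = j
          · subst hk
            simp [hWdef, kerW]
          · have h4 : W j k = u * L j k := by simp [hWdef, kerW, hk, hr]
            rw [if_neg hk, h4]
            linear_combination (L j k * x k) * huv
        have h5 : (p : ℤ) ∣ L j j * W.mulVec x j - L.mulVec x j := by
          rw [h2]
          refine Finset.dvd_sum fun k _ => ?_
          split_ifs
          · exact dvd_zero _
          · exact ⟨-v * L j k * x k, by ring⟩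
        have h6 : (p : ℤ) ∣ L j j * W.mulVec x j := (dvd_sub_left hx).1 h5
        exact (hpi.dvd_or_dvd h6).resolve_left hi
      · have h2 : W.mulVec x j = p * x j := by
          have h3 : W.mulVec x j = ∑ k, W j k * x k := rfl
          rw [h3, Finset.sum_eq_single j]
          · simp [hWdef, kerW, hj]
          · intro b _ hb
            simp [hWdef, kerW, hj, Ne.symm hb]
          · intro h
            exact absurd (Finset.mem_univ j) h
        rw [h2]
        exact ⟨_, rfl⟩
    choose z hz using h1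
    refine ⟨z, ?_⟩
    have h2 : W.mulVec x = (p : ℤ) • z := by
      funext j
      rw [hz j]
      rfl
    have h3 : B.mulVec (W.mulVec x) = (p : ℤ) • B.mulVec z := by
      rw [h2, Matrix.mulVec_smul]
    rw [Matrix.mulVec_mulVec, hBW, Matrix.smul_mulVec, Matrix.one_mulVec] at h3
    exact smul_right_injective _ hp0 h3
  -- the form on the big lattice
  have hint : ∀ j k, (p : ℤ) ∣ (B.transpose * L * B) j k := by
    intro j k
    rw [← bz_single (B.transpose * L * B) j k, bz_conj, bz_eq_dot]
    exact dot_dvd' _ (hBX _)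
  choose Rf hRf using hint
  let R : M4 := Matrix.of Rf
  have hR : B.transpose * L * B = (p : ℤ) • R := by
    ext j k
    rw [hRf j k]
    simp only [R, Matrix.smul_apply, Matrix.of_apply, smul_eq_mul]
  have hLR : (p : ℤ) • L = W.transpose * R * W := by
    have h1 := conj_conj (X := L) hBW
    rw [hR, Matrix.mul_smul, Matrix.smul_mul, ← smul_smul] at h1
    exact (smul_right_injective _ hp0 h1).symm
  have hone : (p : ℤ) • L = ((1 : ℕ) : ℤ) • (W.transpose * R * W) := by
    rw [← hLR]
    simp only [Nat.cast_one, one_smul]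
  have hLat : Lat R := lat_up (c := p) (d := 1) hp0 (by exact_mod_cast hppos) one_pos hWB
    (by rw [one_smul]; exact hLR) hL
  have hRW : R * W = B.transpose * L := by
    have h1 : B.transpose * L * (B * W) = (p : ℤ) • (R * W) := by
      rw [← Matrix.mul_assoc, hR, Matrix.smul_mul]
    rw [hBW, Matrix.mul_smul, Matrix.mul_one] at h1
    exact (smul_right_injective _ hp0 h1).symm
  have hrow : ∀ (x : Z4) (j : Fin 4), (B.transpose * L).mulVec x j =
      bz L (B.mulVec (Pi.single j 1)) x := by
    intro x j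
    rw [bz_eq_dot, Matrix.mulVec_single_one, ← Matrix.mulVec_mulVec, Matrix.mulVec]
    rfl
  have hdiv : ∀ (x : Z4) (j : Fin 4), (p : ℤ) ∣ R.mulVec (W.mulVec x) j := by
    intro x j
    rw [Matrix.mulVec_mulVec, hRW, hrow, hL.zcomm, bz_eq_dot]
    exact dot_dvd' _ (hBX _)
  -- products with the basis vector
  have hbe : ∀ x : Z4, bz L x (Pi.single i 1) = L.mulVec x i := by
    intro x
    rw [hL.zcomm, bz_eq_dot, single_one_dotProduct]
  -- key lemma
  have hkey : ∀ x0 : Z4, (p : ℤ) ∣ L.mulVec x0 i →
      (∀ w : Z4, (p : ℤ) ∣ L.mulVec w i → (p : ℤ) ^ 2 ∣ bz L x0 w) → ∀ j, (p : ℤ) ∣ x0 j := by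
    intro x0 hx0 hx0X
    obtain ⟨c0, hc0⟩ := hx0
    set x1 : Z4 := x0 - ((p : ℤ) * (u * c0)) • Pi.single i 1 with hx1
    have h1 : ∀ y : Z4, (p : ℤ) ^ 2 ∣ bz L x1 y := by
      intro y
      set w : Z4 := y - (u * L.mulVec y i) • Pi.single i 1 with hw
      have hii : L.mulVec (Pi.single i 1) i = L i i := by
        rw [Matrix.mulVec_single_one]
        rfl
      have hwX : (p : ℤ) ∣ L.mulVec w i := by
        rw [hw, Matrix.mulVec_sub, Matrix.mulVec_smul, Pi.sub_apply, Pi.smul_apply, smul_eq_mul,
          hii]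
        exact ⟨v * L.mulVec y i, by linear_combination (-L.mulVec y i) * huv⟩
      have hy : y = (u * L.mulVec y i) • Pi.single i 1 + w := by rw [hw]; abel
      have h2 : (p : ℤ) ^ 2 ∣ bz L x1 (Pi.single i 1) := by
        rw [hx1, bz_sub_left, bz_smul_left, hbe, hbe, hii, hc0]
        exact ⟨v * c0, by linear_combination (-(p : ℤ) * c0) * huv⟩
      have h3 : (p : ℤ) ^ 2 ∣ bz L x1 w := by
        rw [hx1, bz_sub_left, bz_smul_left, hL.zcomm (Pi.single i 1) w, hbe]
        refine dvd_sub (hx0X w hwX) ?_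
        obtain ⟨e, he⟩ := hwX
        rw [he]
        exact ⟨u * c0 * e, by ring⟩
      rw [hy, bz_add_right, bz_smul_right]
      exact dvd_add (Dvd.dvd.mul_left h2 _) h3
    have h4 : ∀ j, (p : ℤ) ^ 2 ∣ L.mulVec x1 j := by
      intro j
      have h5 := h1 (Pi.single j 1)
      rwa [hL.zcomm, bz_eq_dot, single_one_dotProduct] at h5
    intro j
    have h5 := hssf x1 h4 j
    have h6 : x0 j = x1 j + p * ((u * c0) * (Pi.single i 1 : Z4) j) := by
      rw [hx1]
      simp only [Pi.sub_apply, Pi.smul_apply, smul_eq_mul]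
      ring
    rw [h6]
    exact dvd_add h5 ⟨_, rfl⟩
  have hlast : ∀ x : Z4, (∀ i, (p : ℤ) ∣ R.mulVec x i) → ∃ y, x = W.mulVec y := by
    intro x hx
    have h1 : ∀ j, (p : ℤ) ∣ B.mulVec x j := by
      refine hkey _ (hBX x i) fun w hw => ?_
      obtain ⟨z, rfl⟩ := hXB w hw
      rw [hL.zcomm, ← bz_conj, hR, bz_eq_dot, Matrix.smul_mulVec, dotProduct_smul, smul_eq_mul,
        pow_two]
      exact mul_dvd_mul_left _ (dot_dvd' _ hx)
    choose y hy using h1
    refine ⟨y, ?_⟩
    have h2 : B.mulVec x = (p : ℤ) • y := by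
      funext j
      rw [hy j]
      rfl
    have h3 : W.mulVec (B.mulVec x) = (p : ℤ) • W.mulVec y := by
      rw [h2, Matrix.mulVec_smul]
    rw [Matrix.mulVec_mulVec, hWB, Matrix.smul_mulVec, Matrix.one_mulVec] at h3
    exact smul_right_injective _ hp0 h3
  have hnatdet : W.det.natAbs = p ^ 3 := by
    rw [hdetW, Int.natAbs_pow, Int.natAbs_natCast]
  have hprimR : PrimG R := by
    intro d hd
    by_cases hpd : (p : ℤ) ∣ d
    · exfalso
      -- every vector is in the image of W
      have h1 : ∀ x : Z4, ∃ y, x = W.mulVec y := by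
        intro x
        refine hlast x fun j => ?_
        have h0 : R.mulVec x j = ∑ k, R j k * x k := rfl
        rw [h0]
        exact Finset.dvd_sum fun k _ => Dvd.dvd.mul_right (hpd.trans (hd _ _)) _
      choose y hy using h1
      have h2 : W * (Matrix.of fun a b => y (Pi.single b 1) a : M4) = 1 := by
        ext a b
        have h3 := congrFun (hy (Pi.single b 1)) a
        have h4 : (W * (Matrix.of fun a b => y (Pi.single b 1) a : M4)) a b =
          W.mulVec (y (Pi.single b 1)) a := rfl
        rw [h4, ← h3]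
        simp [Matrix.one_apply, Pi.single_apply]
      have h5 := congrArg Matrix.det h2
      rw [Matrix.det_mul, Matrix.det_one, hdetW] at h5
      have h6 : IsUnit ((p : ℤ) ^ 3) := IsUnit.of_mul_eq_one _ h5
      exact hpi.not_isUnit ((isUnit_pow_iff three_ne_zero).1 h6)
    · have hcop : IsCoprime d (p : ℤ) := ((Prime.coprime_iff_not_dvd hpi).2 hpd).symm
      apply hprim
      intro a b
      have h1 : d ∣ ((p : ℤ) • L) a b := by
        rw [hLR, Matrix.mul_apply]
        refine Finset.dvd_sum fun a' _ => Dvd.dvd.mul_right ?_ _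
        rw [Matrix.mul_apply]
        exact Finset.dvd_sum fun b' _ => Dvd.dvd.mul_left (hd _ _) _
      rw [Matrix.smul_apply, smul_eq_mul] at h1
      exact hcop.dvd_of_dvd_mul_left h1
  have hdetlt : R.det.natAbs < L.det.natAbs := by
    have h1 := congrArg Matrix.det hLR
    rw [Matrix.det_smul, Matrix.det_mul, Matrix.det_mul, Matrix.det_transpose, hdetW,
      Fintype.card_fin] at h1
    have h2 : L.det = (p : ℤ) ^ 2 * R.det := by
      have h3 : (p : ℤ) ^ 4 * L.det = (p : ℤ) ^ 4 * ((p : ℤ) ^ 2 * R.det) := by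
        rw [h1]
        ring
      exact mul_left_cancel₀ (pow_ne_zero 4 hp0) h3
    have hR0 : 0 < R.det.natAbs := Int.natAbs_pos.2 hLat.det_ne
    rw [h2, Int.natAbs_mul, Int.natAbs_pow, Int.natAbs_natCast]
    have h4 := hp.two_le
    nlinarith [Nat.mul_le_mul h4 h4]
  have hstab := hS p R L W B hp hLat hL hWB hLR hnatdet hprim hdiv
  have htr := hT L R W B p p 1 hppos hppos one_pos hWB hone hL hstab
  refine ⟨R, ⟨W, B, hWB, hLR, hnatdet, hprim, hdiv, hlast⟩, hLat, hprimR, hdetlt,
    htr.2, fun q hq hqp => ?_⟩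
  have hq1 : ¬ (q : ℤ) ∣ 1 := fun h => hq.one_lt.ne' (by
    have := Int.natAbs_dvd_natAbs.2 h
    simpa using this)
  have hqp' : ¬ (q : ℤ) ∣ p := fun h =>
    hqp ((Nat.prime_dvd_prime_iff_eq hq hp).1 (by exact_mod_cast h))
  have hone' : (p : ℤ) • L = (1 : ℤ) • (W.transpose * R * W) := by
    rw [one_smul]
    exact hLR
  exact ⟨ssf_iff hq hqp' hqp' hq1 hWB hBW hone', rk2_iff hq hqp' hqp' hq1 hWB hone'⟩

end Pool.Agent.Refl.H46
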