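import Pool.Agent.Helper46_Refl.WrdA

/-!
# Words for lines and hyperplanes
-/

namespace Pool.Agent.Refl.H46W

open Matrix

theorem wrd1_succ (O : K.OC) (act : K.Gp → ℕ → ℕ → ℕ) (x0 k x z a b c d s : ℕ) :
    K.wrd1 O act x0 (k + 1) x z a b c d s =
      (Bool.rec 0 (K.wrd1 O act x0 k (act (K.getG O.L (s % 64)) O.p x)
        (K.nrmP O.p (act (K.getG O.L (s % 64)) O.p x))
        (K.actM (K.getG O.L (s % 64)) O.M a) (K.actM (K.getG O.L (s % 64)) O.M b)
        (K.actM (K.getG O.L (s % 64)) O.M c) (K.actM (K.getG O.L (s % 64)) O.M d) (s / 64))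
        (K.ands (Nat.blt (s % 64) O.nw)
          (K.notb (Nat.beq (K.nrmP O.p (act (K.getG O.L (s % 64)) O.p x)) z))) : ℕ) := by
  unfold K.wrd1
  simp only [fc_eq]
  rfl

theorem wrd1_zero (O : K.OC) (act : K.Gp → ℕ → ℕ → ℕ) (x0 x z a b c d s : ℕ) :
    K.wrd1 O act x0 0 x z a b c d s = K.okb (K.ands (Nat.beq z x0) (K.trC O.M a b c d)) s := rfl

theorem getG_gp {O : K.OC} {F : List K.I4} (hO : OCok O F) {i : ℕ} {v : K.I4} (h : F[i]? = some v) :
    K.getG O.L i = gpZ O.p O.M (rm (matI O.A) (vI v)) := by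
  apply getG_eq
  rw [hO.hL, List.getElem?_map, h]
  rfl

theorem colM (hA : ActStmt) {m M : ℕ} (S P : M4) (j : Fin 4) (h1 : 1 ≤ m) (h2 : m ≤ 127)
    (h3 : 1 ≤ M) (h4 : M ≤ 127) : K.actM (gpZ m M S) M (pkZ M fun i => P i j) =
      pkZ M fun i => (S * P) i j := by
  rw [(hA m M S _ h1 h2 h3 h4).2.2, col_mul]

theorem wrd1_aux (hA : ActStmt) (hN : NrmStmt) (hP : PkZStmt) {O : K.OC} {F : List K.I4} (b : Bool)
    {x : Z4} (hO : OCok O F) {n : ℕ} {f : Fin n → Z4}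
    (hF : ∀ i < O.nw, ∃ (v : K.I4) (a j k : Fin n), F[i]? = some v ∧ f a = vI v ∧
      IsV (matI O.A) f a j k) {W : M4}
    (hB : ∀ v : Z4, v ∈ X1 b O.p x ↔ ∃ y, v = W.mulVec y) :
    ∀ (k : ℕ) (u : Z4) (P P' : M4) (s : ℕ), P * P' = 1 → P' * P = 1 →
      (∀ v, v ∈ X1 b O.p x ↔ P.mulVec v ∈ X1 b O.p u) → ¬ Cg O.p u 0 →
      K.wrd1 O (actB b) (pkZ O.p x) k (pkZ O.p u) (K.nrmP O.p (pkZ O.p u))
        (pkZ O.M fun i => P i 0) (pkZ O.M fun i => P i 1) (pkZ O.M fun i => P i 2)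
        (pkZ O.M fun i => P i 3) s ≠ 0 →
      ∃ l : List (Fin n), (∀ i ∈ l, ∃ j k, IsV (matI O.A) f i j k) ∧
        WordOK (fun i => rm (matI O.A) (f i)) W l P := by
  have hp := hO.pr
  have hp1 : 1 ≤ O.p := hp.one_lt.le
  have hM1 : 1 ≤ O.M := le_trans (by norm_num) hO.mge
  intro k
  induction k with
  | zero =>
    intro u P P' s hPP hPP' hinv hu h
    rw [wrd1_zero] at h
    obtain ⟨h1, h2⟩ := ands_true (okb_ne h)
    have h3 := beq_true h1
    obtain ⟨zz, c, _, hc, hzc, hnz, _⟩ := (hN O.p u hp hO.ple hu).1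
    have h4 : Cg O.p zz x := ((hP O.p hp1 hO.ple).1 zz x).1 (by rw [← hnz, h3])
    have h5 : Cg O.p x (c • u) := cg_trans (cg_symm h4) hzc
    refine ⟨[], by simp, ?_, trace_big hP hO.mge hO.mle P h2⟩
    apply exists_V hB
    intro w hw
    exact (X1_cg hp b hc h5 _).2 ((hinv w).1 hw)
  | succ k ih =>
    intro u P P' s hPP hPP' hinv hu h
    rw [wrd1_succ] at h
    obtain ⟨h1, h2⟩ := rec_ne h
    obtain ⟨h3, h4⟩ := ands_true h1
    have h5 := blt_true h3
    have h6 := beq_false (notb_true h4)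
    obtain ⟨v, a, j, k', hv, hfa, hV⟩ := hF _ h5
    have hg := getG_gp hO hv
    have hroot : IsRoot (matI O.A) (vI v) := hO.root v (List.mem_of_getElem? hv)
    set S : M4 := rm (matI O.A) (vI v) with hS
    have hS2 : S * S = 1 := rm_sq _ _ hroot
    have hact : actB b (K.getG O.L (s % 64)) O.p (pkZ O.p u) = pkZ O.p (aT b S u) := by
      rw [hg]
      exact act_eq hA b S u hp1 hO.ple hM1 hO.mle
    rw [hact] at h2 h6
    rw [hg, colM hA S P 0 hp1 hO.ple hM1 hO.mle, colM hA S P 1 hp1 hO.ple hM1 hO.mle,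
      colM hA S P 2 hp1 hO.ple hM1 hO.mle, colM hA S P 3 hp1 hO.ple hM1 hO.mle] at h2
    have hu' : ¬ Cg O.p (aT b S u) 0 := aT_ne b hS2 hu
    have hinv' : ∀ w, w ∈ X1 b O.p x ↔ (S * P).mulVec w ∈ X1 b O.p (aT b S u) := by
      intro w
      rw [hinv w, X1_act b hS2, Matrix.mulVec_mulVec]
    have i1 : S * P * (P' * S) = 1 := by
      rw [Matrix.mul_assoc, ← Matrix.mul_assoc P, hPP, Matrix.one_mul, hS2]
    have i2 : P' * S * (S * P) = 1 := by
      rw [Matrix.mul_assoc, ← Matrix.mul_assoc S, hS2, Matrix.one_mul, hPP']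
    obtain ⟨l, hl, hW⟩ := ih (aT b S u) (S * P) (P' * S) _ i1 i2 hinv' hu' h2
    refine ⟨a :: l, ?_, ?_, ?_⟩
    · intro i hi
      rcases List.mem_cons.1 hi with hi | hi
      · rw [hi]
        exact ⟨j, k', hV⟩
      · exact hl i hi
    · intro hex
      have hex' : ∃ V : M4, S * (P * W) = P * W * V := by
        obtain ⟨V, hV'⟩ := hex
        refine ⟨V, ?_⟩
        simp only [hfa] at hV'
        exact hV'
      have h7 := noV hB hPP hinv hex'
      have h8 : ∀ w, w ∈ X1 b O.p u → w ∈ X1 b O.p (aT b S u) := by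
        intro w hw
        rw [X1_act b hS2, aT_aT b hS2]
        exact h7 w hw
      obtain ⟨c, hc, hcg⟩ := X1_sub hp b hu hu' h8
      exact h6 ((hN O.p u hp hO.ple hu).2 _ c hc hcg)
    · have e : (fun i => rm (matI O.A) (f i)) a = S := by
        show rm (matI O.A) (f a) = S
        rw [hfa]
      rw [e]
      exact hW

theorem wrd1 (hWo : WordStmt) (hA : ActStmt) (hN : NrmStmt) (hP : PkZStmt) : Wrd1Stmt := by
  intro O F b x k s hO hx hnx h W L c d hc hd hBas hL hLat hG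
  have hp := hO.pr
  -- the number of letters is positive
  obtain ⟨p0, p1, p2, p3⟩ := pkZ_one hO.mge
  have hnw : 0 < O.nw := by
    cases k with
    | zero =>
      exfalso
      rw [wrd1_zero] at h
      obtain ⟨_, h2⟩ := ands_true (okb_ne h)
      rw [trC_one hO.mge] at h2
      exact Bool.false_ne_true h2
    | succ k =>
      rw [wrd1_succ] at h
      obtain ⟨h1, _⟩ := rec_ne h
      obtain ⟨h3, _⟩ := ands_true h1
      exact lt_of_le_of_lt (Nat.zero_le _) (blt_true h3)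
  obtain ⟨n, f, o, hCh, hF⟩ := hO.cham hnw
  obtain ⟨⟨W', hWW⟩, hB⟩ := hBas
  have h' : K.wrd1 O (actB b) (pkZ O.p x) k (pkZ O.p x) (K.nrmP O.p (pkZ O.p x))
        (pkZ O.M fun i => (1 : M4) i 0) (pkZ O.M fun i => (1 : M4) i 1)
        (pkZ O.M fun i => (1 : M4) i 2) (pkZ O.M fun i => (1 : M4) i 3) s ≠ 0 := by
    rw [hnx, p0, p1, p2, p3]
    exact h
  obtain ⟨l, hl, hword⟩ := wrd1_aux hA hN hP b hO hF hB k x 1 1 s (one_mul 1) (one_mul 1)
    (fun v => by rw [Matrix.one_mulVec]) hx h'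
  exact hWo (matI O.A) n f o hO.lat hCh L W W' O.p c d hp.pos hc hd hWW hL hLat hG l hl hword

end Pool.Agent.Refl.H46W
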