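import Pool.Agent.Helper46_Refl.Wrd1

/-!
# Words for planes
-/

namespace Pool.Agent.Refl.H46W

open Matrix

theorem wrd2_succ (O : K.OC) (x0 y0 k x y z a b c d s : ℕ) :
    K.wrd2 O x0 y0 (k + 1) x y z a b c d s =
      (Bool.rec 0 (K.wrd2 O x0 y0 k (K.actC (K.getG O.L (s % 64)) O.p x)
        (K.actC (K.getG O.L (s % 64)) O.p y)
        (K.code2 O.p (K.actC (K.getG O.L (s % 64)) O.p x) (K.actC (K.getG O.L (s % 64)) O.p y))
        (K.actM (K.getG O.L (s % 64)) O.M a) (K.actM (K.getG O.L (s % 64)) O.M b)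
        (K.actM (K.getG O.L (s % 64)) O.M c) (K.actM (K.getG O.L (s % 64)) O.M d) (s / 64))
        (K.ands (Nat.blt (s % 64) O.nw)
          (K.notb (Nat.beq (K.code2 O.p (K.actC (K.getG O.L (s % 64)) O.p x)
            (K.actC (K.getG O.L (s % 64)) O.p y)) z))) : ℕ) := by
  unfold K.wrd2
  simp only [fc_eq]
  rfl

theorem wrd2_zero (O : K.OC) (x0 y0 x y z a b c d s : ℕ) :
    K.wrd2 O x0 y0 0 x y z a b c d s = K.okb (K.ands (K.ands
      (K.cmb2 O.p x x0 y0 (s % 268435456 % 128) (s % 268435456 / 128 % 128))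
      (K.cmb2 O.p y x0 y0 (s % 268435456 / 16384 % 128) (s % 268435456 / 2097152)))
      (K.trC O.M a b c d)) (s / 268435456) := by
  unfold K.wrd2
  simp only [fc_eq]
  rfl

theorem cmb_eq (hP : PkZStmt) {p : ℕ} (h1 : 1 ≤ p) (h2 : p ≤ 127) {u x y : Z4} {al be : ℕ}
    (ha : al < 128) (hb : be < 128) (h : K.cmb2 p (pkZ p u) (pkZ p x) (pkZ p y) al be = true) :
    Cg p u ((al : ℤ) • x + (be : ℤ) • y) := by
  have h3 : pkZ p u = K.redm p (al * pkZ p x + be * pkZ p y) := beq_true h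
  obtain ⟨q1, _, _, _, q5⟩ := hP p h1 h2
  have hlt : ∀ z : ℤ, (z % p).toNat ≤ 126 := by
    intro z
    have := Int.emod_lt_of_pos z (show (0 : ℤ) < p by omega)
    have := Int.emod_nonneg z (show (p : ℤ) ≠ 0 by omega)
    omega
  have hd : ∀ s t : ℤ, al * (s % p).toNat + be * (t % p).toNat < 65536 := by
    intro s t
    have a1 := hlt s
    have a2 := hlt t
    have a3 : al * (s % p).toNat ≤ 127 * 126 := Nat.mul_le_mul (by omega) a1
    have a4 : be * (t % p).toNat ≤ 127 * 126 := Nat.mul_le_mul (by omega) a2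
    omega
  have h4 : al * pkZ p x + be * pkZ p y = K.p4 (al * (x 0 % p).toNat + be * (y 0 % p).toNat)
      (al * (x 1 % p).toNat + be * (y 1 % p).toNat) (al * (x 2 % p).toNat + be * (y 2 % p).toNat)
      (al * (x 3 % p).toNat + be * (y 3 % p).toNat) := by
    show al * pkZ p x + be * pkZ p y = ((al * (x 0 % p).toNat + be * (y 0 % p).toNat) +
      65536 * (al * (x 1 % p).toNat + be * (y 1 % p).toNat)) +
      (4294967296 * (al * (x 2 % p).toNat + be * (y 2 % p).toNat) +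
      281474976710656 * (al * (x 3 % p).toNat + be * (y 3 % p).toNat))
    unfold pkZ
    ring
  rw [h4, q5 _ _ _ _ (hd _ _) (hd _ _) (hd _ _) (hd _ _)] at h3
  have h5 := (q1 _ _).1 h3
  apply cg_trans h5
  have hz : ∀ s t : ℤ, (p : ℤ) ∣ ((al * (s % p).toNat + be * (t % p).toNat : ℕ) : ℤ) -
      (al * s + be * t) := by
    intro s t
    have b1 : (((s % p).toNat : ℕ) : ℤ) = s % p :=
      Int.toNat_of_nonneg (Int.emod_nonneg s (show (p : ℤ) ≠ 0 by omega))
    have b2 : (((t % p).toNat : ℕ) : ℤ) = t % p :=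
      Int.toNat_of_nonneg (Int.emod_nonneg t (show (p : ℤ) ≠ 0 by omega))
    push_cast
    rw [b1, b2]
    have e : (al : ℤ) * (s % p) + be * (t % p) - (al * s + be * t) =
        al * (s % p - s) + be * (t % p - t) := by ring
    rw [e]
    have e2 : ∀ z : ℤ, (p : ℤ) ∣ z % p - z := fun z => by
      refine ⟨-(z / p), ?_⟩
      have := Int.emod_add_mul_ediv z p
      linarith
    exact dvd_add (Dvd.dvd.mul_left (e2 s) _) (Dvd.dvd.mul_left (e2 t) _)
  intro i
  fin_cases i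
  · exact hz (x 0) (y 0)
  · exact hz (x 1) (y 1)
  · exact hz (x 2) (y 2)
  · exact hz (x 3) (y 3)

theorem mulVec_comb (S : M4) (a b : ℤ) (u v : Z4) :
    S.mulVec (a • u + b • v) = a • S.mulVec u + b • S.mulVec v := by
  rw [Matrix.mulVec_add, Matrix.mulVec_smul, Matrix.mulVec_smul]

theorem X2_act {p : ℕ} {S : M4} (hS : S * S = 1) (u v w : Z4) :
    w ∈ SubX p [u, v] ↔ S.mulVec w ∈ SubX p [S.mulVec u, S.mulVec v] := by
  rw [mem_SubX_two, mem_SubX_two]
  constructor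
  · rintro ⟨a, b, h⟩
    refine ⟨a, b, ?_⟩
    have := cg_mulVec S h
    rwa [mulVec_comb] at this
  · rintro ⟨a, b, h⟩
    refine ⟨a, b, ?_⟩
    have := cg_mulVec S h
    rwa [mulVec_comb, mul_mulVec_one hS, mul_mulVec_one hS, mul_mulVec_one hS] at this

theorem ind_act {p : ℕ} {S : M4} (hS : S * S = 1) {u v : Z4} (h : Ind p u v) :
    Ind p (S.mulVec u) (S.mulVec v) := by
  intro a b hab
  apply h a b
  have := cg_mulVec S hab
  rwa [mulVec_comb, mul_mulVec_one hS, mul_mulVec_one hS, Matrix.mulVec_zero] at this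

/-- determinant of a base change -/
theorem det_ne {p : ℕ} (hp : p.Prime) {u v u' v' : Z4} {a b c d : ℤ} (h : Ind p u' v')
    (h1 : Cg p u' (a • u + b • v)) (h2 : Cg p v' (c • u + d • v)) :
    ¬ (p : ℤ) ∣ a * d - b * c := by
  intro hdiv
  have hp' : Prime (p : ℤ) := Nat.prime_iff_prime_int.1 hp
  have e1 : Cg p (d • u' + (-b) • v') 0 := by
    intro i
    show (p : ℤ) ∣ (d * u' i + (-b) * v' i) - 0
    have h1i : (p : ℤ) ∣ u' i - (a * u i + b * v i) := h1 i
    have h2i : (p : ℤ) ∣ v' i - (c * u i + d * v i) := h2 i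
    have e : d * u' i + (-b) * v' i - 0 = d * (u' i - (a * u i + b * v i)) -
        b * (v' i - (c * u i + d * v i)) + (a * d - b * c) * u i := by ring
    rw [e]
    exact dvd_add (dvd_sub (Dvd.dvd.mul_left h1i _) (Dvd.dvd.mul_left h2i _))
      (Dvd.dvd.mul_right hdiv _)
  have e2 : Cg p ((-c) • u' + a • v') 0 := by
    intro i
    show (p : ℤ) ∣ ((-c) * u' i + a * v' i) - 0
    have h1i : (p : ℤ) ∣ u' i - (a * u i + b * v i) := h1 i
    have h2i : (p : ℤ) ∣ v' i - (c * u i + d * v i) := h2 i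
    have e : (-c) * u' i + a * v' i - 0 = a * (v' i - (c * u i + d * v i)) -
        c * (u' i - (a * u i + b * v i)) + (a * d - b * c) * v i := by ring
    rw [e]
    exact dvd_add (dvd_sub (Dvd.dvd.mul_left h2i _) (Dvd.dvd.mul_left h1i _))
      (Dvd.dvd.mul_right hdiv _)
  obtain ⟨_, hb⟩ := h _ _ e1
  obtain ⟨_, ha⟩ := h _ _ e2
  have hb' : (p : ℤ) ∣ b := (dvd_neg).1 hb
  have e3 : Cg p ((1 : ℤ) • u' + (0 : ℤ) • v') 0 := by
    intro i
    show (p : ℤ) ∣ (1 * u' i + 0 * v' i) - 0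
    have h1i : (p : ℤ) ∣ u' i - (a * u i + b * v i) := h1 i
    have e : 1 * u' i + 0 * v' i - 0 = (u' i - (a * u i + b * v i)) + (a * u i + b * v i) := by
      ring
    rw [e]
    exact dvd_add h1i (dvd_add (Dvd.dvd.mul_right ha _) (Dvd.dvd.mul_right hb' _))
  exact hp'.not_dvd_one (h _ _ e3).1

theorem wrd2_aux (hA : ActStmt) (hC : Cod2Stmt) (hP : PkZStmt) {O : K.OC} {F : List K.I4}
    {x y : Z4} (hO : OCok O F) {n : ℕ} {f : Fin n → Z4}
    (hF : ∀ i < O.nw, ∃ (v : K.I4) (a j k : Fin n), F[i]? = some v ∧ f a = vI v ∧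
      IsV (matI O.A) f a j k) {W : M4}
    (hB : ∀ v : Z4, v ∈ SubX O.p [x, y] ↔ ∃ y, v = W.mulVec y) :
    ∀ (k : ℕ) (u v : Z4) (P P' : M4) (s : ℕ), P * P' = 1 → P' * P = 1 →
      (∀ w, w ∈ SubX O.p [x, y] ↔ P.mulVec w ∈ SubX O.p [u, v]) → Ind O.p u v →
      K.wrd2 O (pkZ O.p x) (pkZ O.p y) k (pkZ O.p u) (pkZ O.p v)
        (K.code2 O.p (pkZ O.p u) (pkZ O.p v))
        (pkZ O.M fun i => P i 0) (pkZ O.M fun i => P i 1) (pkZ O.M fun i => P i 2)
        (pkZ O.M fun i => P i 3) s ≠ 0 →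
      ∃ l : List (Fin n), (∀ i ∈ l, ∃ j k, IsV (matI O.A) f i j k) ∧
        WordOK (fun i => rm (matI O.A) (f i)) W l P := by
  have hp := hO.pr
  have hp1 : 1 ≤ O.p := hp.one_lt.le
  have hM1 : 1 ≤ O.M := le_trans (by norm_num) hO.mge
  intro k
  induction k with
  | zero =>
    intro u v P P' s hPP hPP' hinv hu h
    rw [wrd2_zero] at h
    obtain ⟨h1, h2⟩ := ands_true (okb_ne h)
    obtain ⟨h3, h4⟩ := ands_true h1
    have hu1 := cmb_eq hP hp1 hO.ple (Nat.mod_lt _ (by norm_num)) (Nat.mod_lt _ (by norm_num)) h3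
    have hv1 := cmb_eq hP hp1 hO.ple (Nat.mod_lt _ (by norm_num))
      (by have := Nat.mod_lt s (show 0 < 268435456 by norm_num); omega) h4
    refine ⟨[], by simp, ?_, trace_big hP hO.mge hO.mle P h2⟩
    apply exists_V hB
    intro w hw
    obtain ⟨a, b, hab⟩ := mem_SubX_two.1 ((hinv w).1 hw)
    set k1 := s % 268435456 % 128
    set k2 := s % 268435456 / 128 % 128
    set k3 := s % 268435456 / 16384 % 128
    set k4 := s % 268435456 / 2097152
    refine mem_SubX_two.2 ⟨a * k1 + b * k3, a * k2 + b * k4, ?_⟩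
    apply cg_trans hab
    have h5 := cg_add (cg_smul a hu1) (cg_smul b hv1)
    have e : (a * (k1 : ℤ) + b * (k3 : ℤ)) • x + (a * (k2 : ℤ) + b * (k4 : ℤ)) • y =
        a • ((k1 : ℤ) • x + (k2 : ℤ) • y) + b • ((k3 : ℤ) • x + (k4 : ℤ) • y) := by
      funext i
      show (a * (k1 : ℤ) + b * (k3 : ℤ)) * x i + (a * (k2 : ℤ) + b * (k4 : ℤ)) * y i =
        a * ((k1 : ℤ) * x i + (k2 : ℤ) * y i) + b * ((k3 : ℤ) * x i + (k4 : ℤ) * y i)
      ring
    rw [e]
    exact h5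
  | succ k ih =>
    intro u v P P' s hPP hPP' hinv hu h
    rw [wrd2_succ] at h
    obtain ⟨h1, h2⟩ := rec_ne h
    obtain ⟨h3, h4⟩ := ands_true h1
    have h5 := blt_true h3
    have h6 := beq_false (notb_true h4)
    obtain ⟨r, a, j, k', hv, hfa, hV⟩ := hF _ h5
    have hg := getG_gp hO hv
    have hroot : IsRoot (matI O.A) (vI r) := hO.root r (List.mem_of_getElem? hv)
    set S : M4 := rm (matI O.A) (vI r) with hS
    have hS2 : S * S = 1 := rm_sq _ _ hroot
    have hact : ∀ w, K.actC (K.getG O.L (s % 64)) O.p (pkZ O.p w) = pkZ O.p (S.mulVec w) := by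
      intro w
      rw [hg]
      exact (hA O.p O.M S w hp1 hO.ple hM1 hO.mle).1
    rw [hact, hact] at h2 h6
    rw [hg, colM hA S P 0 hp1 hO.ple hM1 hO.mle, colM hA S P 1 hp1 hO.ple hM1 hO.mle,
      colM hA S P 2 hp1 hO.ple hM1 hO.mle, colM hA S P 3 hp1 hO.ple hM1 hO.mle] at h2
    have hu' : Ind O.p (S.mulVec u) (S.mulVec v) := ind_act hS2 hu
    have hinv' : ∀ w, w ∈ SubX O.p [x, y] ↔
        (S * P).mulVec w ∈ SubX O.p [S.mulVec u, S.mulVec v] := by
      intro w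
      rw [hinv w, X2_act hS2, Matrix.mulVec_mulVec]
    have i1 : S * P * (P' * S) = 1 := by
      rw [Matrix.mul_assoc, ← Matrix.mul_assoc P, hPP, Matrix.one_mul, hS2]
    have i2 : P' * S * (S * P) = 1 := by
      rw [Matrix.mul_assoc, ← Matrix.mul_assoc S, hS2, Matrix.one_mul, hPP']
    obtain ⟨l, hl, hW⟩ := ih (S.mulVec u) (S.mulVec v) (S * P) (P' * S) _ i1 i2 hinv' hu' h2
    refine ⟨a :: l, ?_, ?_, ?_⟩
    · intro i hi
      rcases List.mem_cons.1 hi with hi | hi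
      · rw [hi]
        exact ⟨j, k', hV⟩
      · exact hl i hi
    · intro hex
      have hex' : ∃ V : M4, S * (P * W) = P * W * V := by
        obtain ⟨V, hV'⟩ := hex
        refine ⟨V, ?_⟩
        simp only [hfa] at hV'
        exact hV'
      have h7 := noV hB hPP hinv hex'
      obtain ⟨a1, b1, hab1⟩ := mem_SubX_two.1 (h7 u (mem_SubX_two.2 ⟨1, 0, by
        rw [one_smul, zero_smul, add_zero]; exact cg_refl _ _⟩))
      obtain ⟨a2, b2, hab2⟩ := mem_SubX_two.1 (h7 v (mem_SubX_two.2 ⟨0, 1, by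
        rw [one_smul, zero_smul, zero_add]; exact cg_refl _ _⟩))
      exact h6 ((hC O.p u v hp hO.ple).2.1 hu _ _ a1 b1 a2 b2 (det_ne hp hu' hab1 hab2) hab1 hab2)
    · have e : (fun i => rm (matI O.A) (f i)) a = S := by
        show rm (matI O.A) (f a) = S
        rw [hfa]
      rw [e]
      exact hW

theorem wrd2 (hWo : WordStmt) (hA : ActStmt) (hC : Cod2Stmt) (hP : PkZStmt) : Wrd2Stmt := by
  intro O F x y k s hO hxy h W L c d hc hd hBas hL hLat hG
  have hp := hO.pr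
  obtain ⟨p0, p1, p2, p3⟩ := pkZ_one hO.mge
  have hnw : 0 < O.nw := by
    cases k with
    | zero =>
      exfalso
      rw [wrd2_zero] at h
      obtain ⟨_, h2⟩ := ands_true (okb_ne h)
      rw [trC_one hO.mge] at h2
      exact Bool.false_ne_true h2
    | succ k =>
      rw [wrd2_succ] at h
      obtain ⟨h1, _⟩ := rec_ne h
      obtain ⟨h3, _⟩ := ands_true h1
      exact lt_of_le_of_lt (Nat.zero_le _) (blt_true h3)
  obtain ⟨n, f, o, hCh, hF⟩ := hO.cham hnw
  obtain ⟨⟨W', hWW⟩, hB⟩ := hBas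
  have h' : K.wrd2 O (pkZ O.p x) (pkZ O.p y) k (pkZ O.p x) (pkZ O.p y)
        (K.code2 O.p (pkZ O.p x) (pkZ O.p y))
        (pkZ O.M fun i => (1 : M4) i 0) (pkZ O.M fun i => (1 : M4) i 1)
        (pkZ O.M fun i => (1 : M4) i 2) (pkZ O.M fun i => (1 : M4) i 3) s ≠ 0 := by
    rw [p0, p1, p2, p3]
    exact h
  obtain ⟨l, hl, hword⟩ := wrd2_aux hA hC hP hO hF hB k x y 1 1 s (one_mul 1) (one_mul 1)
    (fun v => by rw [Matrix.one_mulVec]) hxy h'
  exact hWo (matI O.A) n f o hO.lat hCh L W W' O.p c d hp.pos hc hd hWW hL hLat hG l hl hword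

end Pool.Agent.Refl.H46W
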