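import Pool.Agent.Helper23_Refl.StmtC2
import Pool.Agent.Helper46_Refl.Nums

/-!
# ALG: the coordinates `f_i (x) = 2 (x, e_i) / (e_i, e_i)`
-/

set_option autoImplicit false

namespace Pool.Agent.Refl.H46

open Matrix Pool.Agent.Refl

theorem alg : AlgStmt := by
  intro G e k c s t hG hr hd4 hs ht hk hc
  have hK : ∀ i, 0 < bz G (e i) (e i) := fun i => (hr i).pos
  have hsymm : ∀ i j, G i j = G j i := fun i j => by
    conv_lhs => rw [← hG.symm]
    rfl
  choose f hf using fun i j => (hr i).dvd (Pi.single j 1)
  have hf' : ∀ i j, 2 * (G.mulVec (e i)) j = bz G (e i) (e i) * f i j := by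
    intro i j
    rw [← hf i j]
    rw [bz_eq_dot, single_one_dotProduct]
  set V : M4 := Matrix.of e with hV
  set F : M4 := Matrix.of f with hF
  set C : M4 := cMat c with hC
  have hVd : V.det ≠ 0 := by
    have : V = Matrix.of ![e 0, e 1, e 2, e 3] := by
      ext i j
      fin_cases i <;> rfl
    rw [this]
    exact hd4
  have hFx : ∀ x i, bz G (e i) (e i) * F.mulVec x i = 2 * bz G x (e i) := by
    intro x i
    have h1 : F.mulVec x i = ∑ j, f i j * x j := rfl
    rw [h1, Finset.mul_sum]
    simp only [bz, mulVec, dotProduct] at hf' ⊢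
    rw [Finset.mul_sum]
    refine Finset.sum_congr rfl fun j _ => ?_
    rw [← mul_assoc, ← hf' i j, Finset.mul_sum, Finset.mul_sum, Finset.sum_mul]
    refine Finset.sum_congr rfl fun l _ => ?_
    ring
  have hFe : ∀ i j, F.mulVec (e j) i = C i j := by
    intro i j
    refine mul_left_cancel₀ (hK i).ne' ?_
    rw [hFx (e j) i, hG.zcomm (e j) (e i), hC]
    unfold cMat
    by_cases hij : i = j
    · subst hij
      rw [if_pos rfl]
      ring
    · rw [if_neg hij]
      have := hc i j hij
      linarith
  have hFE : F * V.transpose = C := by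
    ext i j
    rw [← hFe i j]
    rfl
  have hDF : Matrix.diagonal (fun i => bz G (e i) (e i)) * F = (2 : ℤ) • (V * G) := by
    ext i j
    rw [Matrix.diagonal_mul, Matrix.smul_apply, smul_eq_mul]
    change _ * f i j = _
    rw [← hf' i j]
    congr 1
    simp only [mulVec, dotProduct, Matrix.mul_apply]
    refine Finset.sum_congr rfl fun l _ => ?_
    rw [hsymm j l]
    change _ = e i l * G l j
    ring
  have hDC : Matrix.diagonal (fun i => bz G (e i) (e i)) * C = (2 : ℤ) • (V * G * V.transpose) := by
    rw [← hFE, ← Matrix.mul_assoc, hDF, Matrix.smul_mul]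
  have hCneg : C.det < 0 := by
    have h1 := congrArg Matrix.det hDC
    rw [Matrix.det_mul, Matrix.det_diagonal, Matrix.det_smul, Matrix.det_mul, Matrix.det_mul,
      Matrix.det_transpose, Fintype.card_fin] at h1
    have h2 : 0 < ∏ i, bz G (e i) (e i) := Finset.prod_pos fun i _ => hK i
    have h3 : 0 < V.det * V.det := by
      have := mul_self_pos.2 hVd
      exact this
    have h4 := hG.det_neg
    by_contra hcon
    push Not at hcon
    have h5 : 0 ≤ (∏ i, bz G (e i) (e i)) * C.det := mul_nonneg h2.le hcon
    rw [h1] at h5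
    nlinarith [mul_neg_of_pos_of_neg h3 h4]
  have hFd : F.det ≠ 0 := by
    intro h0
    have h1 := congrArg Matrix.det hFE
    rw [Matrix.det_mul, h0, zero_mul] at h1
    exact hCneg.ne h1.symm
  have hst : t • Matrix.diagonal (fun i => (k i : ℤ)) =
      s • Matrix.diagonal (fun i => bz G (e i) (e i)) := by
    ext i j
    simp only [Matrix.smul_apply, Matrix.diagonal_apply, smul_eq_mul]
    split_ifs with h
    · exact (hk i).symm
    · simp
  have hEa : V.transpose * C.adjugate * F = C.det • (1 : M4) := by
    have h1 : F * (V.transpose * C.adjugate * F) = F * (C.det • (1 : M4)) := by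
      rw [← Matrix.mul_assoc, ← Matrix.mul_assoc, hFE, Matrix.mul_adjugate, Matrix.smul_mul,
        Matrix.mul_smul, Matrix.one_mul, Matrix.mul_one]
    have h2 := congrArg (fun M => F.adjugate * M) h1
    simp only [← Matrix.mul_assoc, Matrix.adjugate_mul] at h2
    ext i j
    have h3 := congrFun (congrFun h2 i) j
    simp only [Matrix.smul_mul, Matrix.one_mul, Matrix.smul_apply, smul_eq_mul,
      Matrix.mul_assoc] at h3
    exact mul_left_cancel₀ hFd (by simpa [Matrix.mul_assoc] using h3)
  have hrel : (2 * -C.det * s) • G = -(t • (F.transpose *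
      ((Matrix.diagonal fun i => (k i : ℤ)) * C.adjugate) * F)) := by
    have h1 : t • (F.transpose * ((Matrix.diagonal fun i => (k i : ℤ)) * C.adjugate) * F) =
        F.transpose * (t • Matrix.diagonal fun i => (k i : ℤ)) * C.adjugate * F := by
      simp only [Matrix.mul_smul, Matrix.smul_mul, Matrix.mul_assoc]
    have h2 : F.transpose * Matrix.diagonal (fun i => bz G (e i) (e i)) =
        (2 : ℤ) • (G * V.transpose) := by
      have h3 := congrArg Matrix.transpose hDF
      rw [Matrix.transpose_mul, Matrix.diagonal_transpose, Matrix.transpose_smul,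
        Matrix.transpose_mul, hG.symm] at h3
      exact h3
    rw [h1, hst, Matrix.mul_smul, h2]
    have h3 : (s • (2 : ℤ) • (G * V.transpose)) * C.adjugate * F =
        (s * 2) • (G * (V.transpose * C.adjugate * F)) := by
      simp only [Matrix.smul_mul, Matrix.mul_assoc, smul_smul]
    rw [h3, hEa, Matrix.mul_smul, Matrix.mul_one, smul_smul, ← neg_smul]
    congr 1
    ring
  have hS : (Matrix.diagonal (fun i => bz G (e i) (e i)) * C).transpose =
      Matrix.diagonal (fun i => bz G (e i) (e i)) * C := by
    rw [hDC, Matrix.transpose_smul, Matrix.transpose_mul, Matrix.transpose_mul,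
      Matrix.transpose_transpose, hG.symm, Matrix.mul_assoc]
  have hsym : (Matrix.diagonal (fun i => bz G (e i) (e i)) * C.adjugate).transpose =
      Matrix.diagonal (fun i => bz G (e i) (e i)) * C.adjugate := by
    rw [Matrix.transpose_mul, Matrix.diagonal_transpose] at hS ⊢
    have h1 : C.adjugate.transpose * (C.transpose *
        Matrix.diagonal (fun i => bz G (e i) (e i))) * C.adjugate =
        C.adjugate.transpose * (Matrix.diagonal (fun i => bz G (e i) (e i)) * C) * C.adjugate := by
      rw [hS]
    have h2 : C.adjugate.transpose * C.transpose = C.det • (1 : M4) := by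
      rw [← Matrix.transpose_mul, Matrix.mul_adjugate, Matrix.transpose_smul,
        Matrix.transpose_one]
    rw [← Matrix.mul_assoc, h2, Matrix.smul_mul, Matrix.one_mul, Matrix.smul_mul,
      ← Matrix.mul_assoc, Matrix.mul_assoc _ C, Matrix.mul_adjugate, Matrix.mul_smul,
      Matrix.mul_one] at h1
    ext i j
    have h3 := congrFun (congrFun h1 i) j
    simp only [Matrix.smul_apply, smul_eq_mul] at h3
    exact (mul_left_cancel₀ hCneg.ne h3).symm
  refine ⟨hCneg, F, hFd, hFx, hFe, hrel, ?_⟩
  have h1 : t • ((Matrix.diagonal fun i => (k i : ℤ)) * C.adjugate) =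
      s • (Matrix.diagonal (fun i => bz G (e i) (e i)) * C.adjugate) := by
    rw [← Matrix.smul_mul, hst, Matrix.smul_mul]
  have h2 : t • ((Matrix.diagonal fun i => (k i : ℤ)) * C.adjugate).transpose =
      t • ((Matrix.diagonal fun i => (k i : ℤ)) * C.adjugate) := by
    rw [← Matrix.transpose_smul, h1, Matrix.transpose_smul, hsym]
  ext i j
  have h3 := congrFun (congrFun h2 i) j
  simp only [Matrix.smul_apply, smul_eq_mul] at h3
  exact mul_left_cancel₀ ht.ne' h3

end Pool.Agent.Refl.H46
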