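import Pool.Agent.Helper46_Refl.LeafBase

/-!
# LEAF: one leaf of the search, with given proportions of the norms
-/

set_option autoImplicit false

namespace Pool.Agent.Refl.H46

open Matrix Pool.Agent.Refl

/-! ### the determinant -/

theorem det_cMat {G : M4} {e : Fin 4 → Z4} {c : Fin 4 → Fin 4 → ℕ} (hG : Lat G)
    (hr : ∀ i, IsRoot G (e i)) (ho : ∀ i j, i ≠ j → bz G (e i) (e j) ≤ 0)
    (hc : ∀ i j, i ≠ j → (c i j : ℤ) * bz G (e i) (e i) = -(2 * bz G (e i) (e j))) :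
    (cMat c).det = -dd0 (nn G (e 0) (e 1)) (nn G (e 0) (e 2)) (nn G (e 1) (e 2))
      (nn G (e 0) (e 3)) (nn G (e 1) (e 3)) (nn G (e 2) (e 3)) := by
  have h1 := detId G e hG hr ho
  have h2 : Matrix.diagonal (fun i => bz G (e i) (e i)) * cMat c =
      (2 : ℤ) • (Matrix.of fun i j => bz G (e i) (e j)) := by
    ext i j
    rw [Matrix.diagonal_mul, Matrix.smul_apply, smul_eq_mul, Matrix.of_apply]
    unfold cMat
    by_cases hij : i = j
    · subst hij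
      rw [if_pos rfl]
      ring
    · rw [if_neg hij]
      have := hc i j hij
      linarith
  have h3 := congrArg Matrix.det h2
  rw [Matrix.det_mul, Matrix.det_diagonal, Matrix.det_smul, gram_det, Fintype.card_fin] at h3
  have h4 : Matrix.of e = Matrix.of ![e 0, e 1, e 2, e 3] := by
    ext i j
    fin_cases i <;> rfl
  rw [h4, Fin.prod_univ_four] at h3
  have h5 : d4 (e 0) (e 1) (e 2) (e 3) = (Matrix.of ![e 0, e 1, e 2, e 3]).det := rfl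
  rw [← h5] at h3
  have h6 : 0 < bz G (e 0) (e 0) * bz G (e 1) (e 1) * bz G (e 2) (e 2) * bz G (e 3) (e 3) :=
    mul_pos (mul_pos (mul_pos (hr 0).pos (hr 1).pos) (hr 2).pos) (hr 3).pos
  refine mul_left_cancel₀ h6.ne' ?_
  rw [h3]
  linarith

/-! ### derived roots -/

theorem prop4_der {G F : M4} {e : Fin 4 → Z4} {x : Z4} {k N w : Fin 4 → ℕ} {s t : ℤ}
    (hG : Lat G) (hr : ∀ i, IsRoot G (e i)) (hx : IsRoot G x) (ho : ∀ i, bz G (e i) x ≤ 0)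
    (ht : 0 < t) (hs : 0 < s) (hk : ∀ i, s * bz G (e i) (e i) = t * k i)
    (hN : ∀ i, N i = nn G (e i) x)
    (hF : ∀ y i, bz G (e i) (e i) * F.mulVec y i = 2 * bz G y (e i)) (j : Fin 4)
    (h : K.prop4 (k 0) (k 1) (k 2) (k 3) (N 0) (N 1) (N 2) (N 3) (w 0) (w 1) (w 2) (w 3)
      (k j) (N j) (w j) = true) :
    ∃ s' t' : ℤ, 0 < s' ∧ 0 < t' ∧ s' • F.mulVec x = -(t' • (fun i => (w i : ℤ))) := by
  unfold K.prop4 at h
  simp only [ands_true, beq_true, ble_true] at h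
  obtain ⟨⟨hNj, hwj⟩, ⟨h0, h1⟩, ⟨h2, h3⟩⟩ := h
  have hall : ∀ i, w i * w i * k i * N j = w j * w j * k j * N i := by
    intro i
    fin_cases i
    · exact h0
    · exact h1
    · exact h2
    · exact h3
  have hK : ∀ i, 0 < bz G (e i) (e i) := fun i => (hr i).pos
  have hkp : ∀ i, 0 < (k i : ℤ) := by
    intro i
    have h4 := mul_pos hs (hK i)
    rw [hk i] at h4
    exact (mul_pos_iff_of_pos_left ht).1 h4
  have hle : ∀ i, F.mulVec x i ≤ 0 := by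
    intro i
    have h4 := hF x i
    rw [hG.zcomm x (e i)] at h4
    have h5 := ho i
    by_contra hcon
    push Not at hcon
    have := mul_pos (hK i) hcon
    linarith
  have hsq : ∀ i, F.mulVec x i ^ 2 * (k i * t) = s * (N i * bz G x x) := by
    intro i
    have h4 := hF x i
    rw [hG.zcomm x (e i)] at h4
    have h5 := nnm hG (hr i) hx
    rw [← hN i] at h5
    refine mul_left_cancel₀ (hK i).ne' ?_
    calc bz G (e i) (e i) * (F.mulVec x i ^ 2 * (k i * t)) =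
        bz G (e i) (e i) * F.mulVec x i ^ 2 * (t * k i) := by ring
      _ = bz G (e i) (e i) * F.mulVec x i ^ 2 * (s * bz G (e i) (e i)) := by rw [hk i]
      _ = s * (bz G (e i) (e i) * F.mulVec x i) ^ 2 := by ring
      _ = s * (4 * bz G (e i) x ^ 2) := by rw [h4]; ring
      _ = s * (N i * (bz G (e i) (e i) * bz G x x)) := by rw [h5]
      _ = _ := by ring
  have hx0 := hx.pos
  have hprop : ∀ i, F.mulVec x i * w j = F.mulVec x j * w i := by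
    intro i
    have h4 : (F.mulVec x i * w j) ^ 2 = (F.mulVec x j * w i) ^ 2 := by
      have h5 : (0 : ℤ) < k i * k j * t := mul_pos (mul_pos (hkp i) (hkp j)) ht
      refine mul_left_cancel₀ h5.ne' ?_
      have h6 : (w i : ℤ) * w i * k i * N j = w j * w j * k j * N i := by
        exact_mod_cast hall i
      calc (k i : ℤ) * k j * t * (F.mulVec x i * w j) ^ 2 =
          (F.mulVec x i ^ 2 * (k i * t)) * (k j * w j ^ 2) := by ring
        _ = s * (N i * bz G x x) * (k j * w j ^ 2) := by rw [hsq i]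
        _ = s * bz G x x * (w j * w j * k j * N i) := by ring
        _ = s * bz G x x * (w i * w i * k i * N j) := by rw [h6]
        _ = (s * (N j * bz G x x)) * (k i * w i ^ 2) := by ring
        _ = (F.mulVec x j ^ 2 * (k j * t)) * (k i * w i ^ 2) := by rw [hsq j]
        _ = _ := by ring
    have h5 : (-(F.mulVec x i) * w j) ^ 2 = (-(F.mulVec x j) * w i) ^ 2 := by
      rw [neg_mul, neg_mul, neg_sq, neg_sq]
      exact h4
    have h6 := (pow_left_inj₀ (mul_nonneg (neg_nonneg.2 (hle i)) (Int.natCast_nonneg _))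
      (mul_nonneg (neg_nonneg.2 (hle j)) (Int.natCast_nonneg _)) two_ne_zero).1 h5
    linarith
  refine ⟨w j, -F.mulVec x j, by exact_mod_cast hwj, ?_, ?_⟩
  · have h4 : F.mulVec x j ≠ 0 := by
      intro h5
      have h6 := hsq j
      rw [h5] at h6
      have h7 : 0 < s * (N j * bz G x x) := by
        have : (0 : ℤ) < N j := by exact_mod_cast hNj
        positivity
      rw [← h6] at h7
      simp at h7
    have h5 := hle j
    rcases lt_or_eq_of_le h5 with h6 | h6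
    · linarith
    · exact absurd h6 h4
  · ext i
    rw [Pi.smul_apply, Pi.neg_apply, Pi.smul_apply, smul_eq_mul, smul_eq_mul]
    have := hprop i
    linarith

theorem rdw_ne {T : K.TCtx} {k N : Fin 4 → ℕ} {st : ℕ} {f : ℕ → ℕ → ℕ}
    (h : K.rdw T (k 0) (k 1) (k 2) (k 3) (N 0) (N 1) (N 2) (N 3) st f ≠ 0) :
    ∃ (w : Fin 4 → ℕ) (j : Fin 4) (s' : ℕ), (∀ i, w i < 2 ^ 63) ∧
      K.prop4 (k 0) (k 1) (k 2) (k 3) (N 0) (N 1) (N 2) (N 3) (w 0) (w 1) (w 2) (w 3)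
      (k j) (N j) (w j) = true ∧
      f (w 0 + w 1 * T.B + (w 2 * T.B2 + w 3 * T.B3)) s' ≠ 0 := by
  unfold K.rdw at h
  obtain ⟨h0, hh0, h⟩ := fc_ne h
  obtain ⟨w0, w1, w2, w3, s', b0, b1, b2, b3, h⟩ := rd4_ne h
  obtain ⟨hp, h⟩ := rec0_ne h
  obtain ⟨W, hW, h⟩ := fc_ne h
  have hlt : Nat.div h0 4 ≤ 63 := by
    have h1 : h0 < 256 := by
      rw [hh0]
      exact Nat.mod_lt _ (by norm_num)
    change h0 / 4 ≤ 63
    omega
  have hle : 2 ^ Nat.div h0 4 ≤ 2 ^ 63 := Nat.pow_le_pow_right (by norm_num) hlt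
  obtain ⟨j, hj⟩ := sel_eq (Nat.mod h0 4)
  refine ⟨![w0, w1, w2, w3], j, s', ?_, ?_, ?_⟩
  · intro i
    fin_cases i
    · exact lt_of_lt_of_le b0 hle
    · exact lt_of_lt_of_le b1 hle
    · exact lt_of_lt_of_le b2 hle
    · exact lt_of_lt_of_le b3 hle
  · have e1 : ![k 0, k 1, k 2, k 3] = k := by
      ext i
      fin_cases i <;> rfl
    have e2 : ![N 0, N 1, N 2, N 3] = N := by
      ext i
      fin_cases i <;> rfl
    rw [hj, hj, hj, e1, e2] at hp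
    exact hp
  · rw [hW] at h
    exact h

theorem rdw_der {T : K.TCtx} {G F : M4} {e : Fin 4 → Z4} {x : Z4} {k N : Fin 4 → ℕ} {s t : ℤ}
    (hB2 : T.B2 = T.B * T.B) (hB3 : T.B3 = T.B * T.B2)
    (hG : Lat G) (hr : ∀ i, IsRoot G (e i)) (hx : IsRoot G x) (ho : ∀ i, bz G (e i) x ≤ 0)
    (ht : 0 < t) (hs : 0 < s) (hk : ∀ i, s * bz G (e i) (e i) = t * k i)
    (hN : ∀ i, N i = nn G (e i) x)
    (hF : ∀ y i, bz G (e i) (e i) * F.mulVec y i = 2 * bz G y (e i)) {st : ℕ} {f : ℕ → ℕ → ℕ}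
    (h : K.rdw T (k 0) (k 1) (k 2) (k 3) (N 0) (N 1) (N 2) (N 3) st f ≠ 0) :
    ∃ W s' : ℕ, f W s' ≠ 0 ∧ ∀ c : K.Ctx, c.B = T.B → Der c F W x := by
  obtain ⟨w, j, s', hw, hp, h⟩ := rdw_ne h
  obtain ⟨s1, t1, hs1, ht1, hst⟩ := prop4_der hG hr hx ho ht hs hk hN hF j hp
  refine ⟨_, s', h, fun c hc => ⟨fun i => (w i : ℤ), s1, t1, hs1, ht1, fun i => ⟨?_, ?_⟩, ?_, hst⟩⟩
  · exact Int.natCast_nonneg _
  · have h1 : ((w i : ℕ) : ℤ) < 2 ^ 63 := by exact_mod_cast hw i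
    exact h1
  · rw [Fin.sum_univ_four, hc, hB3, hB2]
    push_cast
    simp only [Fin.val_zero, Fin.val_one, Fin.val_two, show ((3 : Fin 4) : ℕ) = 3 from rfl]
    ring

/-! ### the entries of `P` -/

/-- the coefficients as a function -/
def cf (c01 c10 c02 c20 c12 c21 c03 c30 c13 c31 c23 c32 : ℕ) : Fin 4 → Fin 4 → ℕ := fun i j =>
  ![![0, c01, c02, c03], ![c10, 0, c12, c13], ![c20, c21, 0, c23], ![c30, c31, c32, 0]] i j

section entries

variable (c01 c10 c02 c20 c12 c21 c03 c30 c13 c31 c23 c32 : ℕ)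

theorem C00 : (cMat (cf c01 c10 c02 c20 c12 c21 c03 c30 c13 c31 c23 c32)) 0 0 = 2 := rfl
theorem C11 : (cMat (cf c01 c10 c02 c20 c12 c21 c03 c30 c13 c31 c23 c32)) 1 1 = 2 := rfl
theorem C22 : (cMat (cf c01 c10 c02 c20 c12 c21 c03 c30 c13 c31 c23 c32)) 2 2 = 2 := rfl
theorem C33 : (cMat (cf c01 c10 c02 c20 c12 c21 c03 c30 c13 c31 c23 c32)) 3 3 = 2 := rfl
theorem C01 : (cMat (cf c01 c10 c02 c20 c12 c21 c03 c30 c13 c31 c23 c32)) 0 1 = -(c01 : ℤ) := rfl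
theorem C02 : (cMat (cf c01 c10 c02 c20 c12 c21 c03 c30 c13 c31 c23 c32)) 0 2 = -(c02 : ℤ) := rfl
theorem C03 : (cMat (cf c01 c10 c02 c20 c12 c21 c03 c30 c13 c31 c23 c32)) 0 3 = -(c03 : ℤ) := rfl
theorem C10 : (cMat (cf c01 c10 c02 c20 c12 c21 c03 c30 c13 c31 c23 c32)) 1 0 = -(c10 : ℤ) := rfl
theorem C12 : (cMat (cf c01 c10 c02 c20 c12 c21 c03 c30 c13 c31 c23 c32)) 1 2 = -(c12 : ℤ) := rfl
theorem C13 : (cMat (cf c01 c10 c02 c20 c12 c21 c03 c30 c13 c31 c23 c32)) 1 3 = -(c13 : ℤ) := rfl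
theorem C20 : (cMat (cf c01 c10 c02 c20 c12 c21 c03 c30 c13 c31 c23 c32)) 2 0 = -(c20 : ℤ) := rfl
theorem C21 : (cMat (cf c01 c10 c02 c20 c12 c21 c03 c30 c13 c31 c23 c32)) 2 1 = -(c21 : ℤ) := rfl
theorem C23 : (cMat (cf c01 c10 c02 c20 c12 c21 c03 c30 c13 c31 c23 c32)) 2 3 = -(c23 : ℤ) := rfl
theorem C30 : (cMat (cf c01 c10 c02 c20 c12 c21 c03 c30 c13 c31 c23 c32)) 3 0 = -(c30 : ℤ) := rfl
theorem C31 : (cMat (cf c01 c10 c02 c20 c12 c21 c03 c30 c13 c31 c23 c32)) 3 1 = -(c31 : ℤ) := rfl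
theorem C32 : (cMat (cf c01 c10 c02 c20 c12 c21 c03 c30 c13 c31 c23 c32)) 3 2 = -(c32 : ℤ) := rfl

theorem A01 :
    (cMat (cf c01 c10 c02 c20 c12 c21 c03 c30 c13 c31 c23 c32)).adjugate 0 1 = cofZ c01 (c23 * c32) c02 c21 c03 c31 c23 c32 := by
  rw [adj01, C01, C02, C03, C21, C22, C23, C31, C32, C33]
  unfold cofZ
  push_cast
  ring
theorem A02 :
    (cMat (cf c01 c10 c02 c20 c12 c21 c03 c30 c13 c31 c23 c32)).adjugate 0 2 = cofZ c02 (c13 * c31) c01 c12 c03 c32 c13 c31 := by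
  rw [adj02, C01, C02, C03, C11, C12, C13, C31, C32, C33]
  unfold cofZ
  push_cast
  ring
theorem A03 :
    (cMat (cf c01 c10 c02 c20 c12 c21 c03 c30 c13 c31 c23 c32)).adjugate 0 3 = cofZ c03 (c12 * c21) c01 c13 c02 c23 c12 c21 := by
  rw [adj03, C01, C02, C03, C11, C12, C13, C21, C22, C23]
  unfold cofZ
  push_cast
  ring
theorem A12 :
    (cMat (cf c01 c10 c02 c20 c12 c21 c03 c30 c13 c31 c23 c32)).adjugate 1 2 = cofZ c12 (c03 * c30) c10 c02 c13 c32 c03 c30 := by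
  rw [adj12, C00, C02, C03, C10, C12, C13, C30, C32, C33]
  unfold cofZ
  push_cast
  ring
theorem A13 :
    (cMat (cf c01 c10 c02 c20 c12 c21 c03 c30 c13 c31 c23 c32)).adjugate 1 3 = cofZ c13 (c02 * c20) c10 c03 c12 c23 c02 c20 := by
  rw [adj13, C00, C02, C03, C10, C12, C13, C20, C22, C23]
  unfold cofZ
  push_cast
  ring
theorem A23 :
    (cMat (cf c01 c10 c02 c20 c12 c21 c03 c30 c13 c31 c23 c32)).adjugate 2 3 = cofZ c23 (c01 * c10) c20 c03 c21 c13 c01 c10 := by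
  rw [adj23, C00, C01, C03, C10, C11, C13, C20, C21, C23]
  unfold cofZ
  push_cast
  ring
theorem A00 :
    (cMat (cf c01 c10 c02 c20 c12 c21 c03 c30 c13 c31 c23 c32)).adjugate 0 0 = 8 - 2 * ((c12 : ℤ) * c21 + c13 * c31 + c23 * c32) -
    (c12 * c23 * c31 + c13 * c32 * c21) := by
  rw [adj00, C11, C12, C13, C21, C22, C23, C31, C32, C33]
  ring
theorem A11 :
    (cMat (cf c01 c10 c02 c20 c12 c21 c03 c30 c13 c31 c23 c32)).adjugate 1 1 = 8 - 2 * ((c02 : ℤ) * c20 + c03 * c30 + c23 * c32) -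
    (c02 * c23 * c30 + c03 * c32 * c20) := by
  rw [adj11, C00, C02, C03, C20, C22, C23, C30, C32, C33]
  ring
theorem A22 :
    (cMat (cf c01 c10 c02 c20 c12 c21 c03 c30 c13 c31 c23 c32)).adjugate 2 2 = 8 - 2 * ((c01 : ℤ) * c10 + c03 * c30 + c13 * c31) -
    (c01 * c13 * c30 + c03 * c31 * c10) := by
  rw [adj22, C00, C01, C03, C10, C11, C13, C30, C31, C33]
  ring
theorem A33 :
    (cMat (cf c01 c10 c02 c20 c12 c21 c03 c30 c13 c31 c23 c32)).adjugate 3 3 = 8 - 2 * ((c01 : ℤ) * c10 + c02 * c20 + c12 * c21) -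
    (c01 * c12 * c20 + c02 * c21 * c10) := by
  rw [adj33, C00, C01, C02, C10, C11, C12, C20, C21, C22]
  ring

end entries

theorem diag_abs {x1 x2 x3 y1 y2 y3 z1 z2 z3 w1 w2 w3 : ℕ} (h1 : x1 ≤ 4095) (h2 : x2 ≤ 4095)
    (h3 : x3 ≤ 4095) (h4 : y1 ≤ 4095) (h5 : y2 ≤ 4095) (h6 : y3 ≤ 4095) (h7 : z1 ≤ 4095)
    (h8 : z2 ≤ 4095) (h9 : z3 ≤ 4095) (h10 : w1 ≤ 4095)
    (h11 : w2 ≤ 4095) (h12 : w3 ≤ 4095) :
    |8 - 2 * ((x1 : ℤ) * y1 + x2 * y2 + x3 * y3) - (z1 * z2 * z3 + w1 * w2 * w3)| ≤ 2 ^ 38 := by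
  have a1 : x1 * y1 ≤ 4095 * 4095 := Nat.mul_le_mul h1 h4
  have a2 : x2 * y2 ≤ 4095 * 4095 := Nat.mul_le_mul h2 h5
  have a3 : x3 * y3 ≤ 4095 * 4095 := Nat.mul_le_mul h3 h6
  have a4 : z1 * z2 * z3 ≤ 4095 * 4095 * 4095 := Nat.mul_le_mul (Nat.mul_le_mul h7 h8) h9
  have a5 : w1 * w2 * w3 ≤ 4095 * 4095 * 4095 := Nat.mul_le_mul (Nat.mul_le_mul h10 h11) h12
  have e : 8 - 2 * ((x1 : ℤ) * y1 + x2 * y2 + x3 * y3) - (z1 * z2 * z3 + w1 * w2 * w3) =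
      8 - 2 * (((x1 * y1 : ℕ) : ℤ) + ((x2 * y2 : ℕ) : ℤ) + ((x3 * y3 : ℕ) : ℤ)) -
      (((z1 * z2 * z3 : ℕ) : ℤ) + ((w1 * w2 * w3 : ℕ) : ℤ)) := by
    push_cast
    ring
  rw [e, abs_le]
  clear e
  generalize x1 * y1 = p1 at *
  generalize x2 * y2 = p2 at *
  generalize x3 * y3 = p3 at *
  generalize z1 * z2 * z3 = p4 at *
  generalize w1 * w2 * w3 = p5 at *
  constructor <;> omega

theorem kP_abs {k : ℕ} {z : ℤ} (hk : k < 2 ^ 32) (hz : |z| ≤ 2 ^ 38) : |(k : ℤ) * z| ≤ 2 ^ 70 := by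
  rw [abs_mul, abs_of_nonneg (Int.natCast_nonneg k)]
  have h1 : (k : ℤ) ≤ 2 ^ 32 := by exact_mod_cast hk.le
  calc (k : ℤ) * |z| ≤ 2 ^ 32 * 2 ^ 38 := mul_le_mul h1 hz (abs_nonneg _) (by positivity)
    _ = 2 ^ 70 := by norm_num

/-- packing of a column -/
theorem pk_col {c : K.Ctx} (hQ : 4095 ≤ c.Q) (hB2 : c.B2 = c.B * c.B) (hB3 : c.B3 = c.B * c.B2)
    (hOm : c.Om = c.Q * (1 + c.B + (c.B2 + c.B3))) {x a p : ℕ} {v : Z4} (hp : p ≤ c.Om + a)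
    (hx : x = c.Om + a - p)
    (hv : (a : ℤ) - p = v 0 + v 1 * c.B + v 2 * c.B2 + v 3 * c.B3) (hb : ∀ j, |v j| ≤ 4095) :
    Pk c x v := by
  refine ⟨?_, fun j => le_trans (hb j) (by exact_mod_cast hQ)⟩
  unfold Pg
  rw [hx, Nat.cast_sub hp, Fin.sum_univ_four]
  simp only [Fin.val_zero, Fin.val_one, Fin.val_two, show ((3 : Fin 4) : ℕ) = 3 from rfl]
  push_cast
  have e1 : (c.Om : ℤ) + a - p = c.Om + (a - p) := by ring
  rw [e1, hv, hOm, hB3, hB2]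
  push_cast
  ring

end Pool.Agent.Refl.H46
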