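import Pool.Agent.Helper23_Refl.StmtC2
import Pool.Agent.Helper46_Refl.DetId
import Pool.Agent.Helper46_Refl.Alg

/-!
# Base for LEAF and LEAVES: kernel combinators, cofactors
-/

set_option autoImplicit false

namespace Pool.Agent.Refl.H46

open Matrix Pool.Agent.Refl

/-! ### kernel combinators -/

theorem fc_eq {α : Type} (n : ℕ) (f : ℕ → α) : K.fc n f = f n := by
  cases n <;> rfl

theorem fc_ne {n : ℕ} {f : ℕ → ℕ} (h : K.fc n f ≠ 0) : ∃ m, m = n ∧ f m ≠ 0 := by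
  rw [fc_eq] at h
  exact ⟨n, rfl, h⟩

theorem ands_true {a b : Bool} : K.ands a b = true ↔ a = true ∧ b = true := by
  cases a <;> cases b <;> decide

theorem notb_true {a : Bool} : K.notb a = true ↔ a = false := by
  cases a <;> decide

theorem beq_true {a b : ℕ} : Nat.beq a b = true ↔ a = b :=
  ⟨Nat.eq_of_beq_eq_true, fun h => by subst h; exact Nat.beq_refl a⟩

theorem ble_true {a b : ℕ} : Nat.ble a b = true ↔ a ≤ b :=
  ⟨Nat.le_of_ble_eq_true, Nat.ble_eq_true_of_le⟩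

theorem blt_true {a b : ℕ} : Nat.blt a b = true ↔ a < b :=
  ⟨fun h => Nat.le_of_ble_eq_true h, fun h => Nat.ble_eq_true_of_le h⟩

theorem notb_beq {a b : ℕ} : K.notb (Nat.beq a b) = true ↔ a ≠ b := by
  rw [notb_true, ne_eq, ← beq_true, Bool.not_eq_true]

theorem rec0_ne {b : Bool} {x : ℕ} (h : (Bool.rec 0 x b : ℕ) ≠ 0) : b = true ∧ x ≠ 0 := by
  cases b
  · exact absurd rfl h
  · exact ⟨rfl, h⟩

theorem okb_ne {b : Bool} {x : ℕ} (h : K.okb b x ≠ 0) : b = true := by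
  cases b
  · exact absurd rfl h
  · rfl

theorem sel_eq (n : ℕ) : ∃ j : Fin 4, ∀ a b c d : ℕ, K.sel n a b c d = ![a, b, c, d] j := by
  rcases n with _ | _ | _ | n
  · exact ⟨0, fun _ _ _ _ => rfl⟩
  · exact ⟨1, fun _ _ _ _ => rfl⟩
  · exact ⟨2, fun _ _ _ _ => rfl⟩
  · exact ⟨3, fun _ _ _ _ => rfl⟩

theorem rd4_ne {w s : ℕ} {f : ℕ → ℕ → ℕ → ℕ → ℕ → ℕ} (h : K.rd4 w s f ≠ 0) :
    ∃ z0 z1 z2 z3 s', z0 < 2 ^ w ∧ z1 < 2 ^ w ∧ z2 < 2 ^ w ∧ z3 < 2 ^ w ∧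
      f z0 z1 z2 z3 s' ≠ 0 := by
  unfold K.rd4 at h
  obtain ⟨W, hW, h⟩ := fc_ne h
  obtain ⟨h0, hh0, h⟩ := fc_ne h
  obtain ⟨s', hs', h⟩ := fc_ne h
  have hW' : W = 2 ^ w := hW
  have hWp : 0 < W := by rw [hW']; positivity
  refine ⟨_, _, _, _, _, ?_, ?_, ?_, ?_, h⟩
  · rw [← hW']; exact Nat.mod_lt _ hWp
  · rw [← hW']; exact Nat.mod_lt _ hWp
  · rw [← hW']; exact Nat.mod_lt _ hWp
  · rw [← hW']
    change h0 / W ^ 3 < W
    have h1 : h0 < W ^ 4 := by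
      rw [hh0]
      exact Nat.mod_lt _ (by change 0 < W ^ 4; positivity)
    rw [Nat.div_lt_iff_lt_mul (by positivity)]
    calc h0 < W ^ 4 := h1
      _ = W * W ^ 3 := by ring

/-! ### the coefficients `c i j` -/

theorem nn_c {G : M4} (hG : Lat G) {a b : Z4} (ha : IsRoot G a) (hb : IsRoot G b) {x y : ℕ}
    (hx : (x : ℤ) * bz G a a = -(2 * bz G a b)) (hy : (y : ℤ) * bz G b b = -(2 * bz G b a)) :
    nn G a b = x * y := by
  have h1 := nnm hG ha hb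
  have h2 : ((nn G a b : ℕ) : ℤ) * (bz G a a * bz G b b) =
      ((x * y : ℕ) : ℤ) * (bz G a a * bz G b b) := by
    rw [h1]
    push_cast
    rw [hG.zcomm b a] at hy
    calc 4 * bz G a b ^ 2 = (-(2 * bz G a b)) * (-(2 * bz G a b)) := by ring
      _ = ((x : ℤ) * bz G a a) * ((y : ℤ) * bz G b b) := by rw [hx, hy]
      _ = _ := by ring
  exact_mod_cast mul_right_cancel₀ (mul_pos ha.pos hb.pos).ne' h2

theorem c_le {G : M4} (hG : Lat G) {a b : Z4} (ha : IsRoot G a) (hb : IsRoot G b) {x y : ℕ}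
    (hx : (x : ℤ) * bz G a a = -(2 * bz G a b)) (hy : (y : ℤ) * bz G b b = -(2 * bz G b a)) :
    x ≤ nn G a b := by
  rw [nn_c hG ha hb hx hy]
  rcases Nat.eq_zero_or_pos y with h0 | h0
  · rw [h0] at hy
    have h1 : bz G b a = 0 := by
      push_cast at hy
      linarith
    rw [← hG.zcomm a b] at h1
    rw [h1] at hx
    have h2 : (x : ℤ) * bz G a a = 0 := by rw [hx]; ring
    rcases mul_eq_zero.1 h2 with h3 | h3
    · have : x = 0 := by exact_mod_cast h3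
      rw [this]
      exact Nat.zero_le _
    · exact absurd h3 ha.pos.ne'
  · exact Nat.le_mul_of_pos_right x h0

/-- the cyclic product is the square root -/
theorem t_c {G : M4} (hG : Lat G) {a b c : Z4} (ha : IsRoot G a) (hb : IsRoot G b)
    (hc : IsRoot G c) {x y z : ℕ}
    (hx : (x : ℤ) * bz G a a = -(2 * bz G a b)) (hy : (y : ℤ) * bz G b b = -(2 * bz G b c))
    (hz : (z : ℤ) * bz G c c = -(2 * bz G c a)) (hab : bz G a b ≤ 0) (hbc : bz G b c ≤ 0)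
    (hac : bz G a c ≤ 0) :
    Nat.sqrt (nn G a b * nn G a c * nn G b c) = x * y * z := by
  have h1 := tri_eq hG ha hb hc hab hbc hac
  have h0 : nn G a b * nn G a c * nn G b c = nn G a b * nn G b c * nn G a c := by ring
  rw [h0]
  have h2 : ((Nat.sqrt (nn G a b * nn G b c * nn G a c) : ℕ) : ℤ) *
      (bz G a a * bz G b b * bz G c c) =
      ((x * y * z : ℕ) : ℤ) * (bz G a a * bz G b b * bz G c c) := by
    rw [h1]
    push_cast
    rw [hG.zcomm c a] at hz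
    calc -8 * (bz G a b * bz G b c * bz G a c) =
        (-(2 * bz G a b)) * (-(2 * bz G b c)) * (-(2 * bz G a c)) := by ring
      _ = ((x : ℤ) * bz G a a) * ((y : ℤ) * bz G b b) * ((z : ℤ) * bz G c c) := by
        rw [hx, hy, hz]
      _ = _ := by ring
  exact_mod_cast mul_right_cancel₀ (mul_pos (mul_pos ha.pos hb.pos) hc.pos).ne' h2

/-! ### cofactors -/

/-- the integral cofactor -/
def cofZ (cij Nkl cik ckj cil clj ckl clk : ℕ) : ℤ :=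
  (cij : ℤ) * (4 - Nkl) + 2 * ((cik : ℤ) * ckj + cil * clj) +
    ((cik : ℤ) * ckl * clj + cil * clk * ckj)

theorem cof_mod {Q cij Nkl cik ckj cil clj ckl clk : ℕ} (hN : Nkl ≤ Q) :
    (Q : ℤ) ∣ cofZ cij Nkl cik ckj cil clj ckl clk -
      (K.cof Q cij Nkl cik ckj cil clj ckl clk : ℕ) := by
  have h1 : K.cof Q cij Nkl cik ckj cil clj ckl clk =
    cij * (4 + Q - Nkl) + 2 * (cik * ckj + cil * clj) +
      (cik * ckl * clj + cil * clk * ckj) := rfl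
  rw [h1]
  refine ⟨-(cij : ℤ), ?_⟩
  unfold cofZ
  push_cast [Nat.cast_sub (show Nkl ≤ 4 + Q by omega)]
  ring

theorem cofZ_abs {cij Nkl cik ckj cil clj ckl clk : ℕ} (h1 : cij ≤ 4095) (h2 : Nkl ≤ 4095)
    (h3 : cik ≤ 4095) (h4 : ckj ≤ 4095) (h5 : cil ≤ 4095) (h6 : clj ≤ 4095) (h7 : ckl ≤ 4095)
    (h8 : clk ≤ 4095) : |cofZ cij Nkl cik ckj cil clj ckl clk| ≤ 2 ^ 38 := by
  have a1 : cij * Nkl ≤ 4095 * 4095 := Nat.mul_le_mul h1 h2
  have a2 : cik * ckj ≤ 4095 * 4095 := Nat.mul_le_mul h3 h4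
  have a3 : cil * clj ≤ 4095 * 4095 := Nat.mul_le_mul h5 h6
  have a4 : cik * ckl * clj ≤ 4095 * 4095 * 4095 := Nat.mul_le_mul (Nat.mul_le_mul h3 h7) h6
  have a5 : cil * clk * ckj ≤ 4095 * 4095 * 4095 := Nat.mul_le_mul (Nat.mul_le_mul h5 h8) h4
  have e : cofZ cij Nkl cik ckj cil clj ckl clk = 4 * (cij : ℤ) - ((cij * Nkl : ℕ) : ℤ) +
      2 * (((cik * ckj : ℕ) : ℤ) + ((cil * clj : ℕ) : ℤ)) +
      (((cik * ckl * clj : ℕ) : ℤ) + ((cil * clk * ckj : ℕ) : ℤ)) := by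
    unfold cofZ
    push_cast
    ring
  rw [e, abs_le]
  clear e
  generalize cij * Nkl = p1 at *
  generalize cik * ckj = p2 at *
  generalize cil * clj = p3 at *
  generalize cik * ckl * clj = p4 at *
  generalize cil * clk * ckj = p5 at *
  constructor <;> omega

theorem mod_pair {Q k m : ℕ} {z : ℤ} (hQ : 0 < Q) (h : (Q : ℤ) ∣ z - (m : ℕ)) :
    (k * m) % Q < Q ∧ (Q : ℤ) ∣ (k : ℤ) * z - ((k * m) % Q : ℕ) := by
  refine ⟨Nat.mod_lt _ hQ, ?_⟩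
  have h1 : (k : ℤ) * z - ((k * m) % Q : ℕ) = k * (z - m) + Q * ((k * m / Q : ℕ) : ℤ) := by
    have h2 : ((k * m : ℕ) : ℤ) = Q * ((k * m / Q : ℕ) : ℤ) + ((k * m % Q : ℕ) : ℤ) := by
      exact_mod_cast (Nat.div_add_mod (k * m) Q).symm
    push_cast at h2 ⊢
    linarith
  rw [h1]
  exact dvd_add (Dvd.dvd.mul_left h _) (Dvd.intro _ rfl)

theorem adj00 (M : M4) : M.adjugate 0 0 =
    M 1 1 * M 2 2 * M 3 3 - M 1 1 * M 2 3 * M 3 2 - M 1 2 * M 2 1 * M 3 3 +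
    M 1 2 * M 2 3 * M 3 1 + M 1 3 * M 2 1 * M 3 2 - M 1 3 * M 2 2 * M 3 1 := by
  rw [adjugate_fin_succ_eq_det_submatrix]
  simp only [det_fin_three, submatrix_apply, Fin.succAbove]
  simp

theorem adj11 (M : M4) : M.adjugate 1 1 =
    M 0 0 * M 2 2 * M 3 3 - M 0 0 * M 2 3 * M 3 2 - M 0 2 * M 2 0 * M 3 3 +
    M 0 2 * M 2 3 * M 3 0 + M 0 3 * M 2 0 * M 3 2 - M 0 3 * M 2 2 * M 3 0 := by
  rw [adjugate_fin_succ_eq_det_submatrix]
  simp only [det_fin_three, submatrix_apply, Fin.succAbove]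
  simp

theorem adj22 (M : M4) : M.adjugate 2 2 =
    M 0 0 * M 1 1 * M 3 3 - M 0 0 * M 1 3 * M 3 1 - M 0 1 * M 1 0 * M 3 3 +
    M 0 1 * M 1 3 * M 3 0 + M 0 3 * M 1 0 * M 3 1 - M 0 3 * M 1 1 * M 3 0 := by
  rw [adjugate_fin_succ_eq_det_submatrix]
  simp only [det_fin_three, submatrix_apply, Fin.succAbove]
  simp

theorem adj33 (M : M4) : M.adjugate 3 3 =
    M 0 0 * M 1 1 * M 2 2 - M 0 0 * M 1 2 * M 2 1 - M 0 1 * M 1 0 * M 2 2 +
    M 0 1 * M 1 2 * M 2 0 + M 0 2 * M 1 0 * M 2 1 - M 0 2 * M 1 1 * M 2 0 := by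
  rw [adjugate_fin_succ_eq_det_submatrix]
  simp only [det_fin_three, submatrix_apply, Fin.succAbove]
  simp

theorem adj01 (M : M4) : M.adjugate 0 1 =
    -(M 0 1 * M 2 2 * M 3 3 - M 0 1 * M 2 3 * M 3 2 - M 0 2 * M 2 1 * M 3 3 +
    M 0 2 * M 2 3 * M 3 1 + M 0 3 * M 2 1 * M 3 2 - M 0 3 * M 2 2 * M 3 1) := by
  rw [adjugate_fin_succ_eq_det_submatrix]
  simp only [det_fin_three, submatrix_apply, Fin.succAbove]
  simp

theorem adj02 (M : M4) : M.adjugate 0 2 =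
    M 0 1 * M 1 2 * M 3 3 - M 0 1 * M 1 3 * M 3 2 - M 0 2 * M 1 1 * M 3 3 +
    M 0 2 * M 1 3 * M 3 1 + M 0 3 * M 1 1 * M 3 2 - M 0 3 * M 1 2 * M 3 1 := by
  rw [adjugate_fin_succ_eq_det_submatrix]
  simp only [det_fin_three, submatrix_apply, Fin.succAbove]
  simp

theorem adj03 (M : M4) : M.adjugate 0 3 =
    -(M 0 1 * M 1 2 * M 2 3 - M 0 1 * M 1 3 * M 2 2 - M 0 2 * M 1 1 * M 2 3 +
    M 0 2 * M 1 3 * M 2 1 + M 0 3 * M 1 1 * M 2 2 - M 0 3 * M 1 2 * M 2 1) := by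
  rw [adjugate_fin_succ_eq_det_submatrix]
  simp only [det_fin_three, submatrix_apply, Fin.succAbove]
  simp [Odd.neg_one_pow (show Odd 3 by decide)]

theorem adj12 (M : M4) : M.adjugate 1 2 =
    -(M 0 0 * M 1 2 * M 3 3 - M 0 0 * M 1 3 * M 3 2 - M 0 2 * M 1 0 * M 3 3 +
    M 0 2 * M 1 3 * M 3 0 + M 0 3 * M 1 0 * M 3 2 - M 0 3 * M 1 2 * M 3 0) := by
  rw [adjugate_fin_succ_eq_det_submatrix]
  simp only [det_fin_three, submatrix_apply, Fin.succAbove]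
  simp [Odd.neg_one_pow (show Odd 3 by decide)]

theorem adj13 (M : M4) : M.adjugate 1 3 =
    M 0 0 * M 1 2 * M 2 3 - M 0 0 * M 1 3 * M 2 2 - M 0 2 * M 1 0 * M 2 3 +
    M 0 2 * M 1 3 * M 2 0 + M 0 3 * M 1 0 * M 2 2 - M 0 3 * M 1 2 * M 2 0 := by
  rw [adjugate_fin_succ_eq_det_submatrix]
  simp only [det_fin_three, submatrix_apply, Fin.succAbove]
  simp [Even.neg_one_pow (show Even 4 by decide)]

theorem adj23 (M : M4) : M.adjugate 2 3 =
    -(M 0 0 * M 1 1 * M 2 3 - M 0 0 * M 1 3 * M 2 1 - M 0 1 * M 1 0 * M 2 3 +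
    M 0 1 * M 1 3 * M 2 0 + M 0 3 * M 1 0 * M 2 1 - M 0 3 * M 1 1 * M 2 0) := by
  rw [adjugate_fin_succ_eq_det_submatrix]
  simp only [det_fin_three, submatrix_apply, Fin.succAbove]
  simp [Odd.neg_one_pow (show Odd 5 by decide)]

end Pool.Agent.Refl.H46
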