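import Pool.Agent.Helper46_Refl.Leaf

/-!
# LEAF: the environment of a leaf
-/

set_option autoImplicit false

namespace Pool.Agent.Refl.H46

open Matrix Pool.Agent.Refl

/-- inclusion of the four roots -/
def ci (i : Fin 4) : Fin 6 := Fin.castLE (by norm_num) i

theorem gdiag {Q k e A B C x1 y1 x2 y2 x3 y3 z1 z2 z3 w1 w2 w3 : ℕ} (hQ : 0 < Q)
    (h : (Q : ℤ) ∣ (e : ℤ) - (8 - 2 * ((A : ℤ) + B + C + Nat.sqrt (A * B * C))))
    (hA : A = x1 * y1) (hB : B = x2 * y2) (hC : C = x3 * y3)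
    (ht : Nat.sqrt (A * B * C) = z1 * z2 * z3 ∧ Nat.sqrt (A * B * C) = w1 * w2 * w3) :
    (k * e) % Q < Q ∧ (Q : ℤ) ∣ (k : ℤ) * (8 - 2 * ((x1 : ℤ) * y1 + x2 * y2 + x3 * y3) -
      (z1 * z2 * z3 + w1 * w2 * w3)) - ((k * e) % Q : ℕ) := by
  refine mod_pair hQ ?_
  have h2 : (Nat.sqrt (A * B * C) : ℤ) = z1 * z2 * z3 := by exact_mod_cast ht.1
  have h3 : (Nat.sqrt (A * B * C) : ℤ) = w1 * w2 * w3 := by exact_mod_cast ht.2
  have h4 : (A : ℤ) = x1 * y1 := by exact_mod_cast hA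
  have h5 : (B : ℤ) = x2 * y2 := by exact_mod_cast hB
  have h6 : (C : ℤ) = x3 * y3 := by exact_mod_cast hC
  have h7 : (8 - 2 * ((x1 : ℤ) * y1 + x2 * y2 + x3 * y3) -
      (z1 * z2 * z3 + w1 * w2 * w3)) = 8 - 2 * ((A : ℤ) + B + C + Nat.sqrt (A * B * C)) := by
    rw [h4, h5, h6]
    linarith
  rw [h7, dvd_sub_comm]
  exact h

theorem leaf_env (T : K.TCtx) (G : M4) (e : Fin 6 → Z4) (k0 k1 k2 k3 : ℕ) (s t : ℤ)
    (hT : TOK T G e) (hs : 0 < s) (ht : 0 < t)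
    (hk0 : s * bz G (e 0) (e 0) = t * k0) (hk1 : s * bz G (e 1) (e 1) = t * k1)
    (hk2 : s * bz G (e 2) (e 2) = t * k2) (hk3 : s * bz G (e 3) (e 3) = t * k3)
    (hb0 : k0 < 2 ^ 32) (hb1 : k1 < 2 ^ 32) (hb2 : k2 < 2 ^ 32) (hb3 : k3 < 2 ^ 32)
    (c01 c10 c02 c20 c12 c21 c03 c30 c13 c31 c23 c32 : ℕ)
    (hc : ∀ i j : Fin 4, i ≠ j →
      (cf c01 c10 c02 c20 c12 c21 c03 c30 c13 c31 c23 c32 i j : ℤ) *
        bz G (e (ci i)) (e (ci i)) = -(2 * bz G (e (ci i)) (e (ci j))))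
    (P01 P02 P03 P12 P13 P23 r0 r1 r2 r3 x0 x1 x2 x3 : ℕ)
    (hP01 : P01 = (k0 * K.cof T.Q c01 T.N23 c02 c21 c03 c31 c23 c32) % T.Q)
    (hP02 : P02 = (k0 * K.cof T.Q c02 T.N13 c01 c12 c03 c32 c13 c31) % T.Q)
    (hP03 : P03 = (k0 * K.cof T.Q c03 T.N12 c01 c13 c02 c23 c12 c21) % T.Q)
    (hP12 : P12 = (k1 * K.cof T.Q c12 T.N03 c10 c02 c13 c32 c03 c30) % T.Q)
    (hP13 : P13 = (k1 * K.cof T.Q c13 T.N02 c10 c03 c12 c23 c02 c20) % T.Q)
    (hP23 : P23 = (k2 * K.cof T.Q c23 T.N01 c20 c03 c21 c13 c01 c10) % T.Q)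
    (hr0 : r0 = K.row4 T.B ((k0 * T.e0) % T.Q) P01 P02 P03)
    (hr1 : r1 = K.row4 T.B P01 ((k1 * T.e1) % T.Q) P12 P13)
    (hr2 : r2 = K.row4 T.B P02 P12 ((k2 * T.e2) % T.Q) P23)
    (hr3 : r3 = K.row4 T.B P03 P13 P23 ((k3 * T.e3) % T.Q))
    (hx0 : x0 = T.Om + 2 - (c10 * T.B + (c20 * T.B2 + c30 * T.B3)))
    (hx1 : x1 = T.Om + 2 * T.B - (c01 + (c21 * T.B2 + c31 * T.B3)))
    (hx2 : x2 = T.Om + 2 * T.B2 - (c02 + (c12 * T.B + c32 * T.B3)))
    (hx3 : x3 = T.Om + 2 * T.B3 - (c03 + (c13 * T.B + c23 * T.B2))) :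
    ∃ (P F : M4) (a b : ℤ),
      (∀ x (i : Fin 4), bz G (e (ci i)) (e (ci i)) * F.mulVec x i = 2 * bz G x (e (ci i))) ∧
      ∀ w5 w6 : ℕ,
        (if 1 ≤ T.nd then ∀ c : K.Ctx, c.B = T.B → Der c F w5 (e 4) else w5 = 0) →
        (if 2 ≤ T.nd then ∀ c : K.Ctx, c.B = T.B → Der c F w6 (e 5) else w6 = 0) →
        Env (K.Ctx.mk T.Q T.B T.B2 T.B3 T.Om x0 x1 x2 x3 r0 r1 r2 r3 w5 w6) T.D0 P F G a b
          T.nd e ∧
        NodeOK (K.Ctx.mk T.Q T.B T.B2 T.B3 T.Om x0 x1 x2 x3 r0 r1 r2 r3 w5 w6) T.D0 F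
          x0 x1 x2 x3 T.D0 1 List.nil := by
  have hG := hT.lat
  set e' : Fin 4 → Z4 := fun i => e (ci i) with he'
  have hr' : ∀ i, IsRoot G (e' i) := fun i => hT.root (ci i)
  have hci : ∀ i j : Fin 4, i ≠ j → ci i ≠ ci j := by
    intro i j hij h
    apply hij
    exact Fin.castLE_injective (by norm_num) h
  have ho' : ∀ i j, i ≠ j → bz G (e' i) (e' j) ≤ 0 := by
    intro i j hij
    refine hT.obt (ci i) (ci j) i.2 ?_ (hci i j hij)
    exact lt_of_lt_of_le j.2 (Nat.le_add_right 4 _)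
  set k : Fin 4 → ℕ := ![k0, k1, k2, k3] with hk
  have hk' : ∀ i, s * bz G (e' i) (e' i) = t * k i := by
    intro i
    fin_cases i
    · exact hk0
    · exact hk1
    · exact hk2
    · exact hk3
  have hkb : ∀ i, k i < 2 ^ 32 := by
    intro i
    fin_cases i
    · exact hb0
    · exact hb1
    · exact hb2
    · exact hb3
  set c := cf c01 c10 c02 c20 c12 c21 c03 c30 c13 c31 c23 c32 with hcdef
  have hN01 : T.N01 = nn G (e' 0) (e' 1) := hT.n01
  have hN02 : T.N02 = nn G (e' 0) (e' 2) := hT.n02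
  have hN12 : T.N12 = nn G (e' 1) (e' 2) := hT.n12
  have hN03 : T.N03 = nn G (e' 0) (e' 3) := hT.n03
  have hN13 : T.N13 = nn G (e' 1) (e' 3) := hT.n13
  have hN23 : T.N23 = nn G (e' 2) (e' 3) := hT.n23
  have hNc : ∀ i j, i ≠ j → nn G (e' i) (e' j) = c i j * c j i := fun i j hij =>
    nn_c hG (hr' i) (hr' j) (hc i j hij) (hc j i hij.symm)
  have hcl : ∀ i j, i ≠ j → c i j ≤ nn G (e' i) (e' j) := fun i j hij =>
    c_le hG (hr' i) (hr' j) (hc i j hij) (hc j i hij.symm)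
  have hlt := hT.lt
  have l01 : T.N01 ≤ 4095 := by omega
  have l02 : T.N02 ≤ 4095 := by omega
  have l12 : T.N12 ≤ 4095 := by omega
  have l03 : T.N03 ≤ 4095 := by omega
  have l13 : T.N13 ≤ 4095 := by omega
  have l23 : T.N23 ≤ 4095 := by omega
  have b01 : c01 ≤ 4095 := le_trans (hcl 0 1 (by decide)) (hN01 ▸ l01)
  have b02 : c02 ≤ 4095 := le_trans (hcl 0 2 (by decide)) (hN02 ▸ l02)
  have b03 : c03 ≤ 4095 := le_trans (hcl 0 3 (by decide)) (hN03 ▸ l03)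
  have b12 : c12 ≤ 4095 := le_trans (hcl 1 2 (by decide)) (hN12 ▸ l12)
  have b13 : c13 ≤ 4095 := le_trans (hcl 1 3 (by decide)) (hN13 ▸ l13)
  have b23 : c23 ≤ 4095 := le_trans (hcl 2 3 (by decide)) (hN23 ▸ l23)
  have b10 : c10 ≤ 4095 := le_trans (hcl 1 0 (by decide))
    ((nn_comm hG (hr' 1) (hr' 0)).le.trans (hN01 ▸ l01))
  have b20 : c20 ≤ 4095 := le_trans (hcl 2 0 (by decide))
    ((nn_comm hG (hr' 2) (hr' 0)).le.trans (hN02 ▸ l02))
  have b30 : c30 ≤ 4095 := le_trans (hcl 3 0 (by decide))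
    ((nn_comm hG (hr' 3) (hr' 0)).le.trans (hN03 ▸ l03))
  have b21 : c21 ≤ 4095 := le_trans (hcl 2 1 (by decide))
    ((nn_comm hG (hr' 2) (hr' 1)).le.trans (hN12 ▸ l12))
  have b31 : c31 ≤ 4095 := le_trans (hcl 3 1 (by decide))
    ((nn_comm hG (hr' 3) (hr' 1)).le.trans (hN13 ▸ l13))
  have b32 : c32 ≤ 4095 := le_trans (hcl 3 2 (by decide))
    ((nn_comm hG (hr' 3) (hr' 2)).le.trans (hN23 ▸ l23))
  have m01 : T.N01 = c01 * c10 := hN01.trans (hNc 0 1 (by decide))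
  have m02 : T.N02 = c02 * c20 := hN02.trans (hNc 0 2 (by decide))
  have m03 : T.N03 = c03 * c30 := hN03.trans (hNc 0 3 (by decide))
  have m12 : T.N12 = c12 * c21 := hN12.trans (hNc 1 2 (by decide))
  have m13 : T.N13 = c13 * c31 := hN13.trans (hNc 1 3 (by decide))
  have m23 : T.N23 = c23 * c32 := hN23.trans (hNc 2 3 (by decide))
  -- the numbers t
  have ht3 : ∀ i j l : Fin 4, i ≠ j → j ≠ l → i ≠ l →
      Nat.sqrt (nn G (e' i) (e' j) * nn G (e' i) (e' l) * nn G (e' j) (e' l)) =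
        c i j * c j l * c l i ∧
      Nat.sqrt (nn G (e' i) (e' j) * nn G (e' i) (e' l) * nn G (e' j) (e' l)) =
        c i l * c l j * c j i := by
    intro i j l hij hjl hil
    refine ⟨t_c hG (hr' i) (hr' j) (hr' l) (hc i j hij) (hc j l hjl) (hc l i hil.symm)
      (ho' i j hij) (ho' j l hjl) (ho' i l hil), ?_⟩
    have h1 := t_c hG (hr' i) (hr' l) (hr' j) (hc i l hil) (hc l j hjl.symm) (hc j i hij.symm)
      (ho' i l hil) (ho' l j hjl.symm) (ho' i j hij)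
    rw [← h1, nn_comm hG (hr' l) (hr' j)]
    congr 1
    ring
  have t123 : Nat.sqrt (T.N12 * T.N13 * T.N23) = c12 * c23 * c31 ∧
      Nat.sqrt (T.N12 * T.N13 * T.N23) = c13 * c32 * c21 := by
    rw [hN12, hN13, hN23]
    exact ht3 1 2 3 (by decide) (by decide) (by decide)
  have t023 : Nat.sqrt (T.N02 * T.N03 * T.N23) = c02 * c23 * c30 ∧
      Nat.sqrt (T.N02 * T.N03 * T.N23) = c03 * c32 * c20 := by
    rw [hN02, hN03, hN23]
    exact ht3 0 2 3 (by decide) (by decide) (by decide)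
  have t013 : Nat.sqrt (T.N01 * T.N03 * T.N13) = c01 * c13 * c30 ∧
      Nat.sqrt (T.N01 * T.N03 * T.N13) = c03 * c31 * c10 := by
    rw [hN01, hN03, hN13]
    exact ht3 0 1 3 (by decide) (by decide) (by decide)
  have t012 : Nat.sqrt (T.N01 * T.N02 * T.N12) = c01 * c12 * c20 ∧
      Nat.sqrt (T.N01 * T.N02 * T.N12) = c02 * c21 * c10 := by
    rw [hN01, hN02, hN12]
    exact ht3 0 1 2 (by decide) (by decide) (by decide)
  -- determinant
  have hdet : (cMat c).det = -(T.D0 : ℤ) := by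
    rw [hT.D0, hN01, hN02, hN12, hN03, hN13, hN23]
    exact det_cMat hG hr' ho' hc
  have hD1 := hT.D1
  have hd4 : d4 (e' 0) (e' 1) (e' 2) (e' 3) ≠ 0 := by
    intro h0
    have h1 := detId G e' hG hr' ho'
    rw [← hN01, ← hN02, ← hN12, ← hN03, ← hN13, ← hN23, ← hT.D0, h0] at h1
    have h2 : 0 < bz G (e' 0) (e' 0) * bz G (e' 1) (e' 1) * bz G (e' 2) (e' 2) *
        bz G (e' 3) (e' 3) :=
      mul_pos (mul_pos (mul_pos (hr' 0).pos (hr' 1).pos) (hr' 2).pos) (hr' 3).pos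
    have h3 : (0 : ℤ) < T.D0 := by exact_mod_cast hD1
    have h4 := mul_pos h2 h3
    rw [zero_pow two_ne_zero, mul_zero, mul_zero] at h1
    linarith
  obtain ⟨hCneg, F, hFd, hFx, hFe, hrel, hsym⟩ := alg G e' k c s t hG hr' hd4 hs ht hk' hc
  set P : M4 := (Matrix.diagonal fun i => (k i : ℤ)) * (cMat c).adjugate with hP
  have hPij : ∀ i j, P i j = (k i : ℤ) * (cMat c).adjugate i j := by
    intro i j
    rw [hP, Matrix.diagonal_mul]
  have hPs : ∀ i j, P i j = P j i := by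
    intro i j
    conv_lhs => rw [← hsym]
    rfl
  -- entries
  have p01 : P 0 1 = (k0 : ℤ) * cofZ c01 T.N23 c02 c21 c03 c31 c23 c32 := by
    rw [hPij, m23, hcdef, A01]; rfl
  have p02 : P 0 2 = (k0 : ℤ) * cofZ c02 T.N13 c01 c12 c03 c32 c13 c31 := by
    rw [hPij, m13, hcdef, A02]; rfl
  have p03 : P 0 3 = (k0 : ℤ) * cofZ c03 T.N12 c01 c13 c02 c23 c12 c21 := by
    rw [hPij, m12, hcdef, A03]; rfl
  have p12 : P 1 2 = (k1 : ℤ) * cofZ c12 T.N03 c10 c02 c13 c32 c03 c30 := by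
    rw [hPij, m03, hcdef, A12]; rfl
  have p13 : P 1 3 = (k1 : ℤ) * cofZ c13 T.N02 c10 c03 c12 c23 c02 c20 := by
    rw [hPij, m02, hcdef, A13]; rfl
  have p23 : P 2 3 = (k2 : ℤ) * cofZ c23 T.N01 c20 c03 c21 c13 c01 c10 := by
    rw [hPij, m01, hcdef, A23]; rfl
  have q0 : P 0 0 = (k0 : ℤ) * (8 - 2 * ((c12 : ℤ) * c21 + c13 * c31 + c23 * c32) -
      (c12 * c23 * c31 + c13 * c32 * c21)) := by
    rw [hPij, hcdef, A00]; rfl
  have q1 : P 1 1 = (k1 : ℤ) * (8 - 2 * ((c02 : ℤ) * c20 + c03 * c30 + c23 * c32) -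
      (c02 * c23 * c30 + c03 * c32 * c20)) := by
    rw [hPij, hcdef, A11]; rfl
  have q2 : P 2 2 = (k2 : ℤ) * (8 - 2 * ((c01 : ℤ) * c10 + c03 * c30 + c13 * c31) -
      (c01 * c13 * c30 + c03 * c31 * c10)) := by
    rw [hPij, hcdef, A22]; rfl
  have q3 : P 3 3 = (k3 : ℤ) * (8 - 2 * ((c01 : ℤ) * c10 + c02 * c20 + c12 * c21) -
      (c01 * c12 * c20 + c02 * c21 * c10)) := by
    rw [hPij, hcdef, A33]; rfl
  have hQ : T.Q = 2 ^ 80 * (210 * T.D0) ^ 8 := hT.Q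
  have hQ1 : 4095 ≤ T.Q := by
    rw [hQ]
    have h1 : 1 ≤ (210 * T.D0) ^ 8 := Nat.one_le_pow _ _ (by omega)
    calc 4095 ≤ 2 ^ 80 * 1 := by norm_num
      _ ≤ _ := Nat.mul_le_mul_left _ h1
  have hQ0 : 0 < T.Q := lt_of_lt_of_le (by norm_num) hQ1
  have f01 := mod_pair (k := k0) hQ0 (cof_mod (Q := T.Q) (cij := c01) (cik := c02) (ckj := c21)
    (cil := c03) (clj := c31) (ckl := c23) (clk := c32) (l23.trans hQ1))
  rw [← hP01, ← p01] at f01
  have f02 := mod_pair (k := k0) hQ0 (cof_mod (Q := T.Q) (cij := c02) (cik := c01) (ckj := c12)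
    (cil := c03) (clj := c32) (ckl := c13) (clk := c31) (l13.trans hQ1))
  rw [← hP02, ← p02] at f02
  have f03 := mod_pair (k := k0) hQ0 (cof_mod (Q := T.Q) (cij := c03) (cik := c01) (ckj := c13)
    (cil := c02) (clj := c23) (ckl := c12) (clk := c21) (l12.trans hQ1))
  rw [← hP03, ← p03] at f03
  have f12 := mod_pair (k := k1) hQ0 (cof_mod (Q := T.Q) (cij := c12) (cik := c10) (ckj := c02)
    (cil := c13) (clj := c32) (ckl := c03) (clk := c30) (l03.trans hQ1))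
  rw [← hP12, ← p12] at f12
  have f13 := mod_pair (k := k1) hQ0 (cof_mod (Q := T.Q) (cij := c13) (cik := c10) (ckj := c03)
    (cil := c12) (clj := c23) (ckl := c02) (clk := c20) (l02.trans hQ1))
  rw [← hP13, ← p13] at f13
  have f23 := mod_pair (k := k2) hQ0 (cof_mod (Q := T.Q) (cij := c23) (cik := c20) (ckj := c03)
    (cil := c21) (clj := c13) (ckl := c01) (clk := c10) (l01.trans hQ1))
  rw [← hP23, ← p23] at f23
  have g0 : (k0 * T.e0) % T.Q < T.Q ∧ (T.Q : ℤ) ∣ P 0 0 - ((k0 * T.e0) % T.Q : ℕ) := by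
    rw [q0]
    exact gdiag hQ0 hT.e0.2 m12 m13 m23 t123
  have g1 : (k1 * T.e1) % T.Q < T.Q ∧ (T.Q : ℤ) ∣ P 1 1 - ((k1 * T.e1) % T.Q : ℕ) := by
    rw [q1]
    exact gdiag hQ0 hT.e1.2 m02 m03 m23 t023
  have g2 : (k2 * T.e2) % T.Q < T.Q ∧ (T.Q : ℤ) ∣ P 2 2 - ((k2 * T.e2) % T.Q : ℕ) := by
    rw [q2]
    exact gdiag hQ0 hT.e2.2 m01 m03 m13 t013
  have g3 : (k3 * T.e3) % T.Q < T.Q ∧ (T.Q : ℤ) ∣ P 3 3 - ((k3 * T.e3) % T.Q : ℕ) := by
    rw [q3]
    exact gdiag hQ0 hT.e3.2 m01 m02 m12 t012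
  -- bounds
  have hPb : ∀ i j, |P i j| ≤ 2 ^ 70 := by
    have u01 : |P 0 1| ≤ 2 ^ 70 := by
      rw [p01]; exact kP_abs hb0 (cofZ_abs b01 l23 b02 b21 b03 b31 b23 b32)
    have u02 : |P 0 2| ≤ 2 ^ 70 := by
      rw [p02]; exact kP_abs hb0 (cofZ_abs b02 l13 b01 b12 b03 b32 b13 b31)
    have u03 : |P 0 3| ≤ 2 ^ 70 := by
      rw [p03]; exact kP_abs hb0 (cofZ_abs b03 l12 b01 b13 b02 b23 b12 b21)
    have u12 : |P 1 2| ≤ 2 ^ 70 := by
      rw [p12]; exact kP_abs hb1 (cofZ_abs b12 l03 b10 b02 b13 b32 b03 b30)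
    have u13 : |P 1 3| ≤ 2 ^ 70 := by
      rw [p13]; exact kP_abs hb1 (cofZ_abs b13 l02 b10 b03 b12 b23 b02 b20)
    have u23 : |P 2 3| ≤ 2 ^ 70 := by
      rw [p23]; exact kP_abs hb2 (cofZ_abs b23 l01 b20 b03 b21 b13 b01 b10)
    have u00 : |P 0 0| ≤ 2 ^ 70 := by
      rw [q0]; exact kP_abs hb0 (diag_abs b12 b13 b23 b21 b31 b32 b12 b23 b31 b13 b32 b21)
    have u11 : |P 1 1| ≤ 2 ^ 70 := by
      rw [q1]; exact kP_abs hb1 (diag_abs b02 b03 b23 b20 b30 b32 b02 b23 b30 b03 b32 b20)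
    have u22 : |P 2 2| ≤ 2 ^ 70 := by
      rw [q2]; exact kP_abs hb2 (diag_abs b01 b03 b13 b10 b30 b31 b01 b13 b30 b03 b31 b10)
    have u33 : |P 3 3| ≤ 2 ^ 70 := by
      rw [q3]; exact kP_abs hb3 (diag_abs b01 b02 b12 b10 b20 b21 b01 b12 b20 b02 b21 b10)
    intro i j
    fin_cases i <;> fin_cases j
    · exact u00
    · exact u01
    · exact u02
    · exact u03
    · exact (hPs 1 0).symm ▸ u01
    · exact u11
    · exact u12
    · exact u13
    · exact (hPs 2 0).symm ▸ u02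
    · exact (hPs 2 1).symm ▸ u12
    · exact u22
    · exact u23
    · exact (hPs 3 0).symm ▸ u03
    · exact (hPs 3 1).symm ▸ u13
    · exact (hPs 3 2).symm ▸ u23
    · exact u33
  -- assembling
  have hB2 := hT.B2
  have hB3 := hT.B3
  have hOm := hT.Om
  have hFcol : ∀ j, F.mulVec (e' j) = fun i => cMat c i j := fun j => funext fun i => hFe i j
  have hCb : ∀ i j, |cMat c i j| ≤ 4095 := by
    have hneg : ∀ n : ℕ, n ≤ 4095 → |(-(n : ℤ))| ≤ 4095 := by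
      intro n hn
      rw [abs_neg, abs_of_nonneg (Int.natCast_nonneg n)]
      exact_mod_cast hn
    have h2 : |(2 : ℤ)| ≤ 4095 := by norm_num
    intro i j
    fin_cases i <;> fin_cases j
    · exact h2
    · exact hneg _ b01
    · exact hneg _ b02
    · exact hneg _ b03
    · exact hneg _ b10
    · exact h2
    · exact hneg _ b12
    · exact hneg _ b13
    · exact hneg _ b20
    · exact hneg _ b21
    · exact h2
    · exact hneg _ b23
    · exact hneg _ b30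
    · exact hneg _ b31
    · exact hneg _ b32
    · exact h2
  have hOm' : T.Om = T.Q + T.Q * T.B + T.Q * T.B2 + T.Q * T.B3 := by rw [hOm]; ring
  refine ⟨P, F, 2 * -(cMat c).det * s, t, hFx, fun w5 w6 hw5 hw6 => ?_⟩
  set X : K.Ctx := K.Ctx.mk T.Q T.B T.B2 T.B3 T.Om x0 x1 x2 x3 r0 r1 r2 r3 w5 w6 with hX
  have col0 : Pk X x0 (fun j => cMat c j 0) := by
    refine pk_col (c := X) (a := 2) (p := c10 * T.B + (c20 * T.B2 + c30 * T.B3))
      hQ1 hB2 hB3 hOm ?_ hx0 ?_ (fun j => hCb j 0)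
    · change _ ≤ T.Om + 2
      have u1 : c10 * T.B ≤ T.Q * T.B := Nat.mul_le_mul_right _ (b10.trans hQ1)
      have u2 : c20 * T.B2 ≤ T.Q * T.B2 := Nat.mul_le_mul_right _ (b20.trans hQ1)
      have u3 : c30 * T.B3 ≤ T.Q * T.B3 := Nat.mul_le_mul_right _ (b30.trans hQ1)
      rw [hOm']
      linarith [Nat.zero_le T.Q]
    · change ((2 : ℕ) : ℤ) - ((c10 * T.B + (c20 * T.B2 + c30 * T.B3) : ℕ) : ℤ) =
        2 + -(c10 : ℤ) * T.B + -(c20 : ℤ) * T.B2 + -(c30 : ℤ) * T.B3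
      push_cast
      ring
  have col1 : Pk X x1 (fun j => cMat c j 1) := by
    refine pk_col (c := X) (a := 2 * T.B) (p := c01 + (c21 * T.B2 + c31 * T.B3))
      hQ1 hB2 hB3 hOm ?_ hx1 ?_ (fun j => hCb j 1)
    · change _ ≤ T.Om + 2 * T.B
      have u1 : c01 ≤ T.Q := b01.trans hQ1
      have u2 : c21 * T.B2 ≤ T.Q * T.B2 := Nat.mul_le_mul_right _ (b21.trans hQ1)
      have u3 : c31 * T.B3 ≤ T.Q * T.B3 := Nat.mul_le_mul_right _ (b31.trans hQ1)
      rw [hOm']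
      linarith [Nat.zero_le (T.Q * T.B), Nat.zero_le T.B]
    · change ((2 * T.B : ℕ) : ℤ) - ((c01 + (c21 * T.B2 + c31 * T.B3) : ℕ) : ℤ) =
        -(c01 : ℤ) + 2 * T.B + -(c21 : ℤ) * T.B2 + -(c31 : ℤ) * T.B3
      push_cast
      ring
  have col2 : Pk X x2 (fun j => cMat c j 2) := by
    refine pk_col (c := X) (a := 2 * T.B2) (p := c02 + (c12 * T.B + c32 * T.B3))
      hQ1 hB2 hB3 hOm ?_ hx2 ?_ (fun j => hCb j 2)
    · change _ ≤ T.Om + 2 * T.B2
      have u1 : c02 ≤ T.Q := b02.trans hQ1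
      have u2 : c12 * T.B ≤ T.Q * T.B := Nat.mul_le_mul_right _ (b12.trans hQ1)
      have u3 : c32 * T.B3 ≤ T.Q * T.B3 := Nat.mul_le_mul_right _ (b32.trans hQ1)
      rw [hOm']
      linarith [Nat.zero_le (T.Q * T.B2), Nat.zero_le T.B2]
    · change ((2 * T.B2 : ℕ) : ℤ) - ((c02 + (c12 * T.B + c32 * T.B3) : ℕ) : ℤ) =
        -(c02 : ℤ) + -(c12 : ℤ) * T.B + 2 * T.B2 + -(c32 : ℤ) * T.B3
      push_cast
      ring
  have col3 : Pk X x3 (fun j => cMat c j 3) := by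
    refine pk_col (c := X) (a := 2 * T.B3) (p := c03 + (c13 * T.B + c23 * T.B2))
      hQ1 hB2 hB3 hOm ?_ hx3 ?_ (fun j => hCb j 3)
    · change _ ≤ T.Om + 2 * T.B3
      have u1 : c03 ≤ T.Q := b03.trans hQ1
      have u2 : c13 * T.B ≤ T.Q * T.B := Nat.mul_le_mul_right _ (b13.trans hQ1)
      have u3 : c23 * T.B2 ≤ T.Q * T.B2 := Nat.mul_le_mul_right _ (b23.trans hQ1)
      rw [hOm']
      linarith [Nat.zero_le (T.Q * T.B3), Nat.zero_le T.B3]
    · change ((2 * T.B3 : ℕ) : ℤ) - ((c03 + (c13 * T.B + c23 * T.B2) : ℕ) : ℤ) =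
        -(c03 : ℤ) + -(c13 : ℤ) * T.B + -(c23 : ℤ) * T.B2 + 2 * T.B3
      push_cast
      ring
  have hFb : ∀ j i, |F.mulVec (e' j) i| ≤ 4096 := by
    intro j i
    rw [hFe i j]
    exact (hCb i j).trans (by norm_num)
  refine ⟨?_, ?_⟩
  · refine
      { ctx := ?_
        a0 := ?_
        b0 := ht
        lat := hG
        red := hT.red
        det := hFd
        rel := hrel
        root := hT.root
        c0 := ⟨?_, hFb 0⟩
        c1 := ⟨?_, hFb 1⟩
        c2 := ⟨?_, hFb 2⟩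
        c3 := ⟨?_, hFb 3⟩
        w5 := ?_
        w6 := ?_ }
    · refine
        { D := hD1
          Q := hQ
          B := hT.B
          B2 := hB2
          B3 := hB3
          Om := hOm
          symm := hsym
          row := ?_
          bd := hPb }
      have hrow : ∀ (y0 y1 y2 y3 : ℕ), K.row4 T.B y0 y1 y2 y3 =
          y0 * T.B3 + y1 * T.B2 + y2 * T.B + y3 := by
        intro y0 y1 y2 y3
        have : K.row4 T.B y0 y1 y2 y3 = ((y0 * T.B + y1) * T.B + y2) * T.B + y3 := rfl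
        rw [this, hB3, hB2]
        ring
      intro i
      fin_cases i
      · refine ⟨![(k0 * T.e0) % T.Q, P01, P02, P03], ?_, ?_⟩
        · intro j
          fin_cases j
          · exact g0
          · exact f01
          · exact f02
          · exact f03
        · change r0 = _
          rw [hr0, hrow]
          rfl
      · refine ⟨![P01, (k1 * T.e1) % T.Q, P12, P13], ?_, ?_⟩
        · intro j
          fin_cases j
          · exact ⟨f01.1, (hPs 0 1) ▸ f01.2⟩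
          · exact g1
          · exact f12
          · exact f13
        · change r1 = _
          rw [hr1, hrow]
          rfl
      · refine ⟨![P02, P12, (k2 * T.e2) % T.Q, P23], ?_, ?_⟩
        · intro j
          fin_cases j
          · exact ⟨f02.1, (hPs 0 2) ▸ f02.2⟩
          · exact ⟨f12.1, (hPs 1 2) ▸ f12.2⟩
          · exact g2
          · exact f23
        · change r2 = _
          rw [hr2, hrow]
          rfl
      · refine ⟨![P03, P13, P23, (k3 * T.e3) % T.Q], ?_, ?_⟩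
        · intro j
          fin_cases j
          · exact ⟨f03.1, (hPs 0 3) ▸ f03.2⟩
          · exact ⟨f13.1, (hPs 1 3) ▸ f13.2⟩
          · exact ⟨f23.1, (hPs 2 3) ▸ f23.2⟩
          · exact g3
        · change r3 = _
          rw [hr3, hrow]
          rfl
    · have : 0 < -(cMat c).det := by linarith
      positivity
    · have h1 := hFcol 0
      change Pk X x0 (F.mulVec (e' 0))
      rw [h1]
      exact col0
    · have h1 := hFcol 1
      change Pk X x1 (F.mulVec (e' 1))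
      rw [h1]
      exact col1
    · have h1 := hFcol 2
      change Pk X x2 (F.mulVec (e' 2))
      rw [h1]
      exact col2
    · have h1 := hFcol 3
      change Pk X x3 (F.mulVec (e' 3))
      rw [h1]
      exact col3
    · split_ifs with h1
      · rw [if_pos h1] at hw5
        exact hw5 X rfl
      · rw [if_neg h1] at hw5
        exact hw5
    · split_ifs with h1
      · rw [if_pos h1] at hw6
        exact hw6 X rfl
      · rw [if_neg h1] at hw6
        exact hw6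
  · refine ⟨cMat c, (Matrix.of e').transpose, ?_, ?_, ?_, hD1, ?_, ?_, ?_⟩
    · ext i j
      rw [← hFe i j]
      rfl
    · intro i
      fin_cases i
      · exact col0
      · exact col1
      · exact col2
      · exact col3
    · rw [hdet]
      simp
    · intro i j
      exact mul_le_mul_of_nonneg_right ((hCb i j).trans (by norm_num)) (by positivity)
    · intro p hp h1
      exact absurd (Nat.dvd_one.1 h1) hp.one_lt.ne'
    · intro x hx
      exact absurd hx List.not_mem_nil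

end Pool.Agent.Refl.H46
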