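import Pool.Agent.Helper46_Refl.LeafEnv
import Pool.Agent.Helper92_Refl.SqK

/-!
# LEAVES: all the norms
-/

set_option autoImplicit false

namespace Pool.Agent.Refl.H46

open Matrix Pool.Agent.Refl

theorem fc_ne' {n : ℕ} {f : ℕ → ℕ → ℕ} {s : ℕ} (h : K.fc n f s ≠ 0) :
    ∃ m, m = n ∧ f m s ≠ 0 := by
  rw [fc_eq] at h
  exact ⟨n, rfl, h⟩

theorem forL_ne {f : ℕ → ℕ → ℕ} : ∀ {l : List ℕ} {s : ℕ}, K.forL f l s ≠ 0 → ∀ a ∈ l,
    ∃ s', f a s' ≠ 0 := by
  intro l
  induction l with
  | nil => intro s _ a ha; exact absurd ha List.not_mem_nil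
  | cons b l ih =>
    intro s h a ha
    have h1 : K.forL f (b :: l) s = K.fc b fun a =>
      (Nat.rec 0 (fun s' _ => K.forL f l s') (f a s) : ℕ) := rfl
    rw [h1, fc_eq] at h
    rcases hb : f b s with _ | s'
    · rw [hb] at h
      exact absurd rfl h
    · rw [hb] at h
      rcases List.mem_cons.1 ha with rfl | ha'
      · exact ⟨s, by rw [hb]; exact Nat.succ_ne_zero _⟩
      · exact ih (s := s') h a ha'

theorem dvs_succ (N fuel a : ℕ) : K.dvs N (fuel + 1) a =
    if a * a ≤ N then (if N % a = 0 then (if a * a = N then [a] else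
      a :: (N / a) :: K.dvs N fuel (a + 1)) else K.dvs N fuel (a + 1)) else [] := by
  have h1 : K.dvs N (fuel + 1) a = (Bool.rec List.nil
      (Bool.rec (K.dvs N fuel (Nat.succ a))
        (Bool.rec (List.cons a (List.cons (Nat.div N a) (K.dvs N fuel (Nat.succ a))))
          (List.cons a List.nil) (Nat.beq (Nat.mul a a) N))
        (Nat.beq (Nat.mod N a) 0))
      (Nat.ble (Nat.mul a a) N) : List ℕ) := rfl
  rw [h1, H92.ble_rec, H92.beq_rec, H92.beq_rec]
  rfl

theorem mem_dvs (N : ℕ) (d d' : ℕ) (hN : N = d * d') (h0 : 0 < d) (h0' : 0 < d') :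
    ∀ fuel a : ℕ, a ≤ min d d' → min d d' < a + fuel → 0 < a → d ∈ K.dvs N fuel a := by
  intro fuel
  induction fuel with
  | zero => intro a h1 h2; omega
  | succ fuel ih =>
    intro a h1 h2 ha
    rw [dvs_succ]
    have hm : min d d' * min d d' ≤ N := by
      rw [hN]
      exact Nat.mul_le_mul (min_le_left _ _) (min_le_right _ _)
    have h3 : a * a ≤ N := le_trans (Nat.mul_le_mul h1 h1) hm
    rw [if_pos h3]
    rcases Nat.lt_or_ge a (min d d') with h4 | h4
    · have h5 : a * a ≠ N := by
        have : a * a < min d d' * min d d' := Nat.mul_lt_mul'' h4 h4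
        omega
      have h6 := ih (a + 1) h4 (by omega) (by omega)
      rw [if_neg h5]
      split_ifs
      · exact List.mem_cons_of_mem _ (List.mem_cons_of_mem _ h6)
      · exact h6
    · have h5 : a = min d d' := le_antisymm h1 h4
      rcases le_total d d' with h6 | h6
      · rw [min_eq_left h6] at h5
        subst h5
        have h7 : N % a = 0 := by rw [hN]; exact Nat.mul_mod_right _ _
        rw [if_pos h7]
        split_ifs
        · exact List.mem_singleton.2 rfl
        · exact List.mem_cons_self
      · rw [min_eq_right h6] at h5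
        subst h5
        have h7 : N % a = 0 := by rw [hN]; exact Nat.mul_mod_left _ _
        rw [if_pos h7]
        have h8 : N / a = d := by rw [hN]; exact Nat.mul_div_cancel _ ha
        split_ifs with h9
        · have h10 : a = d := by
            rw [hN] at h9
            exact Nat.eq_of_mul_eq_mul_right ha h9
          rw [← h10]
          exact List.mem_singleton.2 rfl
        · rw [h8]
          exact List.mem_cons_of_mem _ List.mem_cons_self

theorem mem_divs {N d d' : ℕ} (hN : N = d * d') (h0 : 0 < d) (h0' : 0 < d') :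
    d ∈ K.divs N := by
  refine mem_dvs N d d' hN h0 h0' N 1 ?_ ?_ one_pos
  · exact le_min h0 h0'
  · have h1 : d ≤ N := by rw [hN]; exact Nat.le_mul_of_pos_right _ h0'
    have h2 : min d d' ≤ d := min_le_left _ _
    omega

theorem oth_ne {fl al N ka kb s : ℕ} {f : ℕ → ℕ → ℕ} {x y : ℕ} (hN : N = x * y)
    (h0 : N = 0 → x = 0 ∧ y = 0) (hk : x * ka = y * kb) (hka : 0 < ka)
    (hfl : fl ≠ 0 → al = x ∧ 0 < x) (h : K.oth fl al N ka kb s f ≠ 0) : f x y ≠ 0 := by
  unfold K.oth at h
  rcases fl with _ | fl
  · rcases N with _ | N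
    · obtain ⟨h1, h2⟩ := h0 rfl
      rw [h1, h2]
      exact h
    · obtain ⟨M, hM, h⟩ := fc_ne h
      obtain ⟨z, hz, h⟩ := fc_ne h
      have hM' : M = N + 1 := hM
      have hxy : M = x * y := hM'.trans hN
      have hx : 0 < x := by
        rcases Nat.eq_zero_or_pos x with h1 | h1
        · rw [h1, Nat.zero_mul] at hN
          omega
        · exact h1
      have hz' : z = x * x * ka := by
        rw [hz]
        change M * kb = _
        rw [hxy, Nat.mul_assoc x y kb, ← hk]
        ring
      have h1 : Nat.beq (Nat.mod z ka) 0 = true := by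
        rw [beq_true]
        change z % ka = 0
        rw [hz']
        exact Nat.mul_mod_left _ _
      rw [h1] at h
      obtain ⟨w, hw, h⟩ := fc_ne h
      obtain ⟨c, hc, h⟩ := fc_ne h
      have hw' : w = x * x := by
        rw [hw]
        change z / ka = _
        rw [hz']
        exact Nat.mul_div_cancel _ hka
      have hc' : c = x := by
        rw [hc, H92.sqK, hw', Nat.sqrt_eq]
      have h2 : Nat.beq (Nat.mul c c) w = true := by
        rw [beq_true, hc', hw']
        rfl
      rw [h2] at h
      have h3 : Nat.beq (Nat.mod M c) 0 = true := by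
        rw [beq_true, hc', hxy]
        exact Nat.mul_mod_right _ _
      rw [h3] at h
      obtain ⟨c', hc2, h⟩ := fc_ne h
      have h4 : c' = y := by
        rw [hc2, hc', hxy]
        exact Nat.mul_div_cancel_left _ hx
      rw [hc', h4] at h
      exact h
  · obtain ⟨h1, h2⟩ := hfl (Nat.succ_ne_zero _)
    have h3 : Nat.div N al = y := by
      rw [h1, hN]
      exact Nat.mul_div_cancel_left _ h2
    change f al (Nat.div N al) ≠ 0 at h
    rw [h3, h1] at h
    exact h

theorem eqf_ne {a b : ℕ} (h : K.eqf a b ≠ 0) : a = b := by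
  unfold K.eqf at h
  exact beq_true.1 (rec0_ne h).1

end Pool.Agent.Refl.H46
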