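import Pool.Agent.Helper84_Refl.Base2
import Pool.Agent.Helper23_Refl.StmtD

/-!
# Common part of REDI and REDII
-/

namespace Pool.Agent.Refl.H46

open Matrix

theorem dvd_mulVec {m : ℤ} {v : Z4} (A : M4) (h : ∀ i, m ∣ v i) (i : Fin 4) :
    m ∣ A.mulVec v i := by
  unfold Matrix.mulVec dotProduct
  exact Finset.dvd_sum fun j _ => Dvd.dvd.mul_left (h j) _

theorem comm_of_mul {W W' : M4} {p : ℤ} (hp : p ≠ 0) (h : W * W' = p • (1 : M4)) :
    W' * W = p • (1 : M4) := by
  have hdet : W.det * W'.det = p ^ 4 := by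
    rw [← Matrix.det_mul, h, Matrix.det_smul, Matrix.det_one]
    simp
  have hd' : W'.det ≠ 0 := by
    intro h0
    rw [h0, mul_zero] at hdet
    exact pow_ne_zero 4 hp hdet.symm
  have h1 : (W' * W - p • (1 : M4)) * W' = 0 := by
    rw [sub_mul, Matrix.mul_assoc, h, Matrix.mul_smul, Matrix.mul_one, Matrix.smul_mul,
      Matrix.one_mul, sub_self]
  have h2 : W'.det • (W' * W - p • (1 : M4)) = 0 := by
    have h3 : (W' * W - p • (1 : M4)) * W' * W'.adjugate = 0 := by rw [h1, Matrix.zero_mul]
    rw [Matrix.mul_assoc, Matrix.mul_adjugate, Matrix.mul_smul, Matrix.mul_one] at h3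
    exact h3
  exact sub_eq_zero.1 ((smul_eq_zero.1 h2).resolve_left hd')

theorem det_ne_of_mul {W W' : M4} {p : ℤ} (hp : p ≠ 0) (h : W * W' = p • (1 : M4)) :
    W.det ≠ 0 := by
  have hdet : W.det * W'.det = p ^ 4 := by
    rw [← Matrix.det_mul, h, Matrix.det_smul, Matrix.det_one]
    simp
  intro h0
  rw [h0, zero_mul] at hdet
  exact pow_ne_zero 4 hp hdet.symm

theorem transpose_mul_smul {W W' : M4} {p : ℤ} (h : W * W' = p • (1 : M4)) :
    W'.transpose * W.transpose = p • (1 : M4) := by
  rw [← Matrix.transpose_mul, h, Matrix.transpose_smul, Matrix.transpose_one]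

theorem conj_conj {X W W' : M4} {p : ℤ} (h : W * W' = p • (1 : M4)) :
    W'.transpose * (W.transpose * X * W) * W' = (p * p) • X := by
  have h1 := transpose_mul_smul h
  calc W'.transpose * (W.transpose * X * W) * W'
      = (W'.transpose * W.transpose) * X * (W * W') := by simp only [Matrix.mul_assoc]
    _ = (p * p) • X := by
        rw [h1, h, Matrix.smul_mul, Matrix.one_mul, Matrix.mul_smul, Matrix.mul_one, smul_smul]

/-- The lattice structure goes up. -/
theorem lat_up {L R W W' : M4} {p c d : ℤ} (hp : p ≠ 0) (hc : 0 < c) (hd : 0 < d)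
    (hW : W * W' = p • (1 : M4)) (h : c • L = d • (W.transpose * R * W)) (hL : Lat L) :
    Lat R := by
  have hpp : p * p ≠ 0 := mul_ne_zero hp hp
  refine ⟨?_, ?_, ?_⟩
  · -- symmetry
    have h1 : d • (W.transpose * R.transpose * W) = d • (W.transpose * R * W) := by
      have h2 : (c • L).transpose = c • L := by rw [Matrix.transpose_smul, hL.symm]
      rw [h] at h2
      rw [← h2, Matrix.transpose_smul, Matrix.transpose_mul, Matrix.transpose_mul,
        Matrix.transpose_transpose, Matrix.mul_assoc]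
    have h3 : W.transpose * R.transpose * W = W.transpose * R * W :=
      smul_right_injective _ hd.ne' h1
    have h4 := conj_conj (X := R.transpose) hW
    rw [h3, conj_conj hW] at h4
    exact (smul_right_injective _ hpp h4).symm
  · -- signature
    obtain ⟨P, hP, hPD⟩ := hL.sig
    set Wr : Matrix (Fin 4) (Fin 4) ℝ := W.map (Int.cast : ℤ → ℝ) with hWr
    have hcr : (0 : ℝ) < c := by exact_mod_cast hc
    have hdr : (0 : ℝ) < d := by exact_mod_cast hd
    have hs : 0 < (d : ℝ) / c := div_pos hdr hcr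
    have hreal : (c : ℝ) • L.map (Int.cast : ℤ → ℝ) =
        (d : ℝ) • (Wr.transpose * R.map (Int.cast : ℤ → ℝ) * Wr) := by
      have h1 := congrArg (fun M : M4 => M.map (Int.castRingHom ℝ)) h
      have h2 : (W.transpose * R * W).map (Int.castRingHom ℝ) =
          Wr.transpose * R.map (Int.cast : ℤ → ℝ) * Wr := by
        rw [Matrix.map_mul, Matrix.map_mul]
        rfl
      have h3 : (c • L).map (Int.castRingHom ℝ) = (c : ℝ) • L.map (Int.cast : ℤ → ℝ) := by
        ext i j
        simp only [Matrix.map_apply, Matrix.smul_apply, smul_eq_mul, Int.coe_castRingHom,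
          Int.cast_mul]
      have h4 : (d • (W.transpose * R * W)).map (Int.castRingHom ℝ) =
          (d : ℝ) • (W.transpose * R * W).map (Int.castRingHom ℝ) := by
        ext i j
        simp only [Matrix.map_apply, Matrix.smul_apply, smul_eq_mul, Int.coe_castRingHom,
          Int.cast_mul]
      beta_reduce at h1
      rw [h3, h4, h2] at h1
      exact h1
    refine ⟨Real.sqrt ((d : ℝ) / c) • (Wr * P), ?_, ?_⟩
    · rw [Matrix.det_smul, Matrix.det_mul, isUnit_iff_ne_zero]
      have h1 : Wr.det = (W.det : ℝ) := by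
        rw [hWr]
        exact (Int.cast_det W).symm
      rw [h1]
      refine mul_ne_zero (pow_ne_zero _ (Real.sqrt_pos.2 hs).ne') (mul_ne_zero ?_ hP.ne_zero)
      exact_mod_cast det_ne_of_mul hp hW
    · rw [Matrix.transpose_smul, Matrix.smul_mul, Matrix.smul_mul, Matrix.mul_smul, smul_smul,
        Real.mul_self_sqrt hs.le, Matrix.transpose_mul]
      have h1 : P.transpose * Wr.transpose * R.map (Int.cast : ℤ → ℝ) * (Wr * P) =
          P.transpose * (Wr.transpose * R.map (Int.cast : ℤ → ℝ) * Wr) * P := by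
        simp only [Matrix.mul_assoc]
      have h2 : ((d : ℝ) / c) • (Wr.transpose * R.map (Int.cast : ℤ → ℝ) * Wr) =
          L.map (Int.cast : ℤ → ℝ) := by
        rw [div_eq_inv_mul, mul_smul, ← hreal, smul_smul, inv_mul_cancel₀ hcr.ne', one_smul]
      rw [h1, ← Matrix.smul_mul, ← Matrix.mul_smul, h2, hPD]
  · -- anisotropy
    intro x hx
    have h1 : c * bz L (W'.mulVec x) (W'.mulVec x) = 0 := by
      have h2 : bz (c • L) (W'.mulVec x) (W'.mulVec x) =
          c * bz L (W'.mulVec x) (W'.mulVec x) := by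
        simp only [bz_eq_dot, Matrix.smul_mulVec, dotProduct_smul, smul_eq_mul]
      have h3 : bz (d • (W.transpose * R * W)) (W'.mulVec x) (W'.mulVec x) =
          d * bz (W.transpose * R * W) (W'.mulVec x) (W'.mulVec x) := by
        simp only [bz_eq_dot, Matrix.smul_mulVec, dotProduct_smul, smul_eq_mul]
      have h4 : W.mulVec (W'.mulVec x) = p • x := by
        rw [Matrix.mulVec_mulVec, hW, Matrix.smul_mulVec, Matrix.one_mulVec]
      rw [← h2, h, h3, bz_conj, h4, bz_smul_left, bz_smul_right, hx]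
      ring
    have h5 := hL.anis _ ((mul_eq_zero.1 h1).resolve_left hc.ne')
    have h6 : W.mulVec (W'.mulVec x) = p • x := by
      rw [Matrix.mulVec_mulVec, hW, Matrix.smul_mulVec, Matrix.one_mulVec]
    rw [h5, Matrix.mulVec_zero] at h6
    exact (smul_eq_zero.1 h6.symm).resolve_left hp

/-! ### Properties at other primes -/

theorem ssf_iff {L R W W' : M4} {p c d : ℤ} {q : ℕ} (hq : q.Prime) (hqp : ¬ (q : ℤ) ∣ p)
    (hqc : ¬ (q : ℤ) ∣ c) (hqd : ¬ (q : ℤ) ∣ d) (hW : W * W' = p • (1 : M4))
    (hW' : W' * W = p • (1 : M4)) (h : c • L = d • (W.transpose * R * W)) :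
    SSF q R ↔ SSF q L := by
  have hqi : Prime (q : ℤ) := Nat.prime_iff_prime_int.1 hq
  have cop : ∀ {a : ℤ}, ¬ (q : ℤ) ∣ a → IsCoprime ((q : ℤ) ^ 2) a := by
    intro a ha
    exact ((Prime.coprime_iff_not_dvd hqi).2 ha).pow_left
  have canc : ∀ {a b : ℤ}, ¬ (q : ℤ) ∣ a → (q : ℤ) ^ 2 ∣ a * b → (q : ℤ) ^ 2 ∣ b :=
    fun ha hab => (cop ha).dvd_of_dvd_mul_left hab
  constructor
  · intro hR x hx i
    have h1 : ∀ i, (q : ℤ) ^ 2 ∣ (W'.transpose.mulVec ((c • L).mulVec x)) i := by
      refine dvd_mulVec _ fun i => ?_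
      rw [Matrix.smul_mulVec]
      exact Dvd.dvd.mul_left (hx i) _
    have h2 : W'.transpose.mulVec ((c • L).mulVec x) =
        d • p • R.mulVec (W.mulVec x) := by
      rw [h, Matrix.smul_mulVec, Matrix.mulVec_smul, Matrix.mulVec_mulVec]
      congr 1
      have h3 : W'.transpose * (W.transpose * R * W) = p • (R * W) := by
        calc W'.transpose * (W.transpose * R * W)
            = (W'.transpose * W.transpose) * (R * W) := by simp only [Matrix.mul_assoc]
          _ = p • (R * W) := by rw [transpose_mul_smul hW, Matrix.smul_mul, Matrix.one_mul]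
      rw [h3, Matrix.smul_mulVec, Matrix.mulVec_mulVec]
    have h4 : ∀ i, (q : ℤ) ∣ W.mulVec x i := by
      refine hR _ fun i => ?_
      have h5 := h1 i
      rw [h2] at h5
      exact canc hqp (canc hqd h5)
    have h6 := dvd_mulVec W' h4 i
    rw [Matrix.mulVec_mulVec, hW', Matrix.smul_mulVec, Matrix.one_mulVec] at h6
    exact (hqi.dvd_or_dvd h6).resolve_left hqp
  · intro hL x hx i
    have h2 : c • L.mulVec (W'.mulVec x) = d • p • W.transpose.mulVec (R.mulVec x) := by
      rw [← Matrix.smul_mulVec, h, Matrix.smul_mulVec, Matrix.mulVec_mulVec]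
      congr 1
      have h3 : W.transpose * R * W * W' = p • (W.transpose * R) := by
        rw [Matrix.mul_assoc, hW, Matrix.mul_smul, Matrix.mul_one]
      rw [h3, Matrix.smul_mulVec, Matrix.mulVec_mulVec]
    have h4 : ∀ i, (q : ℤ) ∣ W'.mulVec x i := by
      refine hL _ fun i => canc hqc ?_
      have h5 := congrFun h2 i
      simp only [Pi.smul_apply, smul_eq_mul] at h5
      rw [h5]
      exact Dvd.dvd.mul_left (Dvd.dvd.mul_left (dvd_mulVec _ hx i) _) _
    have h6 := dvd_mulVec W h4 i
    rw [Matrix.mulVec_mulVec, hW, Matrix.smul_mulVec, Matrix.one_mulVec] at h6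
    exact (hqi.dvd_or_dvd h6).resolve_left hqp

/-- all 2 by 2 minors are divisible by `q` -/
def Z2 (q : ℤ) (G : M4) : Prop := ∀ i j k l, q ∣ G i k * G j l - G i l * G j k

theorem not_rk2 {q : ℕ} {G : M4} : ¬ Rk2 q G ↔ Z2 q G := by
  unfold Rk2 Z2
  push Not
  rfl

theorem Z2.mul_left {q : ℤ} {G : M4} (h : Z2 q G) (A : M4) : Z2 q (A * G) := by
  intro i j k l
  have h1 : (A * G) i k * (A * G) j l - (A * G) i l * (A * G) j k =
      ∑ a, ∑ b, A i a * A j b * (G a k * G b l - G a l * G b k) := by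
    simp only [Matrix.mul_apply, Finset.sum_mul_sum, ← Finset.sum_sub_distrib]
    refine Finset.sum_congr rfl fun a _ => Finset.sum_congr rfl fun b _ => ?_
    ring
  rw [h1]
  exact Finset.dvd_sum fun a _ => Finset.dvd_sum fun b _ => Dvd.dvd.mul_left (h a b k l) _

theorem Z2.mul_right {q : ℤ} {G : M4} (h : Z2 q G) (A : M4) : Z2 q (G * A) := by
  intro i j k l
  have h1 : (G * A) i k * (G * A) j l - (G * A) i l * (G * A) j k =
      ∑ a, ∑ b, A a k * A b l * (G i a * G j b - G i b * G j a) := by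
    have e1 : (G * A) i k * (G * A) j l = ∑ a, ∑ b, A a k * A b l * (G i a * G j b) := by
      simp only [Matrix.mul_apply, Finset.sum_mul_sum]
      refine Finset.sum_congr rfl fun a _ => Finset.sum_congr rfl fun b _ => ?_
      ring
    have e2 : (G * A) i l * (G * A) j k = ∑ a, ∑ b, A a k * A b l * (G i b * G j a) := by
      simp only [Matrix.mul_apply, Finset.sum_mul_sum]
      rw [Finset.sum_comm]
      refine Finset.sum_congr rfl fun a _ => Finset.sum_congr rfl fun b _ => ?_
      ring
    rw [e1, e2]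
    simp only [← Finset.sum_sub_distrib]
    refine Finset.sum_congr rfl fun a _ => Finset.sum_congr rfl fun b _ => ?_
    ring
  rw [h1]
  exact Finset.dvd_sum fun a _ => Finset.dvd_sum fun b _ => Dvd.dvd.mul_left (h i j a b) _

theorem Z2.smul {q : ℤ} {G : M4} (h : Z2 q G) (a : ℤ) : Z2 q (a • G) := by
  intro i j k l
  have h1 : (a • G) i k * (a • G) j l - (a • G) i l * (a • G) j k =
      a * a * (G i k * G j l - G i l * G j k) := by
    simp only [Matrix.smul_apply, smul_eq_mul]
    ring
  rw [h1]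
  exact Dvd.dvd.mul_left (h i j k l) _

theorem Z2.of_smul {q : ℤ} (hq : Prime q) {G : M4} {a : ℤ} (ha : ¬ q ∣ a) (h : Z2 q (a • G)) :
    Z2 q G := by
  intro i j k l
  have h1 : (a • G) i k * (a • G) j l - (a • G) i l * (a • G) j k =
      a * a * (G i k * G j l - G i l * G j k) := by
    simp only [Matrix.smul_apply, smul_eq_mul]
    ring
  have h2 := h i j k l
  rw [h1] at h2
  refine (hq.dvd_or_dvd h2).resolve_left fun h3 => ?_
  exact ((hq.dvd_or_dvd h3).elim ha ha)

theorem rk2_iff {L R W W' : M4} {p c d : ℤ} {q : ℕ} (hq : q.Prime) (hqp : ¬ (q : ℤ) ∣ p)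
    (hqc : ¬ (q : ℤ) ∣ c) (hqd : ¬ (q : ℤ) ∣ d) (hW : W * W' = p • (1 : M4))
    (h : c • L = d • (W.transpose * R * W)) :
    Rk2 q R ↔ Rk2 q L := by
  have hqi : Prime (q : ℤ) := Nat.prime_iff_prime_int.1 hq
  rw [← not_iff_not, not_rk2, not_rk2]
  constructor
  · intro hR
    refine Z2.of_smul hqi hqc ?_
    rw [h]
    exact ((hR.mul_left _).mul_right _).smul d
  · intro hL
    have h1 : Z2 q (c • (W'.transpose * L * W')) := ((hL.mul_left _).mul_right _).smul c
    have h2 : c • (W'.transpose * L * W') = (d * (p * p)) • R := by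
      rw [← Matrix.smul_mul, ← Matrix.mul_smul, h, Matrix.mul_smul, Matrix.smul_mul,
        conj_conj hW, smul_smul]
    rw [h2] at h1
    refine Z2.of_smul hqi ?_ h1
    intro h3
    rcases hqi.dvd_or_dvd h3 with h4 | h4
    · exact hqd h4
    · exact (hqi.dvd_or_dvd h4).elim hqp hqp

/-! ### Bases of subgroups -/

theorem exists_basis_matrix (M : Submodule ℤ Z4) {p : ℤ} (hp : p ≠ 0)
    (h : ∀ x : Z4, p • x ∈ M) :
    ∃ B : M4, (∀ z, B.mulVec z ∈ M) ∧ ∀ v ∈ M, ∃ z, v = B.mulVec z := by
  have hfr : Module.finrank ℤ M = 4 := by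
    apply le_antisymm
    · have h1 := Submodule.finrank_le M
      simpa using h1
    · let f : Z4 →ₗ[ℤ] M := LinearMap.codRestrict M (p • LinearMap.id) (fun x => h x)
      have hf : Function.Injective f := by
        intro x y hxy
        have h1 := congrArg Subtype.val hxy
        have h2 : p • x = p • y := h1
        exact smul_right_injective _ hp h2
      have h1 := LinearMap.finrank_le_finrank_of_injective hf
      simpa using h1
  let b : Module.Basis (Fin 4) ℤ M := Module.finBasisOfFinrankEq ℤ M hfr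
  have hB : ∀ z : Z4, (Matrix.of fun i j => (b j : Z4) i : M4).mulVec z =
      ∑ j, z j • (b j : Z4) := by
    intro z
    funext i
    simp only [Matrix.mulVec, dotProduct, Matrix.of_apply, Finset.sum_apply, Pi.smul_apply,
      smul_eq_mul]
    exact Finset.sum_congr rfl fun j _ => mul_comm _ _
  refine ⟨Matrix.of fun i j => (b j : Z4) i, fun z => ?_, fun v hv => ?_⟩
  · rw [hB]
    exact Submodule.sum_mem _ fun j _ => Submodule.smul_mem _ _ (b j).2
  · refine ⟨fun j => b.repr ⟨v, hv⟩ j, ?_⟩
    rw [hB]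
    have h1 := congrArg Subtype.val (b.sum_repr ⟨v, hv⟩)
    rw [Submodule.coe_sum] at h1
    simpa using h1.symm

end Pool.Agent.Refl.H46
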