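import Pool.Agent.Helper46_Refl.WrdBase

/-!
# Words: actions on lines, hyperplanes and planes
-/

namespace Pool.Agent.Refl.H46W

open Matrix

/-- action on lines or on normals -/
def aT (b : Bool) (S : M4) (u : Z4) : Z4 := if b then S.transpose.mulVec u else S.mulVec u

theorem act_eq (hA : ActStmt) {p M : ℕ} (b : Bool) (S : M4) (u : Z4) (h1 : 1 ≤ p) (h2 : p ≤ 127)
    (h3 : 1 ≤ M) (h4 : M ≤ 127) : actB b (gpZ p M S) p (pkZ p u) = pkZ p (aT b S u) := by
  obtain ⟨a1, a2, _⟩ := hA p M S u h1 h2 h3 h4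
  cases b
  · exact a1
  · exact a2

theorem mul_mulVec_one {S T : M4} (h : S * T = 1) (u : Z4) : S.mulVec (T.mulVec u) = u := by
  rw [Matrix.mulVec_mulVec, h, Matrix.one_mulVec]

theorem aT_aT (b : Bool) {S : M4} (hS : S * S = 1) (u : Z4) : aT b S (aT b S u) = u := by
  cases b
  · exact mul_mulVec_one hS u
  · have h : S.transpose * S.transpose = 1 := by rw [← Matrix.transpose_mul, hS, Matrix.transpose_one]
    exact mul_mulVec_one h u

theorem aT_zero {p : ℕ} (b : Bool) (S : M4) {u : Z4} (h : Cg p u 0) : Cg p (aT b S u) 0 := by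
  cases b
  · have := cg_mulVec S h
    rw [Matrix.mulVec_zero] at this
    exact this
  · have := cg_mulVec S.transpose h
    rw [Matrix.mulVec_zero] at this
    exact this

theorem aT_ne {p : ℕ} (b : Bool) {S : M4} (hS : S * S = 1) {u : Z4} (h : ¬ Cg p u 0) :
    ¬ Cg p (aT b S u) 0 := fun h' => h (by
  have := aT_zero b S h'
  rwa [aT_aT b hS] at this)

theorem dotT (S : M4) (v w : Z4) : S.transpose.mulVec v ⬝ᵥ w = v ⬝ᵥ S.mulVec w := by
  rw [Matrix.mulVec_transpose, Matrix.dotProduct_mulVec]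

theorem mem_X1_false {p : ℕ} {x v : Z4} : v ∈ X1 false p x ↔ ∃ c : ℤ, Cg p v (c • x) :=
  mem_SubX_one
theorem mem_X1_true {p : ℕ} {x v : Z4} : v ∈ X1 true p x ↔ (p : ℤ) ∣ x ⬝ᵥ v := Iff.rfl

theorem X1_act {p : ℕ} (b : Bool) {S : M4} (hS : S * S = 1) (u w : Z4) :
    w ∈ X1 b p u ↔ S.mulVec w ∈ X1 b p (aT b S u) := by
  cases b
  · rw [mem_X1_false, mem_X1_false]
    constructor
    · rintro ⟨c, hc⟩
      refine ⟨c, ?_⟩
      have := cg_mulVec S hc
      rw [Matrix.mulVec_smul] at this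
      exact this
    · rintro ⟨c, hc⟩
      refine ⟨c, ?_⟩
      have := cg_mulVec S hc
      rw [Matrix.mulVec_smul, mul_mulVec_one hS] at this
      have e : S.mulVec (aT false S u) = u := aT_aT false hS u
      rw [e] at this
      exact this
  · rw [mem_X1_true, mem_X1_true]
    have e : aT true S u ⬝ᵥ S.mulVec w = u ⬝ᵥ w := by
      have h1 : aT true S u ⬝ᵥ S.mulVec w = u ⬝ᵥ S.mulVec (S.mulVec w) := dotT S u _
      rw [h1, mul_mulVec_one hS]
    rw [e]

theorem cg_dvd_of {p : ℕ} {c : ℤ} {x u : Z4} (hx : ¬ Cg p x 0) (h : Cg p x (c • u)) :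
    ¬ (p : ℤ) ∣ c := by
  intro hc
  apply hx
  apply cg_trans h
  intro i
  show (p : ℤ) ∣ c * u i - 0
  rw [sub_zero]
  exact Dvd.dvd.mul_right hc _

theorem X1_sub {p : ℕ} (hp : p.Prime) (b : Bool) {u u' : Z4} (hu : ¬ Cg p u 0)
    (hu' : ¬ Cg p u' 0) (h : ∀ w, w ∈ X1 b p u → w ∈ X1 b p u') :
    ∃ c : ℤ, ¬ (p : ℤ) ∣ c ∧ Cg p u' (c • u) := by
  cases b
  · have h1 : u ∈ X1 false p u := mem_X1_false.2 ⟨1, by rw [one_smul]; exact cg_refl _ _⟩
    obtain ⟨c, hc⟩ := mem_X1_false.1 (h u h1)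
    exact cg_inv hp (cg_dvd_of hu hc) hc
  · have hex : ∃ i, ¬ (p : ℤ) ∣ u i := by
      by_contra hcon
      push Not at hcon
      apply hu
      intro i
      show (p : ℤ) ∣ u i - 0
      rw [sub_zero]
      exact hcon i
    obtain ⟨i, hi⟩ := hex
    obtain ⟨d, hd, _⟩ := inv_mod hp hi
    have key : ∀ j, (p : ℤ) ∣ u i * u' j - u j * u' i := by
      intro j
      have h1 : (u i • Pi.single j 1 - u j • Pi.single i 1 : Z4) ∈ X1 true p u := by
        rw [mem_X1_true, dotProduct_sub, dotProduct_smul, dotProduct_smul,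
          dotProduct_single_one, dotProduct_single_one, smul_eq_mul, smul_eq_mul]
        have : u i * u j - u j * u i = 0 := by ring
        rw [this]
        exact dvd_zero _
      have h2 := mem_X1_true.1 (h _ h1)
      rw [dotProduct_sub, dotProduct_smul, dotProduct_smul,
          dotProduct_single_one, dotProduct_single_one, smul_eq_mul, smul_eq_mul] at h2
      exact h2
    have hcg : Cg p u' ((d * u' i) • u) := by
      intro j
      show (p : ℤ) ∣ u' j - d * u' i * u j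
      have e : u' j - d * u' i * u j = (1 - d * u i) * u' j + d * (u i * u' j - u j * u' i) := by
        ring
      rw [e]
      exact dvd_add (Dvd.dvd.mul_right hd _) (Dvd.dvd.mul_left (key j) _)
    exact ⟨d * u' i, cg_dvd_of hu' hcg, hcg⟩

theorem X1_cg_imp {p : ℕ} (hp : p.Prime) (b : Bool) {x u : Z4} {c : ℤ} (hc : ¬ (p : ℤ) ∣ c)
    (h : Cg p x (c • u)) (w : Z4) (hw : w ∈ X1 b p x) : w ∈ X1 b p u := by
  cases b
  · obtain ⟨k, hk⟩ := mem_X1_false.1 hw
    refine mem_X1_false.2 ⟨k * c, ?_⟩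
    rw [mul_smul]
    exact cg_trans hk (cg_smul k h)
  · have h1 := mem_X1_true.1 hw
    have h2 := cg_dot w h
    rw [smul_dotProduct, smul_eq_mul] at h2
    have h3 : (p : ℤ) ∣ c * (u ⬝ᵥ w) := by
      have := dvd_sub h1 h2
      rwa [sub_sub_cancel] at this
    have hp' : Prime (p : ℤ) := Nat.prime_iff_prime_int.1 hp
    exact mem_X1_true.2 ((hp'.dvd_mul.1 h3).resolve_left hc)

theorem X1_cg {p : ℕ} (hp : p.Prime) (b : Bool) {x u : Z4} {c : ℤ} (hc : ¬ (p : ℤ) ∣ c)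
    (h : Cg p x (c • u)) (w : Z4) : w ∈ X1 b p x ↔ w ∈ X1 b p u := by
  obtain ⟨d, hd, hd'⟩ := cg_inv hp hc h
  exact ⟨X1_cg_imp hp b hc h w, X1_cg_imp hp b hd hd' w⟩

/-- a matrix which maps a lattice to itself, in the basis of the lattice -/
theorem exists_V {W P : M4} {X : Submodule ℤ Z4} (hB : ∀ x : Z4, x ∈ X ↔ ∃ y, x = W.mulVec y)
    (hP : ∀ w ∈ X, P.mulVec w ∈ X) : ∃ V : M4, P * W = W * V := by
  have h : ∀ j : Fin 4, ∃ y : Z4, P.mulVec (W.mulVec (Pi.single j 1)) = W.mulVec y := fun j =>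
    (hB _).1 (hP _ ((hB _).2 ⟨_, rfl⟩))
  choose y hy using h
  refine ⟨Matrix.of fun i j => y j i, ?_⟩
  ext i j
  have h1 := congrFun (hy j) i
  rw [Matrix.mulVec_mulVec] at h1
  have h2 : (P * W).mulVec (Pi.single j 1) i = (P * W) i j := by
    rw [Matrix.mulVec_single_one]
    rfl
  rw [h2] at h1
  rw [h1, Matrix.mul_apply]
  rfl

/-- a matrix which preserves the sublattice preserves the moved submodule -/
theorem noV {X Xu : Submodule ℤ Z4} {W P P' S : M4} (hB : ∀ x : Z4, x ∈ X ↔ ∃ y, x = W.mulVec y)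
    (hPP : P * P' = 1) (hinv : ∀ v, v ∈ X ↔ P.mulVec v ∈ Xu)
    (hV : ∃ V : M4, S * (P * W) = P * W * V) : ∀ w ∈ Xu, S.mulVec w ∈ Xu := by
  obtain ⟨V, hV⟩ := hV
  intro w hw
  have h1 : P.mulVec (P'.mulVec w) = w := mul_mulVec_one hPP w
  have h2 : P'.mulVec w ∈ X := (hinv _).2 (by rw [h1]; exact hw)
  obtain ⟨y, hy⟩ := (hB _).1 h2
  have h3 : S.mulVec w = P.mulVec (W.mulVec (V.mulVec y)) := by
    rw [← h1, hy]
    simp only [Matrix.mulVec_mulVec]
    congr 1
    rw [← Matrix.mul_assoc P W V, ← hV]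
  rw [h3]
  exact (hinv _).1 ((hB _).2 ⟨_, rfl⟩)

end Pool.Agent.Refl.H46W
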