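import Mathlib
import Pool.Agent.Helper23_Refl.StmtC5

/-!
# Words: base
-/

namespace Pool.Agent.Refl.H46W

open Matrix

theorem fc_eq {α : Type} (n : ℕ) (f : ℕ → α) : K.fc n f = f n := by cases n <;> rfl

theorem okb_ne {b : Bool} {s : ℕ} (h : K.okb b s ≠ 0) : b = true := by
  cases b
  · exact absurd rfl h
  · rfl

theorem ands_true {a b : Bool} (h : K.ands a b = true) : a = true ∧ b = true := by
  cases a
  · exact absurd (show false = true from h) Bool.false_ne_true
  · exact ⟨rfl, h⟩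

theorem notb_true {a : Bool} (h : K.notb a = true) : a = false := by
  cases a
  · rfl
  · exact absurd (show false = true from h) Bool.false_ne_true

theorem rec_ne {b : Bool} {x : ℕ} (h : (Bool.rec 0 x b : ℕ) ≠ 0) : b = true ∧ x ≠ 0 := by
  cases b
  · exact absurd rfl h
  · exact ⟨rfl, h⟩

theorem blt_true {a b : ℕ} (h : Nat.blt a b = true) : a < b := by
  exact Nat.le_of_ble_eq_true h

theorem beq_true {a b : ℕ} (h : Nat.beq a b = true) : a = b := Nat.eq_of_beq_eq_true h

theorem beq_false {a b : ℕ} (h : Nat.beq a b = false) : a ≠ b := Nat.ne_of_beq_eq_false h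

theorem getG_eq : ∀ (L : List K.Gp) (i : ℕ) (g : K.Gp), L[i]? = some g → K.getG L i = g
  | [], i, g, h => by simp at h
  | a :: L, 0, g, h => by
      have : some a = some g := h
      exact Option.some.inj this
  | a :: L, i + 1, g, h => getG_eq L i g h

/-! ### reflections -/

theorem bz_single (G : M4) (e : Z4) (j : Fin 4) : bz G (Pi.single j 1) e = G.mulVec e j := by
  unfold bz Matrix.mulVec dotProduct
  rw [Finset.sum_eq_single j]
  · simp
  · intro i _ hi
    simp [hi]
  · simp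

theorem rm_coef (G : M4) (e : Z4) (h : IsRoot G e) (j : Fin 4) :
    bz G e e * (2 * G.mulVec e j / bz G e e) = 2 * G.mulVec e j := by
  apply Int.mul_ediv_cancel'
  rw [← bz_single]
  exact h.dvd _

theorem rm_sum (G : M4) (e : Z4) (h : IsRoot G e) :
    ∑ j, (2 * G.mulVec e j / bz G e e) * e j = 2 := by
  have hK : bz G e e ≠ 0 := h.pos.ne'
  apply mul_left_cancel₀ hK
  rw [Finset.mul_sum]
  have h1 : ∀ j, bz G e e * ((2 * G.mulVec e j / bz G e e) * e j) = 2 * (e j * G.mulVec e j) := by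
    intro j
    rw [← mul_assoc, rm_coef G e h j]
    ring
  rw [Finset.sum_congr rfl fun j _ => h1 j, ← Finset.mul_sum]
  have h2 : ∑ j, e j * G.mulVec e j = bz G e e := by
    unfold bz Matrix.mulVec dotProduct
    apply Finset.sum_congr rfl
    intro i _
    rw [Finset.mul_sum]
    apply Finset.sum_congr rfl
    intro j _
    ring
  rw [h2]
  ring

theorem rm_sq (G : M4) (e : Z4) (h : IsRoot G e) : rm G e * rm G e = 1 := by
  have h2 := rm_sum G e h
  set t : Fin 4 → ℤ := fun j => 2 * G.mulVec e j / bz G e e with ht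
  have h3 : ∀ i j, rm G e i j = (if i = j then 1 else 0) - e i * t j := fun i j => rfl
  ext i j
  rw [Matrix.mul_apply]
  simp only [h3]
  have h4 : ∀ k, ((if i = k then (1 : ℤ) else 0) - e i * t k) * ((if k = j then 1 else 0) - e k * t j)
      = (if i = k then (if k = j then 1 else 0) else 0) - (if i = k then e k * t j else 0)
        - (if k = j then e i * t k else 0) + (e i * t j) * (t k * e k) := by
    intro k
    split_ifs <;> ring
  rw [Finset.sum_congr rfl fun k _ => h4 k]
  rw [Finset.sum_add_distrib, Finset.sum_sub_distrib, Finset.sum_sub_distrib, ← Finset.mul_sum]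
  have h5 : ∑ k, t k * e k = 2 := h2
  rw [h5]
  simp only [Finset.sum_ite_eq, Finset.sum_ite_eq', Finset.mem_univ, if_true]
  rw [Matrix.one_apply]
  ring

/-! ### congruences -/

theorem cg_refl (m : ℕ) (x : Z4) : Cg m x x := fun i => by simp
theorem cg_symm {m : ℕ} {x y : Z4} (h : Cg m x y) : Cg m y x := fun i => by
  have := (dvd_neg.2 (h i))
  rwa [neg_sub] at this
theorem cg_trans {m : ℕ} {x y z : Z4} (h : Cg m x y) (h' : Cg m y z) : Cg m x z := fun i => by
  have := dvd_add (h i) (h' i)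
  rwa [sub_add_sub_cancel] at this
theorem cg_add {m : ℕ} {x y x' y' : Z4} (h : Cg m x y) (h' : Cg m x' y') :
    Cg m (x + x') (y + y') := fun i => by
  have := dvd_add (h i) (h' i)
  show (m : ℤ) ∣ (x i + x' i) - (y i + y' i)
  have e : (x i + x' i) - (y i + y' i) = (x i - y i) + (x' i - y' i) := by ring
  rw [e]
  exact this
theorem cg_smul {m : ℕ} {x y : Z4} (c : ℤ) (h : Cg m x y) : Cg m (c • x) (c • y) := fun i => by
  show (m : ℤ) ∣ c * x i - c * y i
  rw [← mul_sub]
  exact Dvd.dvd.mul_left (h i) c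
theorem cg_mulVec {m : ℕ} {x y : Z4} (S : M4) (h : Cg m x y) :
    Cg m (S.mulVec x) (S.mulVec y) := fun i => by
  have : S.mulVec x i - S.mulVec y i = ∑ j, S i j * (x j - y j) := by
    unfold Matrix.mulVec dotProduct
    rw [← Finset.sum_sub_distrib]
    apply Finset.sum_congr rfl
    intro j _
    ring
  rw [this]
  exact Finset.dvd_sum fun j _ => Dvd.dvd.mul_left (h j) _
theorem cg_dot {m : ℕ} {x y : Z4} (v : Z4) (h : Cg m x y) : (m : ℤ) ∣ x ⬝ᵥ v - y ⬝ᵥ v := by
  rw [← sub_dotProduct]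
  unfold dotProduct
  exact Finset.dvd_sum fun j _ => Dvd.dvd.mul_right (h j) _

theorem inv_mod {p : ℕ} (hp : p.Prime) {c : ℤ} (hc : ¬ (p : ℤ) ∣ c) :
    ∃ d : ℤ, (p : ℤ) ∣ 1 - d * c ∧ ¬ (p : ℤ) ∣ d := by
  have hp' : Prime (p : ℤ) := Nat.prime_iff_prime_int.1 hp
  have hcop : IsCoprime (p : ℤ) c := (Prime.coprime_iff_not_dvd hp').2 hc
  obtain ⟨a, b, hab⟩ := hcop
  have h1 : (p : ℤ) ∣ 1 - b * c := ⟨a, by rw [← hab]; ring⟩
  refine ⟨b, h1, fun hb => ?_⟩
  have h2 : (p : ℤ) ∣ b * c := Dvd.dvd.mul_right hb c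
  have h3 := dvd_add h1 h2
  rw [sub_add_cancel] at h3
  exact hp'.not_dvd_one h3

/-- inverting a congruence -/
theorem cg_inv {p : ℕ} (hp : p.Prime) {x u : Z4} {c : ℤ} (hc : ¬ (p : ℤ) ∣ c)
    (h : Cg p x (c • u)) : ∃ d : ℤ, ¬ (p : ℤ) ∣ d ∧ Cg p u (d • x) := by
  obtain ⟨d, hd, hd'⟩ := inv_mod hp hc
  refine ⟨d, hd', ?_⟩
  have h1 : Cg p (d • x) (d • c • u) := cg_smul d h
  apply cg_symm
  apply cg_trans h1
  intro i
  show (p : ℤ) ∣ d * (c * u i) - u i
  have e : d * (c * u i) - u i = -((1 - d * c) * u i) := by ring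
  rw [e]
  exact (Dvd.dvd.mul_right hd _).neg_right

theorem mem_SubX_one {p : ℕ} {x v : Z4} : v ∈ SubX p [x] ↔ ∃ c : ℤ, Cg p v (c • x) := by
  constructor
  · intro h
    unfold SubX at h
    induction h using Submodule.span_induction with
    | mem w hw =>
      rcases hw with hw | ⟨w', hw'⟩
      · have hw1 : w ∈ [x] := hw
        rw [List.mem_singleton] at hw1
        exact ⟨1, by rw [one_smul, hw1]; exact cg_refl _ _⟩
      · refine ⟨0, fun i => ?_⟩
        rw [hw']
        show (p : ℤ) ∣ p * w' i - 0 * x i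
        rw [zero_mul, sub_zero]
        exact dvd_mul_right _ _
    | zero => exact ⟨0, by rw [zero_smul]; exact cg_refl _ _⟩
    | add a b _ _ ha hb =>
      obtain ⟨c, hc⟩ := ha
      obtain ⟨d, hd⟩ := hb
      exact ⟨c + d, by rw [add_smul]; exact cg_add hc hd⟩
    | smul a w _ hw =>
      obtain ⟨c, hc⟩ := hw
      exact ⟨a * c, by rw [mul_smul]; exact cg_smul a hc⟩
  · rintro ⟨c, hc⟩
    choose w hw using hc
    have hv : v = c • x + (p : ℤ) • w := by
      funext i
      show v i = c * x i + p * w i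
      have : v i - c * x i = p * w i := hw i
      rw [← this]
      ring
    rw [hv]
    apply Submodule.add_mem
    · exact Submodule.smul_mem _ _ (Submodule.subset_span (Or.inl (by simp)))
    · exact Submodule.subset_span (Or.inr ⟨w, rfl⟩)

theorem mem_SubX_two {p : ℕ} {x y v : Z4} :
    v ∈ SubX p [x, y] ↔ ∃ a b : ℤ, Cg p v (a • x + b • y) := by
  constructor
  · intro h
    unfold SubX at h
    induction h using Submodule.span_induction with
    | mem w hw =>
      rcases hw with hw | ⟨w', hw'⟩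
      · have hw1 : w ∈ [x, y] := hw
        rw [List.mem_cons, List.mem_singleton] at hw1
        rcases hw1 with hw1 | hw1
        · exact ⟨1, 0, by rw [one_smul, zero_smul, add_zero, hw1]; exact cg_refl _ _⟩
        · exact ⟨0, 1, by rw [one_smul, zero_smul, zero_add, hw1]; exact cg_refl _ _⟩
      · refine ⟨0, 0, fun i => ?_⟩
        rw [hw']
        show (p : ℤ) ∣ p * w' i - (0 * x i + 0 * y i)
        rw [zero_mul, zero_mul, add_zero, sub_zero]
        exact dvd_mul_right _ _
    | zero => exact ⟨0, 0, by rw [zero_smul, zero_smul, add_zero]; exact cg_refl _ _⟩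
    | add a b _ _ ha hb =>
      obtain ⟨c, d, hc⟩ := ha
      obtain ⟨c', d', hd⟩ := hb
      refine ⟨c + c', d + d', ?_⟩
      have := cg_add hc hd
      have e : (c + c') • x + (d + d') • y = (c • x + d • y) + (c' • x + d' • y) := by
        rw [add_smul, add_smul]
        abel
      rw [e]
      exact this
    | smul a w _ hw =>
      obtain ⟨c, d, hc⟩ := hw
      refine ⟨a * c, a * d, ?_⟩
      have := cg_smul a hc
      rw [smul_add, ← mul_smul, ← mul_smul] at this
      exact this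
  · rintro ⟨c, d, hc⟩
    choose w hw using hc
    have hv : v = (c • x + d • y) + (p : ℤ) • w := by
      funext i
      show v i = (c * x i + d * y i) + p * w i
      have : v i - (c * x i + d * y i) = p * w i := hw i
      rw [← this]
      ring
    rw [hv]
    apply Submodule.add_mem
    · apply Submodule.add_mem
      · exact Submodule.smul_mem _ _ (Submodule.subset_span (Or.inl (by simp)))
      · exact Submodule.smul_mem _ _ (Submodule.subset_span (Or.inl (by simp)))
    · exact Submodule.subset_span (Or.inr ⟨w, rfl⟩)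

theorem mem_HypX {p : ℕ} {y v : Z4} : v ∈ HypX p y ↔ (p : ℤ) ∣ y ⬝ᵥ v := Iff.rfl

/-! ### trace -/

theorem col_mul (S P : M4) (j : Fin 4) : S.mulVec (fun i => P i j) = fun i => (S * P) i j := by
  funext i
  rw [Matrix.mul_apply]
  rfl

theorem trace_big (hP : PkZStmt) {M : ℕ} (h1 : 11 ≤ M) (h2 : M ≤ 127) (P : M4)
    (h : K.trC M (pkZ M fun i => P i 0) (pkZ M fun i => P i 1) (pkZ M fun i => P i 2)
      (pkZ M fun i => P i 3) = true) : 4 < |P.trace| := by
  obtain ⟨_, _, _, hd, _⟩ := hP M (by omega) h2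
  have d0 := (hd fun i => P i 0).1
  have d1 := (hd fun i => P i 1).2.1
  have d2 := (hd fun i => P i 2).2.2.1
  have d3 := (hd fun i => P i 3).2.2.2
  unfold K.trC at h
  rw [fc_eq] at h
  set a := K.dig0 (pkZ M fun i => P i 0) with ha
  set b := K.dig1 (pkZ M fun i => P i 1) with hb
  set c := K.dig2 (pkZ M fun i => P i 2) with hc
  set d := K.dig3 (pkZ M fun i => P i 3) with hd'
  obtain ⟨h3, h4⟩ := ands_true h
  have h3' : 4 < (a + b + (c + d)) % M := blt_true h3
  have h4' : (a + b + (c + d)) % M + 4 < M := blt_true h4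
  set t := (a + b + (c + d)) % M with ht
  have htr : P.trace = P 0 0 + P 1 1 + P 2 2 + P 3 3 := by
    rw [Matrix.trace, Fin.sum_univ_four]
    rfl
  have hdvd : (M : ℤ) ∣ (t : ℤ) - P.trace := by
    have e1 : (M : ℤ) ∣ (t : ℤ) - ((a + b + (c + d) : ℕ) : ℤ) := by
      have := Nat.mod_add_div (a + b + (c + d)) M
      refine ⟨-(((a + b + (c + d)) / M : ℕ) : ℤ), ?_⟩
      have h5 : ((t + M * ((a + b + (c + d)) / M) : ℕ) : ℤ) = ((a + b + (c + d) : ℕ) : ℤ) := by
        rw [ht, this]
      push_cast at h5 ⊢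
      linarith
    have e2 : ∀ z : ℤ, (M : ℤ) ∣ z % M - z := fun z => by
      refine ⟨-(z / M), ?_⟩
      have := Int.emod_add_mul_ediv z M
      linarith
    have e3 := dvd_add (dvd_add (dvd_add e1 (e2 (P 0 0))) (e2 (P 1 1)))
      (dvd_add (e2 (P 2 2)) (e2 (P 3 3)))
    rw [← d0, ← d1, ← d2, ← d3] at e3
    rw [htr]
    have e4 : (t : ℤ) - (P 0 0 + P 1 1 + P 2 2 + P 3 3) =
        (t : ℤ) - ((a + b + (c + d) : ℕ) : ℤ) + ((a : ℤ) - P 0 0) + ((b : ℤ) - P 1 1) +
          (((c : ℤ) - P 2 2) + ((d : ℤ) - P 3 3)) := by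
      push_cast
      ring
    rw [e4]
    exact e3
  by_contra hle
  push Not at hle
  obtain ⟨h5, h6⟩ := abs_le.1 hle
  have h7 : (M : ℤ) ≤ (t : ℤ) - P.trace := Int.le_of_dvd (by omega) hdvd
  omega

/-- the trace of the identity is not big -/
theorem trC_one {M : ℕ} (h1 : 11 ≤ M) : K.trC M 1 K.S1 K.S2 K.S3 = false := by
  unfold K.trC
  rw [fc_eq]
  have e : Nat.add (Nat.add (K.dig0 1) (K.dig1 K.S1)) (Nat.add (K.dig2 K.S2) (K.dig3 K.S3)) = 4 := by
    decide +kernel
  rw [e]
  have e2 : Nat.mod 4 M = 4 := Nat.mod_eq_of_lt (by omega)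
  rw [e2]
  rfl

/-- columns of the identity -/
theorem pkZ_one {M : ℕ} (h1 : 11 ≤ M) : (pkZ M fun i => (1 : M4) i 0) = 1 ∧
    (pkZ M fun i => (1 : M4) i 1) = K.S1 ∧ (pkZ M fun i => (1 : M4) i 2) = K.S2 ∧
    (pkZ M fun i => (1 : M4) i 3) = K.S3 := by
  have e0 : ((0 : ℤ) % M).toNat = 0 := by simp
  have e1 : ((1 : ℤ) % M).toNat = 1 := by
    rw [Int.emod_eq_of_lt (by norm_num) (by omega)]
    rfl
  refine ⟨?_, ?_, ?_, ?_⟩ <;> simp [pkZ, e1]

end Pool.Agent.Refl.H46W
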